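import Mathlib

/-!
# Obtuse bases (layer AE of MP_0f6f3f_an, gluing): the diagram is a tree with at most one multiple edge

`Dia B e`: unit vectors `e i`, linearly independent, with scalar products `0` or `≤ -1/2`. `IB`, `IA`: invariants of a growing connected set of vertices. `uniqB`, `uniqA`: a new vertex has only one neighbour in the set, and
the new edge is not multiple if the set contains a multiple edge. `grow`: the induction principle.
-/

set_option autoImplicit false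

namespace Pool.Agent.Helper25.AE

/-- Obtuse bases. -/
structure Dia {E ι : Type*} [AddCommGroup E] [Module ℝ E] (B : E →ₗ[ℝ] E →ₗ[ℝ] ℝ) (e : ι → E) : Prop where
  symm : ∀ u v, B u v = B v u
  pos : ∀ u, u ≠ 0 → 0 < B u u
  li : LinearIndependent ℝ e
  one : ∀ i, B (e i) (e i) = 1
  nonpos : ∀ i j, i ≠ j → B (e i) (e j) ≤ 0
  half : ∀ i j, i ≠ j → B (e i) (e j) ≠ 0 → B (e i) (e j) ≤ -(1 / 2)

variable {E ι : Type*} [AddCommGroup E] [Module ℝ E] {B : E →ₗ[ℝ] E →ₗ[ℝ] ℝ} {e : ι → E}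

/-- The sum over a set of vertices. -/
def us (e : ι → E) (S : Finset ι) : E := ∑ i ∈ S, e i

namespace Dia

theorem B_us (S : Finset ι) (u : E) : B u (us e S) = ∑ i ∈ S, B u (e i) := by
  rw [us, map_sum]

theorem us_nonpos (d : Dia B e) {S : Finset ι} {j : ι} (hj : j ∉ S) : B (e j) (us e S) ≤ 0 := by
  rw [B_us]
  exact Finset.sum_nonpos fun i hi => d.nonpos j i (fun h => hj (h ▸ hi))

theorem us_le (d : Dia B e) {S : Finset ι} {i j : ι} (hi : i ∈ S) (hj : j ∉ S) : B (e j) (us e S) ≤ B (e j) (e i) := by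
  classical
  rw [B_us, ← Finset.add_sum_erase S _ hi]
  have h1 : ∑ x ∈ S.erase i, B (e j) (e x) ≤ 0 :=
    Finset.sum_nonpos fun k hk => d.nonpos j k (fun h => hj (h ▸ Finset.mem_of_mem_erase hk))
  linarith

theorem us_le_two (d : Dia B e) {S : Finset ι} {i k j : ι} (hi : i ∈ S) (hk : k ∈ S) (hik : i ≠ k) (hj : j ∉ S) :
    B (e j) (us e S) ≤ B (e j) (e i) + B (e j) (e k) := by
  classical
  rw [B_us, ← Finset.add_sum_erase S _ hi, ← Finset.add_sum_erase (S.erase i) _ (Finset.mem_erase.2 ⟨hik.symm, hk⟩)]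
  have h1 : ∑ x ∈ (S.erase i).erase k, B (e j) (e x) ≤ 0 :=
    Finset.sum_nonpos fun l hl => d.nonpos j l (fun h => hj (h ▸ Finset.mem_of_mem_erase (Finset.mem_of_mem_erase hl)))
  linarith

theorem cross_le (d : Dia B e) {S T : Finset ι} {i j : ι} (hi : i ∈ S) (hj : j ∈ T) (hST : Disjoint S T) : B (us e S) (us e T) ≤ B (e i) (e j) := by
  classical
  have h0 : ∀ k ∈ T, k ∉ S := fun k hk hk' => Finset.disjoint_left.1 hST hk' hk
  rw [B_us, ← Finset.add_sum_erase T _ hj]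
  have h1 : ∑ x ∈ T.erase j, B (us e S) (e x) ≤ 0 := Finset.sum_nonpos fun k hk => by
    rw [d.symm]
    exact d.us_nonpos (h0 k (Finset.mem_of_mem_erase hk))
  have h2 := d.us_le hi (h0 j hj)
  rw [d.symm] at h2
  rw [d.symm (e i)]
  linarith

theorem ne_zero (d : Dia B e) {S : Finset ι} {j : ι} (hj : j ∉ S) {u : E} (hu : u ∈ Submodule.span ℝ (e '' (S : Set ι))) : e j + u ≠ 0 := by
  intro h0
  refine d.li.notMem_span_image (s := (S : Set ι)) (x := j) (by simpa using hj) ?_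
  rw [eq_neg_of_add_eq_zero_left h0]
  exact Submodule.neg_mem _ hu

theorem us_mem {S T : Finset ι} (h : S ⊆ T) : us e S ∈ Submodule.span ℝ (e '' (T : Set ι)) :=
  Submodule.sum_mem _ fun i hi => Submodule.subset_span ⟨i, h hi, rfl⟩

omit [Module ℝ E] in
theorem us_insert [DecidableEq ι] {S : Finset ι} {j : ι} (hj : j ∉ S) : us e (insert j S) = e j + us e S := by
  rw [us, us, Finset.sum_insert hj]

theorem sq_add (d : Dia B e) (j : ι) (u : E) : B (e j + u) (e j + u) = 1 + 2 * B (e j) u + B u u := by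
  rw [map_add, map_add, LinearMap.add_apply, LinearMap.add_apply, d.one, d.symm u (e j)]
  ring

/-- Two neighbours of a vertex are orthogonal. -/
theorem tri (d : Dia B e) {i j k : ι} (hij : i ≠ j) (hjk : j ≠ k) (hik : i ≠ k) (h1 : B (e i) (e j) ≠ 0) (h2 : B (e j) (e k) ≠ 0) :
    B (e i) (e k) = 0 := by
  classical
  by_contra h3
  have g1 := d.half i j hij h1
  have g2 := d.half j k hjk h2
  have g3 := d.half i k hik h3
  have h4 : e i + (e j + e k) ≠ 0 := by
    refine d.ne_zero (S := {j, k}) (by simp [hij, hik]) (Submodule.add_mem _ ?_ ?_)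
    · exact Submodule.subset_span ⟨j, by simp, rfl⟩
    · exact Submodule.subset_span ⟨k, by simp, rfl⟩
  have h5 := d.pos _ h4
  rw [d.sq_add, d.sq_add, map_add, d.one] at h5
  linarith

/-- The invariant without multiple edges. -/
def IB (B : E →ₗ[ℝ] E →ₗ[ℝ] ℝ) (e : ι → E) (S : Finset ι) : Prop := B (us e S) (us e S) ≤ 1

theorem IB_single (d : Dia B e) (i : ι) : IB B e {i} := by
  rw [IB, us, Finset.sum_singleton, d.one]

theorem uniqB [DecidableEq ι] (d : Dia B e) {S : Finset ι} (hS : IB B e S) {i j : ι} (hi : i ∈ S) (hj : j ∉ S) (hij : B (e i) (e j) ≠ 0) :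
    IB B e (insert j S) ∧ ∀ k ∈ S, B (e k) (e j) ≠ 0 → k = i := by
  have hne : ∀ k ∈ S, k ≠ j := fun k hk h => hj (h ▸ hk)
  have g1 := d.half i j (hne i hi) hij
  have g2 := d.us_le hi hj
  rw [d.symm] at g1
  refine ⟨?_, fun k hk hkj => ?_⟩
  · rw [IB] at hS ⊢
    rw [us_insert hj, d.sq_add]
    linarith
  · by_contra hki
    have g3 := d.half k j (hne k hk) hkj
    rw [d.symm] at g3
    have g4 := d.us_le_two hi hk (Ne.symm hki) hj
    have g5 := d.pos _ (d.ne_zero hj (us_mem (e := e) (Finset.Subset.refl S)))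
    rw [d.sq_add] at g5
    rw [IB] at hS
    linarith

/-- The invariant with a multiple edge. -/
def IA (B : E →ₗ[ℝ] E →ₗ[ℝ] ℝ) (e : ι → E) (i0 j0 : ι) (S : Finset ι) : Prop :=
  ∃ S1 S2 : Finset ι, (∀ k, k ∈ S ↔ k ∈ S1 ∨ k ∈ S2) ∧ Disjoint S1 S2 ∧ i0 ∈ S1 ∧ j0 ∈ S2 ∧ IB B e S1 ∧ IB B e S2

theorem IA_pair [DecidableEq ι] (d : Dia B e) {i0 j0 : ι} (h0 : i0 ≠ j0) : IA B e i0 j0 {i0, j0} :=
  ⟨{i0}, {j0}, fun k => by simp, by simpa using h0, by simp, by simp, d.IB_single i0, d.IB_single j0⟩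

theorem IA_symm {i0 j0 : ι} {S : Finset ι} (h : IA B e i0 j0 S) : IA B e j0 i0 S := by
  obtain ⟨S1, S2, h1, h2, h3, h4, h5, h6⟩ := h
  exact ⟨S2, S1, fun k => by rw [h1, or_comm], h2.symm, h4, h3, h6, h5⟩

private theorem uniqA_aux [DecidableEq ι] (d : Dia B e) {i0 j0 : ι} (hd : B (e i0) (e j0) ≤ -(Real.sqrt 2 / 2)) {S S1 S2 : Finset ι}
    (h1 : ∀ k, k ∈ S ↔ k ∈ S1 ∨ k ∈ S2) (h2 : Disjoint S1 S2) (h3 : i0 ∈ S1) (h4 : j0 ∈ S2) (h5 : IB B e S1) (h6 : IB B e S2)
    {i j : ι} (hi : i ∈ S1) (hj : j ∉ S) (hij : B (e i) (e j) ≠ 0) :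
    IA B e i0 j0 (insert j S) ∧ (∀ k ∈ S, B (e k) (e j) ≠ 0 → k = i) ∧ ¬ B (e i) (e j) ≤ -(Real.sqrt 2 / 2) := by
  have s0 : 0 ≤ Real.sqrt 2 := Real.sqrt_nonneg 2
  have s2 : Real.sqrt 2 * Real.sqrt 2 = 2 := Real.mul_self_sqrt (by norm_num)
  have s1 : 1 ≤ Real.sqrt 2 := by
    rw [Real.one_le_sqrt]
    norm_num
  have hj1 : j ∉ S1 := fun h => hj ((h1 j).2 (Or.inl h))
  have hj2 : j ∉ S2 := fun h => hj ((h1 j).2 (Or.inr h))
  have hne : ∀ k ∈ S, k ≠ j := fun k hk h => hj (h ▸ hk)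
  have hiS : i ∈ S := (h1 i).2 (Or.inl hi)
  obtain ⟨u1, u2⟩ := d.uniqB h5 hi hj1 hij
  have g1 := d.half i j (hne i hiS) hij
  rw [d.symm] at g1
  have g2 := d.us_le hi hj1
  have g3 := d.us_nonpos hj2
  have g4 := d.cross_le h3 h4 h2
  have m1 : us e S1 ∈ Submodule.span ℝ (e '' (S : Set ι)) := us_mem fun k hk => (h1 k).2 (Or.inl hk)
  have m2 : us e S2 ∈ Submodule.span ℝ (e '' (S : Set ι)) := us_mem fun k hk => (h1 k).2 (Or.inr hk)
  rw [IB] at h5 h6
  refine ⟨⟨insert j S1, S2, fun k => ?_, ?_, Finset.mem_insert_of_mem h3, h4, u1, h6⟩, fun k hk hkj => ?_, fun hm => ?_⟩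
  · rw [Finset.mem_insert, Finset.mem_insert, h1, or_assoc]
  · rw [Finset.disjoint_insert_left]
    exact ⟨hj2, h2⟩
  · rcases (h1 k).1 hk with hk1 | hk2
    · exact u2 k hk1 hkj
    · exfalso
      have g5 := d.half k j (hne k hk) hkj
      rw [d.symm] at g5
      have g6 := d.us_le hk2 hj2
      have g7 := d.pos _ (d.ne_zero hj (Submodule.add_mem _ m1 m2))
      rw [d.sq_add, map_add, map_add, map_add, LinearMap.add_apply, LinearMap.add_apply, d.symm (us e S2) (us e S1)] at g7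
      linarith
  · rw [d.symm] at hm
    have g7 := d.pos _ (d.ne_zero hj (Submodule.add_mem _ (Submodule.smul_mem _ (Real.sqrt 2) m1) m2))
    rw [d.sq_add] at g7
    simp only [map_add, LinearMap.add_apply, map_smul, LinearMap.smul_apply, smul_eq_mul, d.symm (us e S2) (us e S1)] at g7
    have g8 : Real.sqrt 2 * B (e j) (us e S1) ≤ -1 := by
      have : B (e j) (us e S1) ≤ -(Real.sqrt 2 / 2) := by linarith
      nlinarith
    have g9 : Real.sqrt 2 * B (us e S1) (us e S2) ≤ -1 := by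
      have : B (us e S1) (us e S2) ≤ -(Real.sqrt 2 / 2) := by linarith
      nlinarith
    have g10 : Real.sqrt 2 * (Real.sqrt 2 * B (us e S1) (us e S1)) ≤ 2 := by
      rw [← mul_assoc, s2]
      linarith
    nlinarith

theorem uniqA [DecidableEq ι] (d : Dia B e) {i0 j0 : ι} (hd : B (e i0) (e j0) ≤ -(Real.sqrt 2 / 2)) {S : Finset ι}
    (hS : IA B e i0 j0 S) {i j : ι} (hi : i ∈ S) (hj : j ∉ S) (hij : B (e i) (e j) ≠ 0) :
    IA B e i0 j0 (insert j S) ∧ (∀ k ∈ S, B (e k) (e j) ≠ 0 → k = i) ∧ ¬ B (e i) (e j) ≤ -(Real.sqrt 2 / 2) := by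
  obtain ⟨S1, S2, h1, h2, h3, h4, h5, h6⟩ := hS
  rcases (h1 i).1 hi with hi1 | hi2
  · exact d.uniqA_aux hd h1 h2 h3 h4 h5 h6 hi1 hj hij
  · obtain ⟨a1, a2, a3⟩ := d.uniqA_aux (i0 := j0) (j0 := i0) (by rw [d.symm]; exact hd) (S := S) (S1 := S2) (S2 := S1)
      (fun k => by rw [h1, or_comm]) h2.symm h4 h3 h6 h5 hi2 hj hij
    exact ⟨IA_symm a1, a2, a3⟩

end Dia

/-- The induction principle. -/
theorem grow [Fintype ι] [DecidableEq ι] (adj : ι → ι → Prop) (P : Finset ι → Prop) {S0 : Finset ι} (h0 : P S0) (hne : S0.Nonempty)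
    (conn : ∀ S : Finset ι, S.Nonempty → S ≠ Finset.univ → ∃ i ∈ S, ∃ j, j ∉ S ∧ adj i j)
    (step : ∀ S i j, P S → i ∈ S → j ∉ S → adj i j → P (insert j S)) : P Finset.univ := by
  suffices H : ∀ n (S : Finset ι), S.Nonempty → P S → Fintype.card ι - S.card = n → P Finset.univ from H _ S0 hne h0 rfl
  intro n
  induction n with
  | zero =>
    intro S _ hS hn
    have h1 : S = Finset.univ := by
      rw [← Finset.card_eq_iff_eq_univ]
      have := Finset.card_le_univ S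
      omega
    rwa [← h1]
  | succ n ih =>
    intro S hSn hS hn
    have h1 : S ≠ Finset.univ := by
      intro h
      rw [h, Finset.card_univ, Nat.sub_self] at hn
      omega
    obtain ⟨i, hi, j, hj, hij⟩ := conn S hSn h1
    refine ih (insert j S) (Finset.insert_nonempty j S) (step S i j hS hi hj hij) ?_
    rw [Finset.card_insert_of_notMem hj]
    omega

end Pool.Agent.Helper25.AE
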