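import Pool.Agent.Helper25.AE.A2
import Pool.Agent.Helper25.AE.Dia

/-!
# Project MP_0f6f3f_an, layer AE (algebraic end): simple systems, general facts for the gluing

`SD θ b A τ al`: `al` is a linearly independent obtuse generating simple system. `SD.cart`: an edge is of type `A_2` or multiple. `SD.dia`: the normalised simple roots form an obtuse basis. `SD.conn`: the diagram is connected.
-/

set_option autoImplicit false

namespace Pool.Agent.Helper25.AE

open Pool.Agent.Helper96.SA Pool.Agent.Helper96.TO Pool.Agent.Helper69.SLN Pool.Agent.Helper77.TZ2 Pool.Agent.Helper77.LA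
  Pool.Agent.Helper77.AE Pool.Agent.Helper77.ST Pool.Agent.Helper95.AE

variable {L : Type} [LieRing L] [LieAlgebra ℝ L] {N : ℕ} {θ : L ≃ₗ⁅ℝ⁆ L} {b : Module.Basis (Fin N) ℝ L} {A : Submodule ℝ L}
  {τ : Module.Dual ℝ A ≃ₗ[ℝ] A} {ι : Type} {al : ι → Module.Dual ℝ A}

/-- Simple systems. -/
structure SD (θ : L ≃ₗ⁅ℝ⁆ L) (b : Module.Basis (Fin N) ℝ L) (A : Submodule ℝ L) (τ : Module.Dual ℝ A ≃ₗ[ℝ] A) (al : ι → Module.Dual ℝ A) : Prop where
  h : CartanBasis θ b
  hA : MaxFlat θ A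
  hτ : ∀ (φ : Module.Dual ℝ A) (a : A), killingForm ℝ L (τ φ : L) (a : L) = φ a
  hS : Smp A al
  li : LinearIndependent ℝ al
  ob : ∀ i j, i ≠ j → al j (τ (al i)) ≤ 0

/-- The bilinear form on the dual of `A`. -/
noncomputable def bf (τ : Module.Dual ℝ A ≃ₗ[ℝ] A) : Module.Dual ℝ A →ₗ[ℝ] Module.Dual ℝ A →ₗ[ℝ] ℝ :=
  LinearMap.mk₂ ℝ (fun φ ψ => φ (τ ψ)) (fun _ _ _ => rfl) (fun _ _ _ => rfl)
      (fun φ ψ χ => by rw [map_add, map_add]) (fun c φ ψ => by rw [map_smul, map_smul])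

theorem bf_apply (φ ψ : Module.Dual ℝ A) : bf τ φ ψ = φ (τ ψ) := rfl

/-- The normalised simple roots. -/
noncomputable def nr (τ : Module.Dual ℝ A ≃ₗ[ℝ] A) (al : ι → Module.Dual ℝ A) (i : ι) : Module.Dual ℝ A := (Real.sqrt (al i (τ (al i))))⁻¹ • al i

namespace SD

theorem pos (s : SD θ b A τ al) (i : ι) : 0 < al i (τ (al i)) := tau_pos s.hτ s.h s.hA (s.hS.root i).1

theorem symm (s : SD θ b A τ al) (i j : ι) : al j (τ (al i)) = al i (τ (al j)) := tau_symm s.hτ _ _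

theorem cart (s : SD θ b A τ al) {i j : ι} (hij : i ≠ j) (h0 : al j (τ (al i)) ≠ 0) :
    (A2E A τ (al i) (al j) ∨ al i (τ (al i)) * al j (τ (al j)) ≤ 2 * (al j (τ (al i)) * al j (τ (al i)))) ∧
      al i (τ (al i)) * al j (τ (al j)) ≤ 4 * (al j (τ (al i)) * al j (τ (al i))) := by
  obtain ⟨m, hm, -⟩ := refl s.h s.hA s.hτ (s.hS.root j) (s.hS.root i)
  obtain ⟨n, hn, -⟩ := refl s.h s.hA s.hτ (s.hS.root i) (s.hS.root j)
  have hi := s.pos i
  have hj := s.pos j
  have hs := s.symm i j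
  have ho := s.ob i j hij
  obtain ⟨c, hc⟩ : ∃ c : ℝ, c = al j (τ (al i)) := ⟨_, rfl⟩
  rw [← hs] at hn
  rw [← hc] at h0 ho hm hn ⊢
  have hc0 : c < 0 := lt_of_le_of_ne ho h0
  have hm0 : (m : ℝ) < 0 := by
    by_contra h1
    rw [not_lt] at h1
    nlinarith
  have hn0 : (n : ℝ) < 0 := by
    by_contra h1
    rw [not_lt] at h1
    nlinarith
  have hm1 : m ≤ -1 := by
    have : m < 0 := by exact_mod_cast hm0
    omega
  have hn1 : n ≤ -1 := by
    have : n < 0 := by exact_mod_cast hn0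
    omega
  have hmn : 4 * (c * c) = (m * n : ℤ) * (al i (τ (al i)) * al j (τ (al j))) := by
    push_cast
    linear_combination 2 * c * hn + n * al j (τ (al j)) * hm
  have hp : 0 < al i (τ (al i)) * al j (τ (al j)) := mul_pos hi hj
  refine ⟨?_, ?_⟩
  · by_cases h1 : m = -1 ∧ n = -1
    · left
      refine ⟨s.hS.root i, s.hS.root j, (s.hS.dif i j hij).1, (s.hS.dif i j hij).2, ?_, ?_⟩
      · rw [← hc, hm, h1.1]
        push_cast
        ring
      · rw [h1.1] at hm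
        rw [h1.2] at hn
        push_cast at hm hn
        linarith
    · right
      have h2 : 2 ≤ m * n := by
        rcases not_and_or.1 h1 with h3 | h3
        · have : m ≤ -2 := by omega
          nlinarith
        · have : n ≤ -2 := by omega
          nlinarith
      have h3 : (2 : ℝ) ≤ ((m * n : ℤ) : ℝ) := by exact_mod_cast h2
      nlinarith
  · have h2 : 1 ≤ m * n := by nlinarith
    have h3 : (1 : ℝ) ≤ ((m * n : ℤ) : ℝ) := by exact_mod_cast h2
    nlinarith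

theorem bnr (s : SD θ b A τ al) (i j : ι) : bf τ (nr τ al i) (nr τ al j) =
    al j (τ (al i)) / (Real.sqrt (al i (τ (al i))) * Real.sqrt (al j (τ (al j)))) := by
  rw [nr, nr, map_smul, LinearMap.map_smul₂, bf_apply, smul_eq_mul, smul_eq_mul, s.symm i j]
  ring

theorem sqrt_pos (s : SD θ b A τ al) (i j : ι) : 0 < Real.sqrt (al i (τ (al i))) * Real.sqrt (al j (τ (al j))) :=
  mul_pos (Real.sqrt_pos.2 (s.pos i)) (Real.sqrt_pos.2 (s.pos j))

theorem bnr_ne (s : SD θ b A τ al) (i j : ι) : bf τ (nr τ al i) (nr τ al j) ≠ 0 ↔ al j (τ (al i)) ≠ 0 := by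
  rw [s.bnr, div_ne_zero_iff]
  exact ⟨fun h => h.1, fun h => ⟨h, (s.sqrt_pos i j).ne'⟩⟩

theorem bnr_le (s : SD θ b A τ al) {i j : ι} (hij : i ≠ j) {t : ℝ} (_ : 0 ≤ t)
    (h : t ^ 2 * (al i (τ (al i)) * al j (τ (al j))) ≤ al j (τ (al i)) * al j (τ (al i))) : bf τ (nr τ al i) (nr τ al j) ≤ -t := by
  rw [s.bnr, div_le_iff₀ (s.sqrt_pos i j)]
  have h1 := s.ob i j hij
  have h2 := (s.sqrt_pos i j).le
  have h3 : (t * (Real.sqrt (al i (τ (al i))) * Real.sqrt (al j (τ (al j))))) ^ 2 ≤ (-al j (τ (al i))) ^ 2 := by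
    rw [mul_pow, mul_pow, Real.sq_sqrt (s.pos i).le, Real.sq_sqrt (s.pos j).le]
    linarith
  have h4 := abs_le_of_sq_le_sq h3 (by linarith)
  have h5 := le_abs_self (t * (Real.sqrt (al i (τ (al i))) * Real.sqrt (al j (τ (al j)))))
  linarith

/-- The obtuse basis. -/
theorem dia (s : SD θ b A τ al) : Dia (bf τ) (nr τ al) where
  symm u v := by rw [bf_apply, bf_apply, tau_symm s.hτ]
  pos u hu := by
    rw [bf_apply]
    exact tau_pos s.hτ s.h s.hA hu
  li := by
    have h1 := s.li.units_smul (fun i => Units.mk0 (Real.sqrt (al i (τ (al i))))⁻¹ (inv_ne_zero (Real.sqrt_pos.2 (s.pos i)).ne'))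
    exact h1
  one i := by rw [s.bnr, Real.mul_self_sqrt (s.pos i).le, div_self (s.pos i).ne']
  nonpos i j hij := by
    rw [s.bnr]
    exact div_nonpos_of_nonpos_of_nonneg (s.ob i j hij) (s.sqrt_pos i j).le
  half i j hij h0 := by
    rw [s.bnr_ne] at h0
    refine s.bnr_le hij (by norm_num) ?_
    have := (s.cart hij h0).2
    linarith

theorem mult (s : SD θ b A τ al) {i j : ι} (hij : i ≠ j) (h0 : al j (τ (al i)) ≠ 0) (h1 : ¬ A2E A τ (al i) (al j)) :
    bf τ (nr τ al i) (nr τ al j) ≤ -(Real.sqrt 2 / 2) := by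
  refine s.bnr_le hij (by positivity) ?_
  have := (s.cart hij h0).1.resolve_left h1
  rw [div_pow, Real.sq_sqrt (by norm_num)]
  linarith

/-- The diagram is connected. -/
theorem conn [Fintype ι] [LieAlgebra.IsSimple ℝ L] (s : SD θ b A τ al) (S : Finset ι) (hne : S.Nonempty) (hun : S ≠ Finset.univ) :
    ∃ i ∈ S, ∃ j, j ∉ S ∧ al j (τ (al i)) ≠ 0 := by
  by_contra hcon
  push Not at hcon
  -- the root spaces of `S` and of the complement commute
  have hc : ∀ i ∈ S, ∀ j, j ∉ S → ∀ x v, (Wv A (al i) x ∨ Wv A (-al i) x) → (Wv A (al j) v ∨ Wv A (-al j) v) → ⁅x, v⁆ = 0 := by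
    intro i hi j hj x v hx hv
    have hij : i ≠ j := fun h => hj (h ▸ hi)
    have d1 := s.hS.dif i j hij
    have d2 := s.hS.dif j i hij.symm
    have h0 := hcon i hi j hj
    have c1 : ∀ x v, Wv A (al i) x → Wv A (al j) v → ⁅x, v⁆ = 0 := fun x v hx hv => comm_of_orth s.hτ s.h s.hA d1.1 d1.2 h0 hx hv
    have c2 : ∀ x v, Wv A (al i) x → Wv A (-al j) v → ⁅x, v⁆ = 0 := fun x v hx hv => by
      have h1 := hx.lie hv
      rw [← sub_eq_add_neg] at h1
      exact h1.eq_zero d1.2 d1.1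
    rcases hx with hx | hx <;> rcases hv with hv | hv
    · exact c1 x v hx hv
    · exact c2 x v hx hv
    · have h1 := hx.theta s.hA
      have h2 := hv.theta s.hA
      rw [neg_neg] at h1
      have h3 := c2 _ _ h1 h2
      rw [← LieEquiv.map_lie] at h3
      exact θ.injective (h3.trans (map_zero θ).symm)
    · have h1 := hx.theta s.hA
      have h2 := hv.theta s.hA
      rw [neg_neg] at h1 h2
      have h3 := c1 _ _ h1 h2
      rw [← LieEquiv.map_lie] at h3
      exact θ.injective (h3.trans (map_zero θ).symm)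
  -- the centraliser of the complement
  let Y : Set L := {v | ∃ j, j ∉ S ∧ (Wv A (al j) v ∨ Wv A (-al j) v)}
  let I0 : Submodule ℝ L :=
    { carrier := {z | ∀ y ∈ Y, ⁅z, y⁆ = 0}
      zero_mem' := fun y _ => zero_lie y
      add_mem' := fun {p q} hp hq y hy => by rw [add_lie, hp y hy, hq y hy, add_zero]
      smul_mem' := fun c p hp y hy => by rw [smul_lie, hp y hy, smul_zero] }
  have mI : ∀ z, z ∈ I0 ↔ ∀ y ∈ Y, ⁅z, y⁆ = 0 := fun z => Iff.rfl
  have key : ∀ w : L, ∀ z ∈ I0, ⁅w, z⁆ ∈ I0 := by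
    intro w
    have hw : w ∈ LieSubalgebra.lieSpan ℝ L {x : L | ∃ i, Wv A (al i) x ∨ Wv A (-al i) x} := by
      rw [s.hS.gen]
      trivial
    refine LieSubalgebra.lieSpan_induction (R := ℝ) (L := L) (s := {x : L | ∃ i, Wv A (al i) x ∨ Wv A (-al i) x})
      (p := fun w _ => ∀ z ∈ I0, ⁅w, z⁆ ∈ I0) ?_ ?_ ?_ ?_ ?_ hw
    · rintro x ⟨i, hx⟩ z hz
      by_cases hi : i ∈ S
      · rw [mI]
        rintro y ⟨j, hj, hy⟩
        rw [lie_lie, hz y ⟨j, hj, hy⟩, hc i hi j hj x y hx hy, lie_zero, lie_zero, sub_zero]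
      · have h1 : ⁅x, z⁆ = 0 := by
          rw [← lie_skew, hz x ⟨i, hi, hx⟩, neg_zero]
        rw [h1]
        exact I0.zero_mem
    · intro z _
      rw [zero_lie]
      exact I0.zero_mem
    · intro p q _ _ hp hq z hz
      rw [add_lie]
      exact I0.add_mem (hp z hz) (hq z hz)
    · intro r p _ hp z hz
      rw [smul_lie]
      exact I0.smul_mem _ (hp z hz)
    · intro p q _ _ hp hq z hz
      rw [lie_lie]
      exact I0.sub_mem (hp _ (hq z hz)) (hq _ (hp z hz))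
  let I : LieIdeal ℝ L := { I0 with lie_mem := fun {x m} hm => key x m hm }
  have mI' : ∀ z, z ∈ I ↔ ∀ y ∈ Y, ⁅z, y⁆ = 0 := fun z => Iff.rfl
  obtain ⟨i, hi⟩ := hne
  obtain ⟨j, hj⟩ : ∃ j, j ∉ S := by
    by_contra h1
    push Not at h1
    exact hun (Finset.eq_univ_iff_forall.2 h1)
  obtain ⟨-, x, hx0, hx⟩ := s.hS.root i
  obtain ⟨-, v, hv0, hv⟩ := s.hS.root j
  rcases LieAlgebra.IsSimple.eq_bot_or_eq_top I with h1 | h1
  · have h2 : x ∈ I := (mI' x).2 fun y hy => by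
      obtain ⟨k, hk, hy⟩ := hy
      exact hc i hi k hk x y (Or.inl hx) hy
    rw [h1] at h2
    exact hx0 ((LieSubmodule.mem_bot x).1 h2)
  · refine hv0 (center_zero s.h fun z => ?_)
    have h2 : z ∈ I := by
      rw [h1]
      trivial
    have h3 := (mI' z).1 h2 v ⟨j, hj, Or.inl hv⟩
    rw [← lie_skew, h3, neg_zero]

end SD

end Pool.Agent.Helper25.AE
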