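import Pool.Agent.Helper25.AE.Comp

/-!
# Extension of isometries to normed bilinear maps (layer AE of MP_0f6f3f_an, gluing)

`ext_abs`: an isometry `φ : V → V'` which conjugates the system of `m` into the system of `m'` extends to an isometry of the normed bilinear maps. `prop_abs`: this holds if `φ` intertwines operators which commute with the
systems and move a unit vector `v'` onto its orthogonal complement.
-/

set_option autoImplicit false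

namespace Pool.Agent.Helper25.AE

open scoped RealInnerProductSpace

variable {T T' V V' W W' U U' : Type} [NormedAddCommGroup T] [InnerProductSpace ℝ T] [NormedAddCommGroup T'] [InnerProductSpace ℝ T']
  [NormedAddCommGroup V] [InnerProductSpace ℝ V] [NormedAddCommGroup V'] [InnerProductSpace ℝ V'] [NormedAddCommGroup W] [InnerProductSpace ℝ W]
  [NormedAddCommGroup W'] [InnerProductSpace ℝ W'] [NormedAddCommGroup U] [InnerProductSpace ℝ U] [NormedAddCommGroup U'] [InnerProductSpace ℝ U']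

theorem prop_abs [FiniteDimensional ℝ T'] [FiniteDimensional ℝ V'] {J : T →ₗ[ℝ] V →ₗ[ℝ] V} {J' : T' →ₗ[ℝ] V' →ₗ[ℝ] V'} (hJ : IsSys J) (hJ' : IsSys J')
    (hd' : Module.finrank ℝ V' = Module.finrank ℝ T' + 1) (φ : V ≃ₗᵢ[ℝ] V') (P : (V →ₗ[ℝ] V) → (V' →ₗ[ℝ] V') → Prop)
    (h1 : ∀ D D', P D D' → ∀ x, φ (D x) = D' (φ x)) (h2 : ∀ D D', P D D' → ∀ t x, D (J t x) = J t (D x))
    (h3 : ∀ D D', P D D' → ∀ t x, D' (J' t x) = J' t (D' x)) {v' : V'} (hv' : ⟪v', v'⟫ = 1)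
    (h4 : ∀ y, ⟪v', y⟫ = 0 → ∃ D D', P D D' ∧ D' v' = y) (t : T) : ∃ t', ∀ x, φ (J t x) = J' t' (φ x) := by
  obtain ⟨k, k1, k2, k3, k4⟩ := hJ'.split hd' hv'
  obtain ⟨X, hX⟩ : ∃ X : V' →ₗ[ℝ] V', ∀ y, X y = φ (J t (φ.symm y)) :=
    ⟨φ.toLinearEquiv.toLinearMap ∘ₗ J t ∘ₗ φ.symm.toLinearEquiv.toLinearMap, fun y => rfl⟩
  have hXv : ⟪v', X v'⟫ = 0 := by
    rw [hX, ← φ.symm.inner_map_map, φ.symm_apply_apply]
    exact hJ.kap_v _ _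
  have hXv' : X v' = J' (k (X v')) v' := by
    have := k1 (X v')
    rw [hXv, zero_smul, zero_add] at this
    exact this
  refine ⟨k (X v'), fun x => ?_⟩
  have hc : ∀ y, X y = J' (k (X v')) y := by
    intro y
    obtain ⟨D, D', hP, hD⟩ := h4 (y - ⟪v', y⟫ • v') (by rw [inner_sub_right, inner_smul_right, hv', mul_one, sub_self])
    have e1 : y = ⟪v', y⟫ • v' + D' v' := by
      rw [hD]
      abel
    have e2 : X (D' v') = J' (k (X v')) (D' v') := by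
      have e3 : D' v' = φ (D (φ.symm v')) := by rw [h1 D D' hP, φ.apply_symm_apply]
      rw [e3, hX, φ.symm_apply_apply, ← h2 D D' hP, h1 D D' hP, h1 D D' hP, φ.apply_symm_apply]
      rw [← h3 D D' hP, ← hXv', hX]
    rw [e1, map_add, map_smul, map_add, map_smul, e2, ← hXv']
  have h5 := hc (φ x)
  rw [hX, φ.symm_apply_apply] at h5
  exact h5

/-- **Extension of an isometry.** -/
theorem ext_abs [FiniteDimensional ℝ V] [FiniteDimensional ℝ W] [FiniteDimensional ℝ U] [FiniteDimensional ℝ V'] [FiniteDimensional ℝ W']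
    [FiniteDimensional ℝ U'] {m : V →ₗ[ℝ] W →ₗ[ℝ] U} {m' : V' →ₗ[ℝ] W' →ₗ[ℝ] U'}
    (hW : Module.finrank ℝ V = Module.finrank ℝ W) (hW' : Module.finrank ℝ V' = Module.finrank ℝ W')
    {z0 : W} {z0' : W'} (hz : ⟪z0, z0⟫ = 1) (hz' : ⟪z0', z0'⟫ = 1) (C : V ≃ₗᵢ[ℝ] U) (C' : V' ≃ₗᵢ[ℝ] U')
    {J : (ℝ ∙ z0)ᗮ →ₗ[ℝ] V →ₗ[ℝ] V} {J' : (ℝ ∙ z0')ᗮ →ₗ[ℝ] V' →ₗ[ℝ] V'} (hJ : IsSys J) (hJ' : IsSys J') (hC : ∀ x, m x z0 = C x)
    (hC1 : ∀ x (t : (ℝ ∙ z0)ᗮ), m x t = C (J t x)) (hC' : ∀ x, m' x z0' = C' x) (hC1' : ∀ x (t : (ℝ ∙ z0')ᗮ), m' x t = C' (J' t x))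
    (φ : V ≃ₗᵢ[ℝ] V') (hφ : ∀ t, ∃ t', ∀ x, φ (J t x) = J' t' (φ x)) {v : V} (hv : ⟪v, v⟫ = 1) :
    ∃ (Ψ : W ≃ₗᵢ[ℝ] W') (Θ : U ≃ₗᵢ[ℝ] U'), ∀ x z, m' (φ x) (Ψ z) = Θ (m x z) := by
  have hp := finrank_perp hz
  have hp' := finrank_perp hz'
  have hV : Module.finrank ℝ V = Module.finrank ℝ V' := φ.toLinearEquiv.finrank_eq
  have hv' : ⟪φ v, φ v⟫ = 1 := by rw [φ.inner_map_map, hv]
  obtain ⟨k, k1, k2, k3, k4⟩ := hJ'.split (by rw [hW', hp']) hv'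
  obtain ⟨f, hf⟩ : ∃ f : (ℝ ∙ z0)ᗮ →ₗ[ℝ] (ℝ ∙ z0')ᗮ, ∀ t, f t = k (φ (J t v)) := ⟨k ∘ₗ φ.toLinearEquiv.toLinearMap ∘ₗ IsSys.kap J v, fun t => rfl⟩
  have hft : ∀ t x, φ (J t x) = J' (f t) (φ x) := by
    intro t x
    obtain ⟨t', ht'⟩ := hφ t
    rw [ht' x, hf, ht' v, k2]
  obtain ⟨ψ, hψ⟩ := exists_isoE (by omega) f (fun t => by
    rw [← hJ'.kap_inner hv', ← hft, φ.inner_map_map, hJ.kap_inner hv])
  obtain ⟨Ψ, hΨ, hΨ1⟩ := exists_ext (by rw [← hW, ← hW', hV]) hz hz' ψ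
  refine ⟨Ψ, (C.symm.trans φ).trans C', fun x z => ?_⟩
  obtain ⟨t, ht⟩ : ∃ t : (ℝ ∙ z0)ᗮ, (t : W) = z - ⟪z0, z⟫ • z0 := ⟨⟨z - ⟪z0, z⟫ • z0, by
    rw [Submodule.mem_orthogonal_singleton_iff_inner_right, inner_sub_right, inner_smul_right, hz, mul_one, sub_self]⟩, rfl⟩
  have h1 : z = ⟪z0, z⟫ • z0 + (t : W) := by
    rw [ht]
    abel
  generalize ⟪z0, z⟫ = a at h1
  subst h1
  rw [map_add, map_smul, hΨ, hΨ1, map_add, map_smul, map_add, map_smul, hC, hC1, hC', hC1', hψ, ← hft, map_add, map_smul]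
  simp only [LinearIsometryEquiv.trans_apply, LinearIsometryEquiv.symm_apply_apply]

end Pool.Agent.Helper25.AE
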