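import Pool.Agent.Helper77.TZ2.Rel

/-!
# Project MP_0f6f3f_an, layer AE (algebraic end), block AE-E: the local data of a root space without multiples

`triple`: if `2 α` is not a restricted root, the triple product `[[x, θ y], z]` of the root space of `α` is determined by the Killing form. `edge_one`, `edge_one'`: if the root space of `φ` has dimension at most one, the
operators `[x, θ y]`, `x, y` of weight `φ`, act on the weight vectors of any weight `ψ` by scalars, and the operators `[v, θ w]`, `v, w` of weight `ψ`, act on the root space of `φ` by scalars; the scalars are determined by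
the Killing form and the scalar products of the weights.
-/

set_option autoImplicit false

namespace Pool.Agent.Helper25.AE

open Pool.Agent.Helper96.SA Pool.Agent.Helper96.TO Pool.Agent.Helper69.SLN Pool.Agent.Helper77.TZ2

variable {L : Type} [LieRing L] [LieAlgebra ℝ L] {N : ℕ} {θ : L ≃ₗ⁅ℝ⁆ L} {b : Module.Basis (Fin N) ℝ L} {A : Submodule ℝ L}
  {τ : Module.Dual ℝ A ≃ₗ[ℝ] A}

theorem kf_theta_symm (h : CartanBasis θ b) (x y : L) : killingForm ℝ L x (θ y) = killingForm ℝ L y (θ x) := by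
  rw [← kf_theta θ x (θ y), h.invol, kf_comm]

section tau

variable (hτ : ∀ (φ : Module.Dual ℝ A) (a : A), killingForm ℝ L (τ φ : L) (a : L) = φ a)

include hτ in
/-- `[[x, θ y], z] + [[y, θ x], z] = 2 κ(x, θ y) ψ(τ φ) z`, `x, y` of weight `φ`, `z` of weight `ψ`. -/
theorem act_add (h : CartanBasis θ b) (hA : MaxFlat θ A) {φ ψ : Module.Dual ℝ A} {x y z : L} (hx : Wv A φ x) (hy : Wv A φ y)
    (hz : Wv A ψ z) : ⁅⁅x, θ y⁆, z⁆ + ⁅⁅y, θ x⁆, z⁆ = (2 * killingForm ℝ L x (θ y) * ψ (τ φ)) • z := by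
  rw [← add_lie, lie_theta_add hτ h hA hx hy, smul_lie, hz (τ φ), smul_smul]

include hτ in
/-- **The triple product of a root space without multiples.** -/
theorem triple (h : CartanBasis θ b) (hA : MaxFlat θ A) {α : Module.Dual ℝ A} (h0 : α + α ≠ 0) (h2 : α + α ∉ rootsL A)
    {x y z : L} (hx : Wv A α x) (hy : Wv A α y) (hz : Wv A α z) :
    ⁅⁅x, θ y⁆, z⁆ = α (τ α) • (killingForm ℝ L x (θ y) • z + killingForm ℝ L y (θ z) • x - killingForm ℝ L x (θ z) • y) := by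
  have sw : ∀ {x y z : L}, Wv A α x → Wv A α z → ⁅⁅x, θ y⁆, z⁆ = ⁅⁅z, θ y⁆, x⁆ := by
    intro x y z hx hz
    have e0 : ⁅x, z⁆ = 0 := (hx.lie hz).eq_zero h2 h0
    rw [lie_lie, e0, lie_zero, sub_zero, ← lie_skew, ← neg_lie, lie_skew]
  have e1 := act_add hτ h hA hx hy hz
  have e2 := act_add hτ h hA hz hx hy
  have e3 := act_add hτ h hA hy hz hx
  have s1 : ⁅⁅y, θ x⁆, z⁆ = ⁅⁅z, θ x⁆, y⁆ := sw hy hz
  have s2 : ⁅⁅x, θ z⁆, y⁆ = ⁅⁅y, θ z⁆, x⁆ := sw hx hy
  have s3 : ⁅⁅z, θ y⁆, x⁆ = ⁅⁅x, θ y⁆, z⁆ := sw hz hx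
  rw [s1] at e1
  rw [s2] at e2
  rw [s3] at e3
  have e4 : (2 : ℝ) • ⁅⁅x, θ y⁆, z⁆ = (2 * killingForm ℝ L x (θ y) * α (τ α)) • z - (2 * killingForm ℝ L z (θ x) * α (τ α)) • y +
      (2 * killingForm ℝ L y (θ z) * α (τ α)) • x := by
    rw [← e1, ← e2, ← e3, two_smul]
    abel
  refine smul_right_injective L (two_ne_zero' ℝ) ?_
  change (2 : ℝ) • ⁅⁅x, θ y⁆, z⁆ = (2 : ℝ) • _
  rw [e4, kf_theta_symm h z x]
  module

include hτ in
/-- The action of a root space of dimension one. -/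
theorem edge_one (h : CartanBasis θ b) (hA : MaxFlat θ A) {φ ψ : Module.Dual ℝ A}
    (h1 : ∀ y z : L, Wv A φ y → Wv A φ z → y ≠ 0 → ∃ c : ℝ, z = c • y)
    {x y v : L} (hx : Wv A φ x) (hy : Wv A φ y) (hv : Wv A ψ v) :
    ⁅⁅x, θ y⁆, v⁆ = (killingForm ℝ L x (θ y) * ψ (τ φ)) • v := by
  by_cases hy0 : y = 0
  · rw [hy0, map_zero, lie_zero, zero_lie, map_zero, zero_mul, zero_smul]
  obtain ⟨c, rfl⟩ := h1 y x hy hx hy0
  rw [smul_lie, smul_lie, lie_theta_self hτ h hA hy, smul_lie, hv (τ φ), map_smul, LinearMap.smul_apply, smul_eq_mul, smul_smul, smul_smul]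

include hτ in
/-- The action on a root space of dimension one. -/
theorem edge_one' (h : CartanBasis θ b) (hA : MaxFlat θ A) {φ ψ : Module.Dual ℝ A}
    (h1 : ∀ y z : L, Wv A φ y → Wv A φ z → y ≠ 0 → ∃ c : ℝ, z = c • y)
    {x v w : L} (hx : Wv A φ x) (hv : Wv A ψ v) (hw : Wv A ψ w) :
    ⁅⁅v, θ w⁆, x⁆ = (killingForm ℝ L v (θ w) * φ (τ ψ)) • x := by
  by_cases hx0 : x = 0
  · rw [hx0, lie_zero, smul_zero]
  obtain ⟨M, hM⟩ : ∃ M : L, M = ⁅v, θ w⁆ - ⁅w, θ v⁆ := ⟨_, rfl⟩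
  have hθM : θ M = M := by
    rw [hM, map_sub, LieEquiv.map_lie, LieEquiv.map_lie, h.invol, h.invol, ← lie_skew, ← lie_skew (θ w) v]
    abel
  have h0 : ∀ v w : L, Wv A ψ v → Wv A ψ w → Wv A 0 ⁅v, θ w⁆ := by
    intro v w hv hw
    have := hv.lie (hw.theta hA)
    rwa [add_neg_cancel] at this
  have hMx : Wv A φ ⁅M, x⁆ := by
    have e1 := (h0 v w hv hw).lie hx
    have e2 := (h0 w v hw hv).lie hx
    rw [zero_add] at e1 e2
    intro a
    rw [hM, sub_lie, _root_.lie_sub, e1 a, e2 a, smul_sub]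
  obtain ⟨c, hc⟩ := h1 x ⁅M, x⁆ hx hMx hx0
  have e1 : killingForm ℝ L ⁅M, x⁆ (θ x) = -killingForm ℝ L ⁅M, x⁆ (θ x) := by
    have e2 : killingForm ℝ L ⁅M, x⁆ (θ x) = -killingForm ℝ L x ⁅M, θ x⁆ := by
      rw [← lie_skew, map_neg, LinearMap.neg_apply, kf_inv]
    have e3 : ⁅M, θ x⁆ = θ ⁅M, x⁆ := by rw [LieEquiv.map_lie, hθM]
    rw [e3, kf_theta_symm h x] at e2
    exact e2
  rw [hc, map_smul, LinearMap.smul_apply, smul_eq_mul] at e1
  have hp := pos h hx0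
  have hc0 : c = 0 := by
    have e5 : c * killingForm ℝ L x (θ x) = 0 := by linarith
    rcases mul_eq_zero.1 e5 with h5 | h5
    · exact h5
    · rw [h5, neg_zero] at hp
      exact absurd hp (lt_irrefl _)
  rw [hc0, zero_smul, hM, sub_lie, sub_eq_zero] at hc
  have e6 := act_add hτ h hA hv hw hx
  rw [← hc, ← two_smul ℝ, mul_assoc, mul_smul] at e6
  exact smul_right_injective L (two_ne_zero' ℝ) e6

end tau

end Pool.Agent.Helper25.AE
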