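import Pool.Agent.Helper25.AE.Tens
import Pool.Agent.Helper25.AE.Ext
import Pool.Agent.Helper95.AE.Wrap
import Pool.Agent.Helper77.ST.ARefl

/-!
# Project MP_0f6f3f_an, layer AE (algebraic end): edges of type A_2

`A2E A τ α β`: an edge of type `A_2`. The root spaces of `α`, `β`, `α + β` have the same dimension (`A2E.finrank_ab`, `A2E.finrank_a`), and `2 α` is not a root. `a2_edge`: two such edges with the same multiplicity have
isometric tensors.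
-/

set_option autoImplicit false

namespace Pool.Agent.Helper25.AE

open Pool.Agent.Helper96.SA Pool.Agent.Helper96.TO Pool.Agent.Helper69.SLN Pool.Agent.Helper77.TZ2 Pool.Agent.Helper77.LA
  Pool.Agent.Helper77.AE Pool.Agent.Helper77.ST Pool.Agent.Helper95.AE

open scoped RealInnerProductSpace

variable {L L' : Type} [LieRing L] [LieAlgebra ℝ L] [LieRing L'] [LieAlgebra ℝ L'] {N N' : ℕ} {θ : L ≃ₗ⁅ℝ⁆ L} {θ' : L' ≃ₗ⁅ℝ⁆ L'}
  {b : Module.Basis (Fin N) ℝ L} {b' : Module.Basis (Fin N') ℝ L'} {A : Submodule ℝ L} {A' : Submodule ℝ L'}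
  {τ : Module.Dual ℝ A ≃ₗ[ℝ] A} {τ' : Module.Dual ℝ A' ≃ₗ[ℝ] A'}

/-- Edges of type `A_2`. -/
structure A2E (A : Submodule ℝ L) (τ : Module.Dual ℝ A ≃ₗ[ℝ] A) (α β : Module.Dual ℝ A) : Prop where
  ra : α ∈ rootsL A
  rb : β ∈ rootsL A
  d0 : α - β ≠ 0
  d1 : α - β ∉ rootsL A
  ab : 2 * β (τ α) = -α (τ α)
  ba : β (τ β) = α (τ α)

theorem A2E.symm (hτ : ∀ (φ : Module.Dual ℝ A) (a : A), killingForm ℝ L (τ φ : L) (a : L) = φ a) (hA : MaxFlat θ A)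
    {α β : Module.Dual ℝ A} (he : A2E A τ α β) : A2E A τ β α where
  ra := he.rb
  rb := he.ra
  d0 h := he.d0 (by rw [← neg_sub, h, neg_zero])
  d1 h := he.d1 (by
    have := neg_mem_rootsL hA h
    rwa [neg_sub] at this)
  ab := by rw [tau_symm hτ, he.ab, he.ba]
  ba := he.ba.symm

section tau

variable (hτ : ∀ (φ : Module.Dual ℝ A) (a : A), killingForm ℝ L (τ φ : L) (a : L) = φ a)

include hτ

theorem A2E.nu_pos (h : CartanBasis θ b) (hA : MaxFlat θ A) {α β : Module.Dual ℝ A} (he : A2E A τ α β) : 0 < α (τ α) :=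
  tau_pos hτ h hA he.ra.1

/-- `α + 2 β` is not a root. -/
theorem A2E.not_root (h : CartanBasis θ b) (hA : MaxFlat θ A) {α β : Module.Dual ℝ A} (he : A2E A τ α β) : α + β + β ∉ rootsL A := by
  intro h1
  obtain ⟨n, h2, h3⟩ := refl h hA hτ h1 he.rb
  have hp := he.nu_pos hτ h hA
  rw [LinearMap.add_apply, LinearMap.add_apply, tau_symm hτ α β, he.ba] at h2
  have h4 : (n : ℝ) = 3 := by
    have h5 := he.ab
    have h6 : (n : ℝ) * α (τ α) = 3 * α (τ α) := by linarith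
    exact mul_right_cancel₀ hp.ne' h6
  rw [h4] at h3
  apply he.d1
  have h5 : α + β + β - (3 : ℝ) • β = α - β := by module
  rwa [h5] at h3

/-- `2 α` is not a root. -/
theorem A2E.not_two (h : CartanBasis θ b) (hA : MaxFlat θ A) {α β : Module.Dual ℝ A} (he : A2E A τ α β) : α + α ∉ rootsL A := by
  intro h1
  obtain ⟨n, h2, -⟩ := refl h hA hτ he.rb h1
  have hp := he.nu_pos hτ h hA
  rw [map_add, map_add, LinearMap.add_apply, map_add] at h2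
  have h4 : (2 * n : ℤ) = -1 := by
    have h5 := he.ab
    have h6 : (2 * (n : ℝ)) * α (τ α) = -1 * α (τ α) := by linarith
    exact_mod_cast mul_right_cancel₀ hp.ne' h6
  omega

/-- `ad e` is injective on the root space of `φ`, `e` of weight `χ`, if `(φ, χ) < 0` and `χ - φ` is not a root. -/
theorem ad_inj (h : CartanBasis θ b) (hA : MaxFlat θ A) {χ φ : Module.Dual ℝ A} (h0 : χ - φ ≠ 0) (h1 : χ - φ ∉ rootsL A) (hn : φ (τ χ) < 0)
    {e x : L} (he : Wv A χ e) (he0 : e ≠ 0) (hx : Wv A φ x) (hz : ⁅e, x⁆ = 0) : x = 0 := by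
  by_contra hx0
  have h2 := ip_lie hτ h hA (ν := 1) one_pos h0 h1 (c := -φ (τ χ)) (by ring) he hx
  have h3 := ip_pos h one_pos he0
  have h4 := ip_pos h one_pos hx0
  rw [hz, ip, map_zero, LinearMap.zero_apply, mul_zero, neg_zero] at h2
  have h5 : 0 < -φ (τ χ) * ip θ 1 e e * ip θ 1 x x := mul_pos (mul_pos (by linarith) h3) h4
  linarith

/-- Comparison of multiplicities. -/
theorem finrank_le_ad (h : CartanBasis θ b) (hA : MaxFlat θ A) {χ φ ψ : Module.Dual ℝ A} (h0 : χ - φ ≠ 0) (h1 : χ - φ ∉ rootsL A)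
    (hn : φ (τ χ) < 0) (hψ : χ + φ = ψ) (hr : χ ∈ rootsL A) : Module.finrank ℝ (rsp A φ) ≤ Module.finrank ℝ (rsp A ψ) := by
  have hL : Module.Finite ℝ L := Module.Finite.of_basis b
  obtain ⟨-, e, he0, he⟩ := hr
  refine LinearMap.finrank_le_finrank_of_injective (f := brk A χ φ ψ hψ ⟨e, he⟩) ?_
  rw [injective_iff_map_eq_zero]
  intro x hx
  have hx' : ⁅e, (x : L)⁆ = 0 := congrArg Subtype.val hx
  exact Subtype.ext (ad_inj hτ h hA h0 h1 hn he he0 x.2 hx')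

theorem A2E.finrank_ab (h : CartanBasis θ b) (hA : MaxFlat θ A) {α β : Module.Dual ℝ A} (he : A2E A τ α β) :
    Module.finrank ℝ (rsp A α) = Module.finrank ℝ (rsp A (α + β)) := by
  have hp := he.nu_pos hτ h hA
  have hab := he.ab
  have hba := he.ba
  have hs := tau_symm hτ α β
  refine le_antisymm (finrank_le_ad hτ h hA (χ := β) ?_ ?_ ?_ (add_comm β α) he.rb) (finrank_le_ad hτ h hA (χ := -β) ?_ ?_ ?_ ?_ ?_)
  · intro h1
    exact he.d0 (by rw [← neg_sub, h1, neg_zero])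
  · intro h1
    have := neg_mem_rootsL hA h1
    rw [neg_sub] at this
    exact he.d1 this
  · rw [hs]
    linarith
  · intro h1
    have h2 : (α + β + β) (τ α) = 0 := by
      rw [show α + β + β = -(-β - (α + β)) by abel, h1, neg_zero]
      rfl
    rw [LinearMap.add_apply, LinearMap.add_apply] at h2
    have h3 : (α + β + β) (τ β) = 0 := by
      rw [show α + β + β = -(-β - (α + β)) by abel, h1, neg_zero]
      rfl
    rw [LinearMap.add_apply, LinearMap.add_apply, hs] at h3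
    linarith
  · intro h1
    have h2 := neg_mem_rootsL hA h1
    rw [show -(-β - (α + β)) = α + β + β by abel] at h2
    exact he.not_root hτ h hA h2
  · rw [map_neg, map_neg, LinearMap.add_apply, hs]
    linarith
  · abel
  · exact neg_mem_rootsL hA he.rb

theorem A2E.finrank_a (h : CartanBasis θ b) (hA : MaxFlat θ A) {α β : Module.Dual ℝ A} (he : A2E A τ α β) :
    Module.finrank ℝ (rsp A α) = Module.finrank ℝ (rsp A β) := by
  rw [he.finrank_ab hτ h hA, (he.symm hτ hA).finrank_ab hτ h hA, add_comm]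

/-- The normed bilinear map of an edge. -/
theorem A2E.norm_brk (h : CartanBasis θ b) (hA : MaxFlat θ A) {α β : Module.Dual ℝ A} (he : A2E A τ α β) {ν : ℝ} (hν : 0 < ν) (h2 : α (τ α) = 2 * ν)
    {x z : L} (hx : Wv A α x) (hz : Wv A β z) : ip θ ν ⁅x, z⁆ ⁅x, z⁆ = ip θ ν x x * ip θ ν z z := by
  rw [ip_lie hτ h hA hν he.d0 he.d1 (c := 1) (by
    have := he.ab
    linarith) hx hz, one_mul]

end tau

/-- From an isometry of root spaces to a linear map of the Lie algebras. -/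
theorem isoOn_of_linear {ν ν' : ℝ} {φ : Module.Dual ℝ A} {φ' : Module.Dual ℝ A'} (f : rsp A φ →ₗ[ℝ] rsp A' φ')
    (hs : Function.Surjective f) (hi : ∀ x y : rsp A φ, ip θ' ν' (f x : L') (f y : L') = ip θ ν (x : L) (y : L)) :
    ∃ F : L →ₗ[ℝ] L', IsoOn θ θ' ν ν' φ φ' F ∧ ∀ x : rsp A φ, F (x : L) = f x := by
  obtain ⟨F, hF⟩ := LinearMap.exists_extend ((rsp A' φ').subtype ∘ₗ f)
  have hF' : ∀ x : rsp A φ, F (x : L) = f x := fun x => LinearMap.congr_fun hF x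
  refine ⟨F, ⟨fun x hx => ?_, fun y hy => ?_, fun x y hx hy => ?_⟩, hF'⟩
  · have h1 := hF' ⟨x, hx⟩
    change F x = _ at h1
    rw [h1]
    exact (f ⟨x, hx⟩).2
  · obtain ⟨x, hx⟩ := hs ⟨y, hy⟩
    exact ⟨x, x.2, by rw [hF', hx]⟩
  · have h1 := hF' ⟨x, hx⟩
    have h2 := hF' ⟨y, hy⟩
    change F x = _ at h1
    change F y = _ at h2
    have h3 := hi ⟨x, hx⟩ ⟨y, hy⟩
    rw [ip, ip, neg_inj] at h3
    rw [h1, h2]
    exact h3

/-- From a linear map to an isometry of root spaces. -/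
theorem linear_of_isoOn (h : CartanBasis θ b) {ν ν' : ℝ} (hν : ν ≠ 0) {φ : Module.Dual ℝ A} {φ' : Module.Dual ℝ A'} {F : L →ₗ[ℝ] L'}
    (hF : IsoOn θ θ' ν ν' φ φ' F) : ∃ f : rsp A φ ≃ₗ[ℝ] rsp A' φ', (∀ x : rsp A φ, (f x : L') = F x) ∧
      ∀ x y : rsp A φ, ip θ' ν' (f x : L') (f y : L') = ip θ ν (x : L) (y : L) := by
  let f : rsp A φ →ₗ[ℝ] rsp A' φ' := (F ∘ₗ (rsp A φ).subtype).codRestrict (rsp A' φ') (fun x => hF.mem x x.2)
  have hf : ∀ x : rsp A φ, (f x : L') = F x := fun x => rfl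
  have h1 : Function.Injective f := by
    rw [injective_iff_map_eq_zero]
    intro x hx
    have h2 : F x = 0 := congrArg Subtype.val hx
    exact Subtype.ext (hF.inj h hν x x.2 h2)
  have h2 : Function.Surjective f := by
    intro y
    obtain ⟨x, hx, hxy⟩ := hF.onto y y.2
    exact ⟨⟨x, hx⟩, Subtype.ext hxy⟩
  have hb : Function.Bijective f := ⟨h1, h2⟩
  refine ⟨LinearEquiv.ofBijective f hb, fun x => hf x, fun x y => ?_⟩
  change ip θ' ν' (F x) (F y) = _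
  rw [ip, ip, hF.iso x y x.2 y.2]

theorem IsoOn.scale {ν ν' : ℝ} {φ : Module.Dual ℝ A} {φ' : Module.Dual ℝ A'} {F : L →ₗ[ℝ] L'} (hF : IsoOn θ θ' ν ν' φ φ' F) {μ μ' c : ℝ}
    (h1 : μ = c * ν) (h2 : μ' = c * ν') : IsoOn θ θ' μ μ' φ φ' F where
  mem := hF.mem
  onto := hF.onto
  iso x y hx hy := by rw [h1, h2, mul_assoc, mul_assoc, hF.iso x y hx hy]

/-- `TC` from the inner products. -/
theorem tc_of_ip {ν ν' μ μ' c : ℝ} {φ ψ : Module.Dual ℝ A} {F G : L →ₗ[ℝ] L'} (h1 : μ = c * ν) (h2 : μ' = c * ν')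
    (hi : ∀ x y v w, Wv A φ x → Wv A φ y → Wv A ψ v → Wv A ψ w → ip θ' ν' ⁅F x, G v⁆ ⁅F y, G w⁆ = ip θ ν ⁅x, v⁆ ⁅y, w⁆) :
    TC θ θ' A μ μ' φ ψ F G := by
  intro x y v w hx hy hv hw
  have h3 := hi x y v w hx hy hv hw
  rw [ip, ip, neg_inj] at h3
  rw [h1, h2, tn, tn, mul_assoc, mul_assoc, h3]

/-- **Uniqueness of the edges of type `A_2`.** -/
theorem a2_edge (h : CartanBasis θ b) (h' : CartanBasis θ' b') (hA : MaxFlat θ A) (hA' : MaxFlat θ' A')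
    (hτ : ∀ (φ : Module.Dual ℝ A) (a : A), killingForm ℝ L (τ φ : L) (a : L) = φ a)
    (hτ' : ∀ (φ : Module.Dual ℝ A') (a : A'), killingForm ℝ L' (τ' φ : L') (a : L') = φ a) {α β : Module.Dual ℝ A} {α' β' : Module.Dual ℝ A'}
    (he : A2E A τ α β) (he' : A2E A' τ' α' β') (hd : Module.finrank ℝ (rsp A α) = Module.finrank ℝ (rsp A' α')) :
    ∃ F G : L →ₗ[ℝ] L', IsoOn θ θ' (α (τ α)) (α' (τ' α')) α α' F ∧ IsoOn θ θ' (β (τ β)) (β' (τ' β')) β β' G ∧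
      TC θ θ' A (β (τ β)) (β' (τ' β')) α β F G := by
  have hL : Module.Finite ℝ L := Module.Finite.of_basis b
  have hL' : Module.Finite ℝ L' := Module.Finite.of_basis b'
  have hp := he.nu_pos hτ h hA
  have hp' := he'.nu_pos hτ' h' hA'
  obtain ⟨ν, hν2⟩ : ∃ ν : ℝ, α (τ α) = 2 * ν := ⟨α (τ α) / 2, by ring⟩
  obtain ⟨ν', hν2'⟩ : ∃ ν' : ℝ, α' (τ' α') = 2 * ν' := ⟨α' (τ' α') / 2, by ring⟩
  have hν : 0 < ν := by linarith
  have hν' : 0 < ν' := by linarith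
  let i1 := nacg h hν
  let i2 := ips h hν
  let i3 := nacg h' hν'
  let i4 := ips h' hν'
  obtain ⟨-, x0, hx0, hxw⟩ := he.ra
  obtain ⟨-, z0, hz0, hzw⟩ := he.rb
  have hda : 0 < Module.finrank ℝ (rsp A α) := by
    have : Nontrivial (rsp A α) := ⟨⟨⟨x0, hxw⟩, 0, fun h1 => hx0 (congrArg Subtype.val h1)⟩⟩
    exact Module.finrank_pos
  have hw := he.finrank_a hτ h hA
  have hu := he.finrank_ab hτ h hA
  have hw' := he'.finrank_a hτ' h' hA'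
  have hu' := he'.finrank_ab hτ' h' hA'
  obtain ⟨x1, hx1, -⟩ := exists_perp (T := rsp A α) (k := 0) ![] hda
  obtain ⟨x1', hx1', -⟩ := exists_perp (T := rsp A' α') (k := 0) ![] (by rw [← hd]; exact hda)
  obtain ⟨z1, hz1, -⟩ := exists_perp (T := rsp A β) (k := 0) ![] (by rw [← hw]; exact hda)
  obtain ⟨z1', hz1', -⟩ := exists_perp (T := rsp A' β') (k := 0) ![] (by rw [← hw', ← hd]; exact hda)
  obtain ⟨φ, Ψ, Θ, -, -, hm⟩ := comp_unique (m := brk A α β (α + β) rfl) (m' := brk A' α' β' (α' + β') rfl)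
    (fun x z => he.norm_brk hτ h hA hν hν2 x.2 z.2) (fun x z => he'.norm_brk hτ' h' hA' hν' hν2' x.2 z.2) hw hu hw' hu' hd hx1 hx1' hz1 hz1'
  obtain ⟨F, hF, hFφ⟩ := isoOn_of_linear (θ := θ) (θ' := θ') (ν := ν) (ν' := ν') φ.toLinearEquiv.toLinearMap φ.surjective (fun x y => φ.inner_map_map x y)
  obtain ⟨G, hG, hGΨ⟩ := isoOn_of_linear (θ := θ) (θ' := θ') (ν := ν) (ν' := ν') Ψ.toLinearEquiv.toLinearMap Ψ.surjective (fun x y => Ψ.inner_map_map x y)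
  refine ⟨F, G, hF.scale hν2 hν2', hG.scale (by rw [he.ba, hν2]) (by rw [he'.ba, hν2']), ?_⟩
  refine tc_of_ip (by rw [he.ba, hν2]) (by rw [he'.ba, hν2']) fun x y v w hx hy hv hw => ?_
  have e1 : F x = φ ⟨x, hx⟩ := hFφ ⟨x, hx⟩
  have e2 : F y = φ ⟨y, hy⟩ := hFφ ⟨y, hy⟩
  have e3 : G v = Ψ ⟨v, hv⟩ := hGΨ ⟨v, hv⟩
  have e4 : G w = Ψ ⟨w, hw⟩ := hGΨ ⟨w, hw⟩
  rw [e1, e2, e3, e4]
  have h1 := hm ⟨x, hx⟩ ⟨v, hv⟩
  have h2 := hm ⟨y, hy⟩ ⟨w, hw⟩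
  have h3 := Θ.inner_map_map (brk A α β (α + β) rfl ⟨x, hx⟩ ⟨v, hv⟩) (brk A α β (α + β) rfl ⟨y, hy⟩ ⟨w, hw⟩)
  rw [← h1, ← h2] at h3
  exact h3

/-- `F` intertwines the operators `[v, θ w]`, `v, w` of weight `δ`. -/
theorem off_of_TC (h' : CartanBasis θ' b') (hA : MaxFlat θ A) (hA' : MaxFlat θ' A') {β δ : Module.Dual ℝ A} {β' δ' : Module.Dual ℝ A'} {ν ν' μ μ' : ℝ}
    (hν' : ν' ≠ 0) (h0 : β - δ ≠ 0) (h1 : β - δ ∉ rootsL A) (h0' : β' - δ' ≠ 0) (h1' : β' - δ' ∉ rootsL A') {F G : L →ₗ[ℝ] L'}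
    (hF : IsoOn θ θ' ν ν' β β' F) (hG : IsoOn θ θ' μ μ' δ δ' G) (hT : TC θ θ' A ν ν' δ β G F) {v w x : L} (hv : Wv A δ v) (hw : Wv A δ w)
    (hx : Wv A β x) : F ⁅⁅v, θ w⁆, x⁆ = ⁅⁅G v, θ' (G w)⁆, F x⁆ := by
  have w0 : Wv A β ⁅⁅v, θ w⁆, x⁆ := by
    have e1 := (hv.lie (hw.theta hA)).lie hx
    rwa [add_neg_cancel, zero_add] at e1
  have w1 : Wv A' β' ⁅⁅G v, θ' (G w)⁆, F x⁆ := by
    have e1 := ((hG.mem v hv).lie ((hG.mem w hw).theta hA')).lie (hF.mem x hx)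
    rwa [add_neg_cancel, zero_add] at e1
  refine eq_of_kf h' (hF.mem _ w0) w1 fun y hy => ?_
  obtain ⟨y, hy', rfl⟩ := hF.onto y hy
  apply mul_left_cancel₀ hν'
  rw [hF.iso _ _ w0 hy']
  have e1 : ⁅θ w, x⁆ = 0 := by
    have h4 := (hw.theta hA).lie hx
    rw [neg_add_eq_sub] at h4
    exact h4.eq_zero h1 h0
  have e2 : ⁅θ' (G w), F x⁆ = 0 := by
    have h4 := ((hG.mem w hw).theta hA').lie (hF.mem x hx)
    rw [neg_add_eq_sub] at h4
    exact h4.eq_zero h1' h0'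
  rw [tn_off e1, tn_off e2]
  exact (hT v w x y hv hw hx hy').symm

/-- Two injective linear maps with orthogonal ranges. -/
theorem two_mul_finrank_le {W U : Type} [NormedAddCommGroup W] [InnerProductSpace ℝ W] [FiniteDimensional ℝ W] [NormedAddCommGroup U]
    [InnerProductSpace ℝ U] [FiniteDimensional ℝ U] {f g : W →ₗ[ℝ] U} (hf : ∀ a, f a = 0 → a = 0) (hg : ∀ a, g a = 0 → a = 0)
    (ho : ∀ a c, ⟪f a, g c⟫ = 0) : 2 * Module.finrank ℝ W ≤ Module.finrank ℝ U := by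
  have h1 : Function.Injective (f.coprod g) := by
    rw [injective_iff_map_eq_zero]
    rintro ⟨a, c⟩ h0
    rw [LinearMap.coprod_apply] at h0
    have h2 : ⟪f a, f a⟫ = 0 := by
      have h3 : f a = -g c := eq_neg_of_add_eq_zero_left h0
      nth_rewrite 2 [h3]
      rw [inner_neg_right, ho, neg_zero]
    have h3 := hf a (inner_self_eq_zero.1 h2)
    have h4 : g c = 0 := by
      rw [h3, map_zero, zero_add] at h0
      exact h0
    rw [h3, hg c h4]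
    rfl
  have h2 := LinearMap.finrank_le_finrank_of_injective h1
  rw [Module.finrank_prod] at h2
  omega

/-- **Extension along an edge of type `A_2`.** `F` is given on `β` and is compatible with `G` on another neighbour `δ` of `β`. -/
theorem prop_L (h : CartanBasis θ b) (h' : CartanBasis θ' b') (hA : MaxFlat θ A) (hA' : MaxFlat θ' A')
    (hτ : ∀ (φ : Module.Dual ℝ A) (a : A), killingForm ℝ L (τ φ : L) (a : L) = φ a)
    (hτ' : ∀ (φ : Module.Dual ℝ A') (a : A'), killingForm ℝ L' (τ' φ : L') (a : L') = φ a) {β γ δ : Module.Dual ℝ A} {β' γ' δ' : Module.Dual ℝ A'}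
    (he : A2E A τ β γ) (he' : A2E A' τ' β' γ')
    (hc : ∀ z v, Wv A γ z → Wv A δ v → ⁅v, z⁆ = 0 ∧ ⁅v, θ z⁆ = 0) (hc' : ∀ z v, Wv A' γ' z → Wv A' δ' v → ⁅v, z⁆ = 0 ∧ ⁅v, θ' z⁆ = 0)
    (h0 : β - δ ≠ 0) (h1 : β - δ ∉ rootsL A) (h0' : β' - δ' ≠ 0) (h1' : β' - δ' ∉ rootsL A') (hn' : δ' (τ' β') < 0)
    (hdim : Module.finrank ℝ (rsp A' (β' + δ')) < 2 * Module.finrank ℝ (rsp A' δ')) {μ μ' : ℝ} {F G : L →ₗ[ℝ] L'}
    (hF : IsoOn θ θ' (β (τ β)) (β' (τ' β')) β β' F) (hG : IsoOn θ θ' μ μ' δ δ' G) (hT : TC θ θ' A (β (τ β)) (β' (τ' β')) δ β G F) :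
    ∃ H : L →ₗ[ℝ] L', IsoOn θ θ' (γ (τ γ)) (γ' (τ' γ')) γ γ' H ∧ TC θ θ' A (γ (τ γ)) (γ' (τ' γ')) β γ F H := by
  have hL : Module.Finite ℝ L := Module.Finite.of_basis b
  have hL' : Module.Finite ℝ L' := Module.Finite.of_basis b'
  have hp := he.nu_pos hτ h hA
  have hp' := he'.nu_pos hτ' h' hA'
  obtain ⟨ν, hν2⟩ : ∃ ν : ℝ, β (τ β) = 2 * ν := ⟨β (τ β) / 2, by ring⟩
  obtain ⟨ν', hν2'⟩ : ∃ ν' : ℝ, β' (τ' β') = 2 * ν' := ⟨β' (τ' β') / 2, by ring⟩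
  have hν : 0 < ν := by linarith
  have hν' : 0 < ν' := by linarith
  let i1 := nacg h hν
  let i2 := ips h hν
  let i3 := nacg h' hν'
  let i4 := ips h' hν'
  obtain ⟨-, x0, hx0, hxw⟩ := he.ra
  have hda : 0 < Module.finrank ℝ (rsp A β) := by
    have : Nontrivial (rsp A β) := ⟨⟨⟨x0, hxw⟩, 0, fun h1 => hx0 (congrArg Subtype.val h1)⟩⟩
    exact Module.finrank_pos
  have hw := he.finrank_a hτ h hA
  have hu := he.finrank_ab hτ h hA
  have hw' := he'.finrank_a hτ' h' hA'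
  have hu' := he'.finrank_ab hτ' h' hA'
  -- the isometry
  have hF2 := hF.scale (μ := ν) (μ' := ν') (c := 1 / 2) (by rw [hν2]; ring) (by rw [hν2']; ring)
  obtain ⟨f, hf, hfi⟩ := linear_of_isoOn h hν.ne' hF2
  obtain ⟨φ, hφ⟩ : ∃ φ : rsp A β ≃ₗᵢ[ℝ] rsp A' β', ∀ x, (φ x : L') = F x := ⟨f.isometryOfInner (fun x y => hfi x y), hf⟩
  have hd : Module.finrank ℝ (rsp A β) = Module.finrank ℝ (rsp A' β') := φ.toLinearEquiv.finrank_eq
  obtain ⟨x1', hx1', -⟩ := exists_perp (T := rsp A' β') (k := 0) ![] (by rw [← hd]; exact hda)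
  obtain ⟨x1, hx1, -⟩ := exists_perp (T := rsp A β) (k := 0) ![] hda
  obtain ⟨z1, hz1, -⟩ := exists_perp (T := rsp A γ) (k := 0) ![] (by rw [← hw]; exact hda)
  obtain ⟨z1', hz1', -⟩ := exists_perp (T := rsp A' γ') (k := 0) ![] (by rw [← hw', ← hd]; exact hda)
  -- the systems
  obtain ⟨C, J, hJ, hC, hC1⟩ := exists_sys (m := brk A β γ (β + γ) rfl) (fun x z => he.norm_brk hτ h hA hν hν2 x.2 z.2) hu hz1
  obtain ⟨C', J', hJ', hC', hC1'⟩ := exists_sys (m := brk A' β' γ' (β' + γ') rfl) (fun x z => he'.norm_brk hτ' h' hA' hν' hν2' x.2 z.2) hu' hz1'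
  have hJx : ∀ t x, (J t x : L) = ⁅⁅((t : rsp A γ) : L), θ (z1 : L)⁆, (x : L)⁆ := by
    intro t x
    have e1 : ⁅θ (z1 : L), (x : L)⁆ = 0 := by
      have h4 := (Wv.theta hA z1.2).lie x.2
      rw [neg_add_eq_sub] at h4
      exact h4.eq_zero he.d1 he.d0
    have w0 : Wv A β ⁅⁅((t : rsp A γ) : L), θ (z1 : L)⁆, (x : L)⁆ := by
      have e1 := (Wv.lie (t : rsp A γ).2 (Wv.theta hA z1.2)).lie x.2
      rwa [add_neg_cancel, zero_add] at e1
    have h5 : J t x = ⟨_, w0⟩ := by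
      refine ext_inner_right ℝ fun y => ?_
      rw [← C.inner_map_map, ← hC1, ← hC]
      change ip θ ν ⁅(x : L), ((t : rsp A γ) : L)⁆ ⁅(y : L), (z1 : L)⁆ = ip θ ν ⁅⁅((t : rsp A γ) : L), θ (z1 : L)⁆, (x : L)⁆ (y : L)
      rw [ip, ip, tn_off e1, tn, ← lie_skew, ← lie_skew (y : L)]
      simp only [map_neg, LinearMap.neg_apply, neg_neg]
    rw [h5]
  have hJx' : ∀ t x, (J' t x : L') = ⁅⁅((t : rsp A' γ') : L'), θ' (z1' : L')⁆, (x : L')⁆ := by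
    intro t x
    have e1 : ⁅θ' (z1' : L'), (x : L')⁆ = 0 := by
      have h4 := (Wv.theta hA' z1'.2).lie x.2
      rw [neg_add_eq_sub] at h4
      exact h4.eq_zero he'.d1 he'.d0
    have w0 : Wv A' β' ⁅⁅((t : rsp A' γ') : L'), θ' (z1' : L')⁆, (x : L')⁆ := by
      have e1 := (Wv.lie (t : rsp A' γ').2 (Wv.theta hA' z1'.2)).lie x.2
      rwa [add_neg_cancel, zero_add] at e1
    have h5 : J' t x = ⟨_, w0⟩ := by
      refine ext_inner_right ℝ fun y => ?_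
      rw [← C'.inner_map_map, ← hC1', ← hC']
      change ip θ' ν' ⁅(x : L'), ((t : rsp A' γ') : L')⁆ ⁅(y : L'), (z1' : L')⁆ =
        ip θ' ν' ⁅⁅((t : rsp A' γ') : L'), θ' (z1' : L')⁆, (x : L')⁆ (y : L')
      rw [ip, ip, tn_off e1, tn, ← lie_skew, ← lie_skew (y : L')]
      simp only [map_neg, LinearMap.neg_apply, neg_neg]
    rw [h5]
  -- the operators
  let S : Submodule ℝ ((rsp A β →ₗ[ℝ] rsp A β) × (rsp A' β' →ₗ[ℝ] rsp A' β')) :=
    { carrier := {P | (∀ x, φ (P.1 x) = P.2 (φ x)) ∧ (∀ t x, P.1 (J t x) = J t (P.1 x)) ∧ ∀ t x, P.2 (J' t x) = J' t (P.2 x)}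
      zero_mem' := by
        refine ⟨fun x => ?_, fun t x => ?_, fun t x => ?_⟩ <;> simp
      add_mem' := by
        rintro P Q ⟨a1, a2, a3⟩ ⟨c1, c2, c3⟩
        refine ⟨fun x => ?_, fun t x => ?_, fun t x => ?_⟩
        · simp only [Prod.fst_add, Prod.snd_add, LinearMap.add_apply, map_add, a1, c1]
        · simp only [Prod.fst_add, LinearMap.add_apply, map_add, a2, c2]
        · simp only [Prod.snd_add, LinearMap.add_apply, map_add, a3, c3]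
      smul_mem' := by
        rintro c P ⟨a1, a2, a3⟩
        refine ⟨fun x => ?_, fun t x => ?_, fun t x => ?_⟩
        · simp only [Prod.smul_fst, Prod.smul_snd, LinearMap.smul_apply, map_smul, a1]
        · simp only [Prod.smul_fst, LinearMap.smul_apply, map_smul, a2]
        · simp only [Prod.smul_snd, LinearMap.smul_apply, map_smul, a3] }
  have memS : ∀ P : (rsp A β →ₗ[ℝ] rsp A β) × (rsp A' β' →ₗ[ℝ] rsp A' β'), P ∈ S ↔
      ((∀ x, φ (P.1 x) = P.2 (φ x)) ∧ (∀ t x, P.1 (J t x) = J t (P.1 x)) ∧ ∀ t x, P.2 (J' t x) = J' t (P.2 x)) := fun P => Iff.rfl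
  let ev : ((rsp A β →ₗ[ℝ] rsp A β) × (rsp A' β' →ₗ[ℝ] rsp A' β')) →ₗ[ℝ] rsp A' β' :=
    LinearMap.applyₗ x1' ∘ₗ LinearMap.snd ℝ _ _
  have w0 : ∀ v w : L, Wv A δ v → Wv A δ w → Wv A 0 ⁅v, θ w⁆ := fun v w hv hw => by
    have e1 := hv.lie (hw.theta hA)
    rwa [add_neg_cancel] at e1
  have w0' : ∀ v w : L', Wv A' δ' v → Wv A' δ' w → Wv A' 0 ⁅v, θ' w⁆ := fun v w hv hw => by
    have e1 := hv.lie (hw.theta hA')
    rwa [add_neg_cancel] at e1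
  have jac : ∀ v w x t : L, Wv A δ v → Wv A δ w → Wv A γ t → ⁅⁅v, θ w⁆, ⁅⁅t, θ (z1 : L)⁆, x⁆⁆ = ⁅⁅t, θ (z1 : L)⁆, ⁅⁅v, θ w⁆, x⁆⁆ := by
    intro v w x t hv hw ht
    obtain ⟨a1, a2⟩ := hc t v ht hv
    obtain ⟨a3, a4⟩ := hc z1 v z1.2 hv
    obtain ⟨a5, a6⟩ := hc t w ht hw
    obtain ⟨a7, a8⟩ := hc z1 w z1.2 hw
    have a9 : ⁅θ w, t⁆ = 0 := by
      have := congrArg θ a6
      rwa [LieEquiv.map_lie, h.invol, map_zero] at this
    have a10 : ⁅θ w, θ (z1 : L)⁆ = 0 := by rw [← LieEquiv.map_lie, a7, map_zero]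
    have a11 : ⁅⁅v, θ w⁆, t⁆ = 0 := by rw [lie_lie, a9, a1, lie_zero, lie_zero, sub_zero]
    have a12 : ⁅⁅v, θ w⁆, θ (z1 : L)⁆ = 0 := by rw [lie_lie, a10, a4, lie_zero, lie_zero, sub_zero]
    rw [leibniz_lie ⁅v, θ w⁆, leibniz_lie ⁅v, θ w⁆ t, a11, a12, zero_lie, lie_zero, add_zero, zero_lie, zero_add]
  have jac' : ∀ v w x t : L', Wv A' δ' v → Wv A' δ' w → Wv A' γ' t → ⁅⁅v, θ' w⁆, ⁅⁅t, θ' (z1' : L')⁆, x⁆⁆ = ⁅⁅t, θ' (z1' : L')⁆, ⁅⁅v, θ' w⁆, x⁆⁆ := by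
    intro v w x t hv hw ht
    obtain ⟨a1, a2⟩ := hc' t v ht hv
    obtain ⟨a3, a4⟩ := hc' z1' v z1'.2 hv
    obtain ⟨a5, a6⟩ := hc' t w ht hw
    obtain ⟨a7, a8⟩ := hc' z1' w z1'.2 hw
    have a9 : ⁅θ' w, t⁆ = 0 := by
      have := congrArg θ' a6
      rwa [LieEquiv.map_lie, h'.invol, map_zero] at this
    have a10 : ⁅θ' w, θ' (z1' : L')⁆ = 0 := by rw [← LieEquiv.map_lie, a7, map_zero]
    have a11 : ⁅⁅v, θ' w⁆, t⁆ = 0 := by rw [lie_lie, a9, a1, lie_zero, lie_zero, sub_zero]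
    have a12 : ⁅⁅v, θ' w⁆, θ' (z1' : L')⁆ = 0 := by rw [lie_lie, a10, a4, lie_zero, lie_zero, sub_zero]
    rw [leibniz_lie ⁅v, θ' w⁆, leibniz_lie ⁅v, θ' w⁆ t, a11, a12, zero_lie, lie_zero, add_zero, zero_lie, zero_add]
  have hS : ∀ (v w : L) (hv : Wv A δ v) (hw : Wv A δ w), ((brk A 0 β β (zero_add β) ⟨⁅v, θ w⁆, w0 v w hv hw⟩,
      brk A' 0 β' β' (zero_add β') ⟨⁅G v, θ' (G w)⁆, w0' _ _ (hG.mem v hv) (hG.mem w hw)⟩) :
      (rsp A β →ₗ[ℝ] rsp A β) × (rsp A' β' →ₗ[ℝ] rsp A' β')) ∈ S := by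
    intro v w hv hw
    rw [memS]
    refine ⟨fun x => ?_, fun t x => ?_, fun t x => ?_⟩
    · apply Subtype.ext
      rw [hφ, brk_apply, brk_apply, hφ]
      exact off_of_TC h' hA hA' hp'.ne' h0 h1 h0' h1' hF hG hT hv hw x.2
    · apply Subtype.ext
      rw [brk_apply, hJx, hJx, brk_apply]
      exact jac v w x t hv hw (t : rsp A γ).2
    · apply Subtype.ext
      rw [brk_apply, hJx', hJx', brk_apply]
      exact jac' _ _ x t (hG.mem v hv) (hG.mem w hw) (t : rsp A' γ').2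
  have hY : S.map ev = ⊤ := by
    by_contra hne
    have h2 : (S.map ev)ᗮ ≠ ⊥ := fun h3 => hne (Submodule.orthogonal_eq_bot_iff.1 h3)
    obtain ⟨y0, hy0, hy1⟩ := Submodule.exists_mem_ne_zero_of_ne_bot h2
    have hx1n : (x1' : L') ≠ 0 := by
      intro h3
      have h4 : x1' = 0 := Subtype.ext h3
      rw [h4, inner_zero_left] at hx1'
      exact zero_ne_one hx1'
    have hy1n : (y0 : L') ≠ 0 := fun h3 => hy1 (Subtype.ext h3)
    have h3 := two_mul_finrank_le (f := brk A' β' δ' (β' + δ') rfl x1') (g := brk A' β' δ' (β' + δ') rfl y0)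
      (fun a ha => Subtype.ext (ad_inj hτ' h' hA' h0' h1' hn' x1'.2 hx1n a.2 (congrArg Subtype.val ha)))
      (fun a ha => Subtype.ext (ad_inj hτ' h' hA' h0' h1' hn' y0.2 hy1n a.2 (congrArg Subtype.val ha)))
      (fun a c => by
        obtain ⟨v, hv, hva⟩ := hG.onto a a.2
        obtain ⟨w, hw, hwc⟩ := hG.onto c c.2
        have h4 := (Submodule.mem_orthogonal _ _).1 hy0 _ (Submodule.mem_map_of_mem (f := ev) (hS v w hv hw))
        change ip θ' ν' ⁅⁅G v, θ' (G w)⁆, (x1' : L')⁆ (y0 : L') = 0 at h4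
        change ip θ' ν' ⁅(x1' : L'), (a : L')⁆ ⁅(y0 : L'), (c : L')⁆ = 0
        rw [hva, hwc] at h4
        have e1 : ⁅θ' (c : L'), (x1' : L')⁆ = 0 := by
          have h5 := (Wv.theta hA' c.2).lie x1'.2
          rw [neg_add_eq_sub] at h5
          exact h5.eq_zero h1' h0'
        rw [ip, tn_off e1, tn, ← lie_skew, ← lie_skew (c : L')] at h4
        rw [ip]
        simpa only [map_neg, LinearMap.neg_apply, neg_neg] using h4)
    omega
  have hint := prop_abs hJ hJ' (by rw [hw', finrank_perp hz1']) φ (fun D D' => (D, D') ∈ S) (fun D D' hP => ((memS _).1 hP).1)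
    (fun D D' hP => ((memS _).1 hP).2.1) (fun D D' hP => ((memS _).1 hP).2.2) hx1' (fun y _ => by
      have h2 : y ∈ S.map ev := by
        rw [hY]
        trivial
      obtain ⟨P, hP, hPy⟩ := h2
      exact ⟨P.1, P.2, hP, hPy⟩)
  obtain ⟨Ψ, Θ, hm⟩ := ext_abs (m := brk A β γ (β + γ) rfl) (m' := brk A' β' γ' (β' + γ') rfl) hw hw' hz1 hz1' C C' hJ hJ' hC hC1 hC' hC1' φ hint hx1
  obtain ⟨H, hH, hHΨ⟩ := isoOn_of_linear (θ := θ) (θ' := θ') (ν := ν) (ν' := ν') Ψ.toLinearEquiv.toLinearMap Ψ.surjective (fun x y => Ψ.inner_map_map x y)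
  refine ⟨H, hH.scale (by rw [he.ba, hν2]) (by rw [he'.ba, hν2']), ?_⟩
  refine tc_of_ip (by rw [he.ba, hν2]) (by rw [he'.ba, hν2']) fun x y v w hx hy hv hw => ?_
  have e1 : F x = φ ⟨x, hx⟩ := (hφ ⟨x, hx⟩).symm
  have e2 : F y = φ ⟨y, hy⟩ := (hφ ⟨y, hy⟩).symm
  have e3 : H v = Ψ ⟨v, hv⟩ := hHΨ ⟨v, hv⟩
  have e4 : H w = Ψ ⟨w, hw⟩ := hHΨ ⟨w, hw⟩
  rw [e1, e2, e3, e4]
  have h1 := hm ⟨x, hx⟩ ⟨v, hv⟩
  have h2 := hm ⟨y, hy⟩ ⟨w, hw⟩
  have h3 := Θ.inner_map_map (brk A β γ (β + γ) rfl ⟨x, hx⟩ ⟨v, hv⟩) (brk A β γ (β + γ) rfl ⟨y, hy⟩ ⟨w, hw⟩)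
  rw [← h1, ← h2] at h3
  exact h3

end Pool.Agent.Helper25.AE
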