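import Pool.Agent.Helper25.AE.Cross

/-!
# Normed bilinear maps between Euclidean spaces of the same dimension (layer AE of MP_0f6f3f_an, block E2)

`IsSys J`: `J t`, `t ∈ T`, are skew and `|J t x| = |t| |x|`. `IsSys.unique`: two such systems with `dim V = dim T + 1` are isometric, and `dim V` is 1, 2, 4 or 8. `comp_unique`: the same for normed bilinear maps
`m : V × W → U`, `dim V = dim W = dim U`.
-/

set_option autoImplicit false

namespace Pool.Agent.Helper25.AE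

open scoped RealInnerProductSpace

variable {T T' V V' W W' U U' : Type} [NormedAddCommGroup T] [InnerProductSpace ℝ T] [NormedAddCommGroup T'] [InnerProductSpace ℝ T']
  [NormedAddCommGroup V] [InnerProductSpace ℝ V] [NormedAddCommGroup V'] [InnerProductSpace ℝ V'] [NormedAddCommGroup W] [InnerProductSpace ℝ W]
  [NormedAddCommGroup W'] [InnerProductSpace ℝ W'] [NormedAddCommGroup U] [InnerProductSpace ℝ U] [NormedAddCommGroup U'] [InnerProductSpace ℝ U']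

/-- Systems of complex structures. -/
structure IsSys (J : T →ₗ[ℝ] V →ₗ[ℝ] V) : Prop where
  skew : ∀ t x y, ⟪J t x, y⟫ = -⟪x, J t y⟫
  nrm : ∀ t x, ⟪J t x, J t x⟫ = ⟪t, t⟫ * ⟪x, x⟫

namespace IsSys

variable {J : T →ₗ[ℝ] V →ₗ[ℝ] V} {J' : T' →ₗ[ℝ] V' →ₗ[ℝ] V'}

theorem sq (h : IsSys J) (t : T) (x : V) : J t (J t x) = -(⟪t, t⟫ • x) := by
  have pol : ∀ y, ⟪J t x, J t y⟫ = ⟪t, t⟫ * ⟪x, y⟫ := by
    intro y
    have h1 := h.nrm t (x + y)
    rw [map_add, inner_add_left, inner_add_right, inner_add_right, inner_add_left, inner_add_right, inner_add_right, h.nrm, h.nrm,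
      real_inner_comm (J t x) (J t y), real_inner_comm x y] at h1
    linarith
  refine ext_inner_right ℝ fun y => ?_
  rw [h.skew, pol, inner_neg_left, inner_smul_left, conj_trivial]

theorem anti (h : IsSys J) (s t : T) (x : V) : J s (J t x) + J t (J s x) = -((2 * ⟪s, t⟫) • x) := by
  have h1 := h.sq (s + t) x
  have h2 := h.sq s x
  have h3 := h.sq t x
  simp only [map_add, LinearMap.add_apply, inner_add_left, inner_add_right] at h1
  rw [real_inner_comm s t] at h1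
  have h4 : J s (J t x) + J t (J s x) = (J s (J s x) + J t (J s x) + (J s (J t x) + J t (J t x))) - J s (J s x) - J t (J t x) := by abel
  rw [h4, h1, h2, h3]
  module

/-- The map `t ↦ J t v`. -/
def kap (J : T →ₗ[ℝ] V →ₗ[ℝ] V) (v : V) : T →ₗ[ℝ] V := J.flip v

theorem kap_apply (v : V) (t : T) : kap J v t = J t v := rfl

theorem kap_inner (h : IsSys J) {v : V} (hv : ⟪v, v⟫ = 1) (s t : T) : ⟪J s v, J t v⟫ = ⟪s, t⟫ := by
  have h1 := h.anti s t v
  have h2 : ⟪J s (J t v) + J t (J s v), v⟫ = -(2 * ⟪s, t⟫) := by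
    rw [h1, inner_neg_left, inner_smul_left, hv, conj_trivial, mul_one]
  rw [inner_add_left, h.skew s (J t v), h.skew t (J s v), real_inner_comm (J s v) (J t v)] at h2
  linarith

theorem kap_v (h : IsSys J) (v : V) (t : T) : ⟪v, J t v⟫ = 0 := by
  have h1 := h.skew t v v
  rw [real_inner_comm] at h1
  linarith

/-- The splitting of `V`. -/
theorem split [FiniteDimensional ℝ T] [FiniteDimensional ℝ V] (h : IsSys J) (hd : Module.finrank ℝ V = Module.finrank ℝ T + 1) {v : V} (hv : ⟪v, v⟫ = 1) :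
    ∃ k : V →ₗ[ℝ] T, (∀ x, x = ⟪v, x⟫ • v + J (k x) v) ∧ (∀ t, k (J t v) = t) ∧ k v = 0 ∧ ∀ t x, ⟪t, k x⟫ = ⟪J t v, x⟫ := by
  obtain ⟨k, hk⟩ : ∃ k : V →ₗ[ℝ] T, ∀ t x, ⟪t, k x⟫ = ⟪J t v, x⟫ := by
    refine ⟨LinearMap.adjoint (kap J v), fun t x => ?_⟩
    rw [LinearMap.adjoint_inner_right, kap_apply]
  have k1 : ∀ t, k (J t v) = t := fun t => ext_inner_left ℝ fun s => by rw [hk, h.kap_inner hv]
  have k2 : k v = 0 := ext_inner_left ℝ fun s => by rw [hk, real_inner_comm, h.kap_v, inner_zero_right]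
  refine ⟨k, fun x => ?_, k1, k2, hk⟩
  -- the vectors `a v + J t v` exhaust `V`
  let g : (ℝ × T) →ₗ[ℝ] V := (LinearMap.toSpanSingleton ℝ V v).coprod (kap J v)
  have g1 : ∀ a t, g (a, t) = a • v + J t v := fun a t => rfl
  have g2 : Function.Injective g := by
    rw [injective_iff_map_eq_zero]
    rintro ⟨a, t⟩ h0
    rw [g1] at h0
    have h2 : ⟪v, a • v + J t v⟫ = a := by
      rw [inner_add_right, inner_smul_right, hv, h.kap_v, mul_one, add_zero]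
    rw [h0, inner_zero_right] at h2
    have h3 := congrArg k h0
    rw [map_add, map_smul, k1, k2, smul_zero, zero_add, map_zero] at h3
    rw [← h2, h3]
    rfl
  have g3 : Function.Surjective g := by
    refine (LinearMap.injective_iff_surjective_of_finrank_eq_finrank ?_).1 g2
    rw [Module.finrank_prod, Module.finrank_self, hd, add_comm]
  obtain ⟨⟨a, t⟩, hat⟩ := g3 x
  rw [g1] at hat
  rw [← hat, map_add, map_smul, k1, k2, smul_zero, zero_add, inner_add_right, inner_smul_right, hv, h.kap_v, mul_one, add_zero]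

/-- The cross product of a system. -/
theorem exists_cross [FiniteDimensional ℝ T] [FiniteDimensional ℝ V] (h : IsSys J) (hd : Module.finrank ℝ V = Module.finrank ℝ T + 1) {v : V}
    (hv : ⟪v, v⟫ = 1) : ∃ c : T →ₗ[ℝ] T →ₗ[ℝ] T, IsCross c ∧ ∀ s t, J s (J t v) = J (c s t) v - ⟪s, t⟫ • v := by
  obtain ⟨k, k1, k2, k3, k4⟩ := h.split hd hv
  obtain ⟨c, hc⟩ : ∃ c : T →ₗ[ℝ] T →ₗ[ℝ] T, ∀ s t, c s t = k (J s (J t v)) :=
    ⟨(J.compl₁₂ LinearMap.id (kap J v)).compr₂ k, fun s t => rfl⟩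
  have hJ : ∀ s t, J s (J t v) = J (c s t) v - ⟪s, t⟫ • v := by
    intro s t
    have h1 := k1 (J s (J t v))
    rw [← hc, real_inner_comm, h.skew, real_inner_comm, h.kap_inner hv, real_inner_comm] at h1
    rw [real_inner_comm s t] at h1
    exact h1.trans (by module)
  have inj : ∀ s t, J s v = J t v → s = t := fun s t h1 => by rw [← k2 s, h1, k2]
  have hself : ∀ s, c s s = 0 := by
    intro s
    refine inj _ _ ?_
    have h1 := hJ s s
    rw [h.sq] at h1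
    rw [map_zero, LinearMap.zero_apply]
    have h2 : J (c s s) v = (J (c s s) v - ⟪s, s⟫ • v) + ⟪s, s⟫ • v := by abel
    rw [h2, ← h1, neg_add_cancel]
  have htri : ∀ r s t, ⟪c r s, t⟫ = ⟪r, c s t⟫ := by
    intro r s t
    have e1 : J (c r s) v = J r (J s v) + ⟪r, s⟫ • v := by
      rw [hJ]
      abel
    have e2 : J (c s t) v = J s (J t v) + ⟪s, t⟫ • v := by
      rw [hJ]
      abel
    rw [← h.kap_inner hv (c r s) t, ← h.kap_inner hv r (c s t), e1, e2, inner_add_left, inner_add_right, inner_smul_left, inner_smul_right,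
      real_inner_comm v (J r v), h.kap_v, h.kap_v, mul_zero, mul_zero, add_zero, add_zero]
    have h1 : ⟪J r v, J s (J t v)⟫ = -⟪J s (J r v), J t v⟫ := by rw [h.skew s (J r v), neg_neg]
    have h2 : J s (J r v) = -J r (J s v) - (2 * ⟪s, r⟫) • v := by
      have h3 := h.anti s r v
      rw [eq_comm, ← sub_eq_iff_eq_add] at h3
      rw [← h3]
      abel
    rw [h1, h2, inner_sub_left, inner_neg_left, inner_smul_left, h.kap_v, mul_zero, sub_zero, neg_neg]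
  refine ⟨c, ⟨hself, htri, fun s t => ?_⟩, hJ⟩
  refine inj _ _ ?_
  have e1 : J (c s (c s t)) v = J s (J (c s t) v) + ⟪s, c s t⟫ • v := by
    rw [hJ]
    abel
  have e2 : J (c s t) v = J s (J t v) + ⟪s, t⟫ • v := by
    rw [hJ]
    abel
  have e3 : ⟪s, c s t⟫ = 0 := by rw [← htri, hself, inner_zero_left]
  rw [e1, e3, e2, map_add, h.sq, map_smul, zero_smul, add_zero, map_sub, map_smul, map_smul, LinearMap.sub_apply, LinearMap.smul_apply,
    LinearMap.smul_apply]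
  abel

/-- **The dimensions of the systems.** -/
theorem dim [FiniteDimensional ℝ T] [FiniteDimensional ℝ V] (h : IsSys J) (hd : Module.finrank ℝ V = Module.finrank ℝ T + 1) :
    Module.finrank ℝ V = 1 ∨ Module.finrank ℝ V = 2 ∨ Module.finrank ℝ V = 4 ∨ Module.finrank ℝ V = 8 := by
  obtain ⟨v, hv, -⟩ := exists_perp (T := V) (k := 0) ![] (by omega)
  obtain ⟨c, hc, -⟩ := h.exists_cross hd hv
  have := hc.dim
  omega

/-- **Uniqueness of the systems.** -/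
theorem unique [FiniteDimensional ℝ T] [FiniteDimensional ℝ V] [FiniteDimensional ℝ T'] [FiniteDimensional ℝ V'] (h : IsSys J) (h' : IsSys J')
    (hd : Module.finrank ℝ V = Module.finrank ℝ T + 1) (hd' : Module.finrank ℝ V' = Module.finrank ℝ T' + 1)
    (hT : Module.finrank ℝ T = Module.finrank ℝ T') {v : V} {v' : V'} (hv : ⟪v, v⟫ = 1) (hv' : ⟪v', v'⟫ = 1) :
    ∃ (φ : V ≃ₗᵢ[ℝ] V') (ψ : T ≃ₗᵢ[ℝ] T'), φ v = v' ∧ ∀ t x, φ (J t x) = J' (ψ t) (φ x) := by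
  obtain ⟨c, hc, hJ⟩ := h.exists_cross hd hv
  obtain ⟨c', hc', hJ'⟩ := h'.exists_cross hd' hv'
  obtain ⟨k, k1, k2, k3, k4⟩ := h.split hd hv
  obtain ⟨ψ, hψ⟩ := hc.unique hc' hT
  let f : V →ₗ[ℝ] V' := LinearMap.toSpanSingleton ℝ V' v' ∘ₗ (innerₛₗ ℝ v) + kap J' v' ∘ₗ ψ.toLinearEquiv.toLinearMap ∘ₗ k
  have f0 : ∀ x, f x = ⟪v, x⟫ • v' + J' (ψ (k x)) v' := fun x => rfl
  have f1 : f v = v' := by rw [f0, hv, k3, map_zero, map_zero, LinearMap.zero_apply, one_smul, add_zero]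
  have f2 : ∀ t, f (J t v) = J' (ψ t) v' := fun t => by rw [f0, h.kap_v, k2, zero_smul, zero_add]
  have f3 : ∀ x, ⟪f x, f x⟫ = ⟪x, x⟫ := by
    intro x
    have e1 : ⟪x, x⟫ = ⟪v, x⟫ * ⟪v, x⟫ + ⟪k x, k x⟫ := by
      conv_lhs => rw [k1 x]
      rw [inner_add_left, inner_add_right, inner_add_right, inner_smul_left, inner_smul_right, inner_smul_left, inner_smul_right, hv,
        h.kap_v, real_inner_comm v (J (k x) v), h.kap_v, h.kap_inner hv, conj_trivial]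
      ring
    rw [e1, f0, inner_add_left, inner_add_right, inner_add_right, inner_smul_left, inner_smul_right, inner_smul_left, inner_smul_right, hv',
      h'.kap_v, real_inner_comm v' (J' (ψ (k x)) v'), h'.kap_v, h'.kap_inner hv', LinearIsometryEquiv.inner_map_map, conj_trivial]
    ring
  let g : V →ₗᵢ[ℝ] V' := ⟨f, fun x => by
    have h1 := f3 x
    rw [real_inner_self_eq_norm_sq, real_inner_self_eq_norm_sq] at h1
    exact (sq_eq_sq₀ (norm_nonneg _) (norm_nonneg _)).1 h1⟩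
  let φ := g.toLinearIsometryEquiv (by rw [hd, hd', hT])
  have hφ : ∀ x, φ x = f x := fun x => rfl
  refine ⟨φ, ψ, by rw [hφ, f1], fun t x => ?_⟩
  rw [hφ, hφ, k1 x]
  have f4 : ∀ s, f (J t (J s v)) = J' (ψ t) (f (J s v)) := by
    intro s
    rw [hJ, f2, hJ', map_sub, map_smul, f1, f2, hψ, LinearIsometryEquiv.inner_map_map]
  rw [map_add, map_smul, map_add, map_add, map_smul, map_smul, map_add, map_smul, f4, f2 t, f1]

end IsSys

/-- Isometries from the preservation of the norm. -/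
theorem exists_isoE [FiniteDimensional ℝ V] [FiniteDimensional ℝ V'] (hd : Module.finrank ℝ V = Module.finrank ℝ V') (f : V →ₗ[ℝ] V')
    (hf : ∀ x, ⟪f x, f x⟫ = ⟪x, x⟫) : ∃ φ : V ≃ₗᵢ[ℝ] V', ∀ x, φ x = f x := by
  let g : V →ₗᵢ[ℝ] V' := ⟨f, fun x => by
    have h1 := hf x
    rw [real_inner_self_eq_norm_sq, real_inner_self_eq_norm_sq] at h1
    exact (sq_eq_sq₀ (norm_nonneg _) (norm_nonneg _)).1 h1⟩
  exact ⟨g.toLinearIsometryEquiv hd, fun x => rfl⟩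

theorem pol_m {m : V →ₗ[ℝ] W →ₗ[ℝ] U} (hm : ∀ x z, ⟪m x z, m x z⟫ = ⟪x, x⟫ * ⟪z, z⟫) (x y : V) (z w : W) :
    ⟪m x z, m y w⟫ + ⟪m x w, m y z⟫ = 2 * ⟪x, y⟫ * ⟪z, w⟫ := by
  have h1 := hm (x + y) (z + w)
  have h2 := hm (x + y) z
  have h3 := hm (x + y) w
  have h4 := hm x (z + w)
  have h5 := hm y (z + w)
  simp only [map_add, LinearMap.add_apply, inner_add_left, inner_add_right] at h1 h2 h3 h4 h5
  rw [real_inner_comm x y] at h1 h2 h3
  rw [real_inner_comm z w] at h1 h4 h5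
  have a1 := real_inner_comm (m x z) (m y z)
  have a2 := real_inner_comm (m x z) (m x w)
  have a3 := real_inner_comm (m x z) (m y w)
  have a4 := real_inner_comm (m x w) (m y z)
  have a5 := real_inner_comm (m x w) (m y w)
  have a6 := real_inner_comm (m y z) (m y w)
  linarith [hm x z, hm x w, hm y z, hm y w]

/-- The system of a normed bilinear map. -/
theorem exists_sys [FiniteDimensional ℝ V] [FiniteDimensional ℝ W] [FiniteDimensional ℝ U] {m : V →ₗ[ℝ] W →ₗ[ℝ] U}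
    (hm : ∀ x z, ⟪m x z, m x z⟫ = ⟪x, x⟫ * ⟪z, z⟫) (hU : Module.finrank ℝ V = Module.finrank ℝ U) {z0 : W} (hz : ⟪z0, z0⟫ = 1) :
    ∃ (C : V ≃ₗᵢ[ℝ] U) (J : (ℝ ∙ z0)ᗮ →ₗ[ℝ] V →ₗ[ℝ] V), IsSys J ∧ (∀ x, m x z0 = C x) ∧ ∀ x (t : (ℝ ∙ z0)ᗮ), m x t = C (J t x) := by
  obtain ⟨C, hC⟩ := exists_isoE hU (m.flip z0) (fun x => by rw [LinearMap.flip_apply, hm, hz, mul_one])
  have hC' : ∀ x, m x z0 = C x := fun x => (hC x).symm
  obtain ⟨J, hJ⟩ : ∃ J : (ℝ ∙ z0)ᗮ →ₗ[ℝ] V →ₗ[ℝ] V, ∀ t x, J t x = C.symm (m x t) := by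
    refine ⟨((m.compl₂ (ℝ ∙ z0)ᗮ.subtype).compr₂ C.symm.toLinearEquiv.toLinearMap).flip, fun t x => rfl⟩
  have hJ' : ∀ x (t : (ℝ ∙ z0)ᗮ), m x t = C (J t x) := fun x t => by rw [hJ, LinearIsometryEquiv.apply_symm_apply]
  have ht : ∀ t : (ℝ ∙ z0)ᗮ, ⟪(t : W), z0⟫ = 0 := fun t => by
    rw [real_inner_comm]
    exact Submodule.mem_orthogonal_singleton_iff_inner_right.1 t.2
  refine ⟨C, J, ⟨fun t x y => ?_, fun t x => ?_⟩, hC', hJ'⟩
  · have h1 := pol_m hm x y (t : W) z0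
    rw [ht, mul_zero, hJ', hJ', hC', hC', LinearIsometryEquiv.inner_map_map, LinearIsometryEquiv.inner_map_map] at h1
    linarith
  · have h1 := hm x (t : W)
    rw [hJ', LinearIsometryEquiv.inner_map_map, mul_comm] at h1
    exact h1

theorem finrank_perp [FiniteDimensional ℝ W] {z0 : W} (hz : ⟪z0, z0⟫ = 1) : Module.finrank ℝ W = Module.finrank ℝ ((ℝ ∙ z0)ᗮ : Submodule ℝ W) + 1 := by
  have h1 := Submodule.finrank_add_finrank_orthogonal (𝕜 := ℝ) (ℝ ∙ z0)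
  rw [finrank_span_singleton (by
    rintro rfl
    rw [inner_zero_left] at hz
    exact zero_ne_one hz)] at h1
  omega

/-- Extension of an isometry of the orthogonal complements. -/
theorem exists_ext [FiniteDimensional ℝ W] [FiniteDimensional ℝ W'] (hd : Module.finrank ℝ W = Module.finrank ℝ W') {z0 : W} {z0' : W'}
    (hz : ⟪z0, z0⟫ = 1) (hz' : ⟪z0', z0'⟫ = 1) (ψ : (ℝ ∙ z0)ᗮ ≃ₗᵢ[ℝ] (ℝ ∙ z0')ᗮ) :
    ∃ Ψ : W ≃ₗᵢ[ℝ] W', Ψ z0 = z0' ∧ ∀ t : (ℝ ∙ z0)ᗮ, Ψ t = (ψ t : W') := by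
  have ht : ∀ t : (ℝ ∙ z0)ᗮ, ⟪z0, (t : W)⟫ = 0 := fun t => Submodule.mem_orthogonal_singleton_iff_inner_right.1 t.2
  have ht' : ∀ t : (ℝ ∙ z0')ᗮ, ⟪z0', (t : W')⟫ = 0 := fun t => Submodule.mem_orthogonal_singleton_iff_inner_right.1 t.2
  have mem : ∀ w : W, w - ⟪z0, w⟫ • z0 ∈ (ℝ ∙ z0)ᗮ := fun w => by
    rw [Submodule.mem_orthogonal_singleton_iff_inner_right, inner_sub_right, inner_smul_right, hz, mul_one, sub_self]
  let P : W →ₗ[ℝ] (ℝ ∙ z0)ᗮ := LinearMap.codRestrict _ (LinearMap.id - LinearMap.toSpanSingleton ℝ W z0 ∘ₗ (innerₛₗ ℝ z0)) mem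
  have hP : ∀ w, (P w : W) = w - ⟪z0, w⟫ • z0 := fun w => rfl
  have hP0 : P z0 = 0 := by
    apply Subtype.ext
    rw [hP, hz, one_smul, sub_self]
    rfl
  have hPt : ∀ t : (ℝ ∙ z0)ᗮ, P t = t := fun t => by
    apply Subtype.ext
    rw [hP, ht, zero_smul, sub_zero]
  let f : W →ₗ[ℝ] W' := LinearMap.toSpanSingleton ℝ W' z0' ∘ₗ (innerₛₗ ℝ z0) + (ℝ ∙ z0')ᗮ.subtype ∘ₗ ψ.toLinearEquiv.toLinearMap ∘ₗ P
  have f0 : ∀ w, f w = ⟪z0, w⟫ • z0' + (ψ (P w) : W') := fun w => rfl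
  obtain ⟨Ψ, hΨ⟩ := exists_isoE hd f (fun w => by
    have e1 : ⟪w, w⟫ = ⟪z0, w⟫ * ⟪z0, w⟫ + ⟪P w, P w⟫ := by
      rw [Submodule.coe_inner, hP, inner_sub_left, inner_sub_right, inner_sub_right, inner_smul_left, inner_smul_right, inner_smul_right,
        inner_smul_left, hz, real_inner_comm z0 w, conj_trivial]
      ring
    rw [e1, f0, inner_add_left, inner_add_right, inner_add_right, inner_smul_left, inner_smul_right, inner_smul_left, inner_smul_right, hz',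
      ht', real_inner_comm z0' (ψ (P w) : W'), ht', ← Submodule.coe_inner, LinearIsometryEquiv.inner_map_map, conj_trivial]
    ring)
  refine ⟨Ψ, ?_, fun t => ?_⟩
  · rw [hΨ, f0, hz, hP0, one_smul, map_zero, ZeroMemClass.coe_zero, add_zero]
  · rw [hΨ, f0, ht, hPt, zero_smul, zero_add]

/-- **Hurwitz** for normed bilinear maps. -/
theorem comp_dim [FiniteDimensional ℝ V] [FiniteDimensional ℝ W] [FiniteDimensional ℝ U] {m : V →ₗ[ℝ] W →ₗ[ℝ] U}
    (hm : ∀ x z, ⟪m x z, m x z⟫ = ⟪x, x⟫ * ⟪z, z⟫) (hW : Module.finrank ℝ V = Module.finrank ℝ W) (hU : Module.finrank ℝ V = Module.finrank ℝ U)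
    (h0 : 0 < Module.finrank ℝ V) : Module.finrank ℝ V = 1 ∨ Module.finrank ℝ V = 2 ∨ Module.finrank ℝ V = 4 ∨ Module.finrank ℝ V = 8 := by
  obtain ⟨z0, hz, -⟩ := exists_perp (T := W) (k := 0) ![] (by omega)
  obtain ⟨C, J, hJ, -, -⟩ := exists_sys hm hU hz
  exact hJ.dim (by rw [hW, finrank_perp hz])

/-- **Uniqueness of the normed bilinear maps between spaces of the same dimension.** -/
theorem comp_unique [FiniteDimensional ℝ V] [FiniteDimensional ℝ W] [FiniteDimensional ℝ U] [FiniteDimensional ℝ V'] [FiniteDimensional ℝ W']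
    [FiniteDimensional ℝ U'] {m : V →ₗ[ℝ] W →ₗ[ℝ] U} {m' : V' →ₗ[ℝ] W' →ₗ[ℝ] U'} (hm : ∀ x z, ⟪m x z, m x z⟫ = ⟪x, x⟫ * ⟪z, z⟫)
    (hm' : ∀ x z, ⟪m' x z, m' x z⟫ = ⟪x, x⟫ * ⟪z, z⟫) (hW : Module.finrank ℝ V = Module.finrank ℝ W)
    (hU : Module.finrank ℝ V = Module.finrank ℝ U) (hW' : Module.finrank ℝ V' = Module.finrank ℝ W')
    (hU' : Module.finrank ℝ V' = Module.finrank ℝ U') (hd : Module.finrank ℝ V = Module.finrank ℝ V') {x0 : V} {x0' : V'} {z0 : W} {z0' : W'}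
    (hx : ⟪x0, x0⟫ = 1) (hx' : ⟪x0', x0'⟫ = 1) (hz : ⟪z0, z0⟫ = 1) (hz' : ⟪z0', z0'⟫ = 1) :
    ∃ (φ : V ≃ₗᵢ[ℝ] V') (Ψ : W ≃ₗᵢ[ℝ] W') (Θ : U ≃ₗᵢ[ℝ] U'), φ x0 = x0' ∧ Ψ z0 = z0' ∧ ∀ x z, m' (φ x) (Ψ z) = Θ (m x z) := by
  obtain ⟨C, J, hJ, hC, hC1⟩ := exists_sys hm hU hz
  obtain ⟨C', J', hJ', hC', hC1'⟩ := exists_sys hm' hU' hz'
  have hp := finrank_perp hz
  have hp' := finrank_perp hz'
  obtain ⟨φ, ψ, hφ, hψ⟩ := hJ.unique hJ' (by rw [hW, hp]) (by rw [hW', hp']) (by omega) hx hx'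
  obtain ⟨Ψ, hΨ, hΨ1⟩ := exists_ext (by rw [← hW, ← hW', hd]) hz hz' ψ
  refine ⟨φ, Ψ, (C.symm.trans φ).trans C', hφ, hΨ, fun x z => ?_⟩
  obtain ⟨t, ht⟩ : ∃ t : (ℝ ∙ z0)ᗮ, (t : W) = z - ⟪z0, z⟫ • z0 := ⟨⟨z - ⟪z0, z⟫ • z0, by
    rw [Submodule.mem_orthogonal_singleton_iff_inner_right, inner_sub_right, inner_smul_right, hz, mul_one, sub_self]⟩, rfl⟩
  have h1 : z = ⟪z0, z⟫ • z0 + (t : W) := by
    rw [ht]
    abel
  generalize ⟪z0, z⟫ = a at h1
  subst h1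
  rw [map_add, map_smul, hΨ, hΨ1, map_add, map_smul, map_add, map_smul, hC, hC1, hC', hC1', ← hψ, map_add, map_smul]
  simp only [LinearIsometryEquiv.trans_apply, LinearIsometryEquiv.symm_apply_apply]

end Pool.Agent.Helper25.AE
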