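import Mathlib

/-!
# Vector cross products and systems of complex structures (layer AE of MP_0f6f3f_an, block E2)

`IsCross c`: `c` is a vector cross product of the Euclidean space `T`. `IsCross.dim`: `dim T` is 0, 1, 3 or 7 (Hurwitz). `IsCross.unique`: two cross products on spaces of the same dimension are isometric.
-/

set_option autoImplicit false
set_option linter.unusedSimpArgs false

namespace Pool.Agent.Helper25.AE

open scoped RealInnerProductSpace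

variable {T T' V V' : Type} [NormedAddCommGroup T] [InnerProductSpace ℝ T] [NormedAddCommGroup T'] [InnerProductSpace ℝ T']
  [NormedAddCommGroup V] [InnerProductSpace ℝ V] [NormedAddCommGroup V'] [InnerProductSpace ℝ V']

/-- Vector cross products. -/
structure IsCross (c : T →ₗ[ℝ] T →ₗ[ℝ] T) : Prop where
  self : ∀ x, c x x = 0
  tri : ∀ x y z, ⟪c x y, z⟫ = ⟪x, c y z⟫
  sq : ∀ x y, c x (c x y) = ⟪x, y⟫ • x - ⟪x, x⟫ • y

namespace IsCross

variable {c : T →ₗ[ℝ] T →ₗ[ℝ] T} {c' : T' →ₗ[ℝ] T' →ₗ[ℝ] T'}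

theorem anti (h : IsCross c) (x y : T) : c y x = -c x y := by
  have h1 := h.self (x + y)
  rw [map_add, map_add, LinearMap.add_apply, LinearMap.add_apply, h.self, h.self, zero_add, add_zero] at h1
  exact eq_neg_of_add_eq_zero_right (by rw [add_comm] at h1; exact h1)

theorem inl (h : IsCross c) (x y : T) : ⟪x, c x y⟫ = 0 := by
  rw [← h.tri, h.self, inner_zero_left]

theorem inr (h : IsCross c) (x y : T) : ⟪y, c x y⟫ = 0 := by
  rw [real_inner_comm, h.tri, h.self, inner_zero_right]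

theorem pol (h : IsCross c) (x y z : T) : c x (c y z) + c y (c x z) = ⟪x, z⟫ • y + ⟪y, z⟫ • x - (2 * ⟪x, y⟫) • z := by
  have h1 := h.sq (x + y) z
  have h2 := h.sq x z
  have h3 := h.sq y z
  simp only [map_add, LinearMap.add_apply, inner_add_left, inner_add_right] at h1
  rw [real_inner_comm x y] at h1
  have h4 : c x (c y z) + c y (c x z) = (c x (c x z) + c y (c x z) + (c x (c y z) + c y (c y z))) - c x (c x z) - c y (c y z) := by abel
  rw [h4, h1, h2, h3]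
  module

theorem nrm (h : IsCross c) (x y z : T) : ⟪c x y, c x z⟫ = ⟪x, x⟫ * ⟪y, z⟫ - ⟪x, y⟫ * ⟪x, z⟫ := by
  rw [← h.tri, h.anti x (c x y), h.sq, inner_neg_left, inner_sub_left, inner_smul_left, inner_smul_left]
  simp only [conj_trivial]
  ring

/-- The triple product of orthogonal vectors is alternating. -/
theorem rot (h : IsCross c) {x y z : T} (h1 : ⟪x, y⟫ = 0) (h2 : ⟪x, z⟫ = 0) (h3 : ⟪y, z⟫ = 0) : c x (c y z) = c z (c x y) := by
  have e1 := h.pol x z y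
  rw [h1, h2, real_inner_comm, h3, mul_zero, zero_smul, zero_smul, zero_smul, add_zero, sub_zero] at e1
  rw [h.anti z y, map_neg]
  exact (neg_eq_of_add_eq_zero_right e1)

theorem cyc (h : IsCross c) {x y z : T} (hy : ⟪y, y⟫ = 1) (h1 : ⟪x, y⟫ = 0) (hz : c x y = z) : c y z = x := by
  rw [← hz, h.anti y x, map_neg, h.sq, real_inner_comm, h1, hy, zero_smul, one_smul, zero_sub, neg_neg]

end IsCross

/-- A unit vector orthogonal to few vectors. -/
theorem exists_perp [FiniteDimensional ℝ T] {k : ℕ} (e : Fin k → T) (hk : k < Module.finrank ℝ T) : ∃ u : T, ⟪u, u⟫ = 1 ∧ ∀ i, ⟪e i, u⟫ = 0 := by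
  have h1 : Submodule.span ℝ (Set.range e) ≠ ⊤ := by
    intro h
    have h2 := finrank_range_le_card (R := ℝ) e
    rw [Set.finrank, h, finrank_top, Fintype.card_fin] at h2
    omega
  have h2 : (Submodule.span ℝ (Set.range e))ᗮ ≠ ⊥ := fun h => h1 (Submodule.orthogonal_eq_bot_iff.1 h)
  obtain ⟨w, hw, hw0⟩ := Submodule.exists_mem_ne_zero_of_ne_bot h2
  have h3 : ⟪w, w⟫ ≠ 0 := fun h => hw0 (inner_self_eq_zero.1 h)
  have h4 : ‖w‖ ≠ 0 := norm_ne_zero_iff.2 hw0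
  refine ⟨‖w‖⁻¹ • w, ?_, fun i => ?_⟩
  · rw [inner_smul_left, inner_smul_right, real_inner_self_eq_norm_sq, conj_trivial]
    field_simp
  · rw [inner_smul_right, (Submodule.mem_orthogonal _ _).1 hw (e i) (Submodule.subset_span ⟨i, rfl⟩), mul_zero]

/-- Quaternion frames. -/
structure Fr3 (c : T →ₗ[ℝ] T →ₗ[ℝ] T) (e : Fin 3 → T) : Prop where
  on : ∀ i j, ⟪e i, e j⟫ = if i = j then 1 else 0
  l1 : c (e 0) (e 1) = e 2

/-- Octonion frames. -/
structure Fr7 (c : T →ₗ[ℝ] T →ₗ[ℝ] T) (e : Fin 7 → T) : Prop where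
  on : ∀ i j, ⟪e i, e j⟫ = if i = j then 1 else 0
  l1 : c (e 0) (e 1) = e 2
  l2 : c (e 0) (e 3) = e 4
  l3 : c (e 1) (e 3) = e 5
  l4 : c (e 2) (e 3) = e 6
  l5 : c (e 0) (e 6) = e 5
  l6 : c (e 1) (e 4) = e 6
  l7 : c (e 2) (e 5) = e 4

namespace IsCross

variable {c : T →ₗ[ℝ] T →ₗ[ℝ] T} {c' : T' →ₗ[ℝ] T' →ₗ[ℝ] T'}

theorem exists_fr3 (h : IsCross c) {x y : T} (hx : ⟪x, x⟫ = 1) (hy : ⟪y, y⟫ = 1) (hxy : ⟪x, y⟫ = 0) : Fr3 c ![x, y, c x y] := by
  have hyx : ⟪y, x⟫ = 0 := by rw [real_inner_comm, hxy]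
  have h1 := h.inl x y
  have h2 := h.inr x y
  have h1' := h1
  have h2' := h2
  rw [real_inner_comm] at h1' h2'
  have h3 := h.nrm x y y
  rw [hx, hy, hxy] at h3
  refine ⟨fun i j => ?_, rfl⟩
  fin_cases i <;> fin_cases j <;> simp [-inner_self_eq_norm_sq_to_K, hx, hy, hxy, hyx, h1, h2, h1', h2', h3]

theorem line (h : IsCross c) {x y z : T} (hx : ⟪x, x⟫ = 1) (hy : ⟪y, y⟫ = 1) (hxy : ⟪x, y⟫ = 0) (hz : c x y = z) :
    c y z = x ∧ c z x = y ∧ c y x = -z ∧ c z y = -x ∧ c x z = -y := by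
  have hyz := h.cyc hy hxy hz
  have hzx : c z x = y := by
    have h1 : c x z = -y := by rw [← hz, h.sq, hxy, hx, zero_smul, one_smul, zero_sub]
    rw [h.anti, h1, neg_neg]
  refine ⟨hyz, hzx, ?_, ?_, ?_⟩
  · rw [h.anti, hz]
  · rw [h.anti, hyz]
  · rw [h.anti, hzx]

theorem exists_fr7 (h : IsCross c) {x y z : T} (hx : ⟪x, x⟫ = 1) (hy : ⟪y, y⟫ = 1) (hz : ⟪z, z⟫ = 1) (hxy : ⟪x, y⟫ = 0)
    (hxz : ⟪x, z⟫ = 0) (hyz : ⟪y, z⟫ = 0) (hwz : ⟪c x y, z⟫ = 0) :
    Fr7 c ![x, y, c x y, z, c x z, c y z, c (c x y) z] := by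
  obtain ⟨w, hw⟩ : ∃ w, w = c x y := ⟨_, rfl⟩
  rw [← hw] at hwz ⊢
  obtain ⟨l1, l2, l3, l4, l5⟩ := h.line hx hy hxy hw.symm
  have hyx : ⟪y, x⟫ = 0 := by rw [real_inner_comm, hxy]
  have hzx : ⟪z, x⟫ = 0 := by rw [real_inner_comm, hxz]
  have hzy : ⟪z, y⟫ = 0 := by rw [real_inner_comm, hyz]
  have hzw : ⟪z, w⟫ = 0 := by rw [real_inner_comm, hwz]
  have hxw : ⟪x, w⟫ = 0 := by rw [hw, h.inl]
  have hyw : ⟪y, w⟫ = 0 := by rw [hw, h.inr]
  have hwx : ⟪w, x⟫ = 0 := by rw [real_inner_comm, hxw]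
  have hwy : ⟪w, y⟫ = 0 := by rw [real_inner_comm, hyw]
  have hww : ⟪w, w⟫ = 1 := by
    rw [hw, h.nrm, hx, hy, hxy]
    norm_num
  -- products with z
  have hp : ∀ a b : T, ⟪a, z⟫ = 0 → ⟪b, z⟫ = 0 → ⟪c a z, c b z⟫ = ⟪a, b⟫ := by
    intro a b ha hb
    rw [h.anti z a, h.anti z b, inner_neg_left, inner_neg_right, neg_neg, h.nrm, real_inner_comm a z, ha, hz]
    ring
  have hq : ∀ a b : T, ⟪a, z⟫ = 0 → ⟪b, z⟫ = 0 → ⟪c a b, z⟫ = 0 → ⟪a, c b z⟫ = 0 ∧ ⟪c b z, a⟫ = 0 := by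
    intro a b _ _ h3
    rw [← h.tri, h3, real_inner_comm, ← h.tri, h3]
    exact ⟨rfl, rfl⟩
  have q1 := hq x x hxz hxz (by rw [h.self, inner_zero_left])
  have q2 := hq x y hxz hyz (by rw [← hw, hwz])
  have q3 := hq x w hxz hwz (by rw [l5, inner_neg_left, hyz, neg_zero])
  have q4 := hq y x hyz hxz (by rw [l3, inner_neg_left, hwz, neg_zero])
  have q5 := hq y y hyz hyz (by rw [h.self, inner_zero_left])
  have q6 := hq y w hyz hwz (by rw [l1, hxz])
  have q7 := hq w x hwz hxz (by rw [l2, hyz])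
  have q8 := hq w y hwz hyz (by rw [l4, inner_neg_left, hxz, neg_zero])
  have q9 := hq w w hwz hwz (by rw [h.self, inner_zero_left])
  have r1 : ∀ a, ⟪z, c a z⟫ = 0 ∧ ⟪c a z, z⟫ = 0 := fun a => ⟨h.inr a z, by rw [real_inner_comm, h.inr a z]⟩
  have p1 := hp x x hxz hxz
  have p2 := hp x y hxz hyz
  have p3 := hp x w hxz hwz
  have p4 := hp y x hyz hxz
  have p5 := hp y y hyz hyz
  have p6 := hp y w hyz hwz
  have p7 := hp w x hwz hxz
  have p8 := hp w y hwz hyz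
  have p9 := hp w w hwz hwz
  refine ⟨fun i j => ?_, ?_, ?_, ?_, ?_, ?_, ?_, ?_⟩
  · fin_cases i <;> fin_cases j <;> simp [-inner_self_eq_norm_sq_to_K, hx, hy, hz, hxy, hyx, hxz, hzx, hyz, hzy, hwz, hzw, hxw, hwx, hyw, hwy, hww, q1, q2, q3, q4, q5,
      q6, q7, q8, q9, r1, p1, p2, p3, p4, p5, p6, p7, p8, p9]
  · exact hw.symm
  · rfl
  · rfl
  · rfl
  · change c x (c w z) = c y z
    rw [h.rot hxw hxz hwz, l5, map_neg, h.anti y z, neg_neg]
  · change c y (c x z) = c w z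
    rw [h.rot hyx hyz hxz, l3, map_neg, h.anti w z, neg_neg]
  · change c w (c y z) = c x z
    rw [h.rot hwy hwz hyz, l4, map_neg, h.anti x z, neg_neg]

/-- Eight orthonormal vectors are impossible. -/
theorem not_eight (h : IsCross c) {e : Fin 7 → T} (he : Fr7 c e) {u : T} (hu : ⟪u, u⟫ = 1) (h0 : ∀ i, ⟪e i, u⟫ = 0) : False := by
  have o : ∀ i j, i ≠ j → ⟪e i, e j⟫ = 0 := fun i j hij => by rw [he.on, if_neg hij]
  -- e3 * u is orthogonal to e0, e1, e2
  have o0 : ⟪e 0, c (e 3) u⟫ = 0 := by rw [← h.tri, he.l2, h0]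
  have o1 : ⟪e 1, c (e 3) u⟫ = 0 := by rw [← h.tri, he.l3, h0]
  have a1 : c (e 0) (c (e 1) (c (e 3) u)) = c (e 6) u := by
    rw [h.rot (o 0 1 (by decide)) o0 o1, he.l1, h.anti (e 2), h.rot (o 2 3 (by decide)) (h0 2) (h0 3), he.l4, h.anti (e 6) u]
    simp
  have a2 : c (e 0) (c (e 1) (c (e 3) u)) = -c (e 6) u := by
    rw [h.rot (x := e 1) (o 1 3 (by decide)) (h0 1) (h0 3), he.l3, h.anti (e 5) u, map_neg, h.rot (o 0 5 (by decide)) (h0 0) (h0 5)]
    have h1 : c (e 0) (e 5) = -e 6 := by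
      rw [← he.l5]
      rw [h.sq, he.on, he.on]
      simp
    rw [h1, map_neg, neg_neg, h.anti (e 6) u]
  have a3 : c (e 6) u = 0 := by
    have h1 := a1.symm.trans a2
    have h2 : (2 : ℝ) • c (e 6) u = 0 := by
      rw [two_smul]
      nth_rewrite 2 [h1]
      rw [add_neg_cancel]
    exact (smul_eq_zero.1 h2).resolve_left two_ne_zero
  have a4 := h.nrm (e 6) u u
  rw [a3, inner_zero_left, hu, h0, he.on] at a4
  norm_num at a4

theorem exists_fr7_of [FiniteDimensional ℝ T] (h : IsCross c) (hd : 3 < Module.finrank ℝ T) : ∃ e : Fin 7 → T, Fr7 c e := by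
  obtain ⟨x, hx, -⟩ := exists_perp (T := T) (k := 0) ![] (by omega)
  obtain ⟨y, hy, hxy⟩ := exists_perp (T := T) (k := 1) ![x] (by omega)
  have hxy : ⟪x, y⟫ = 0 := hxy 0
  obtain ⟨z, hz, hz0⟩ := exists_perp (T := T) (k := 3) ![x, y, c x y] (by omega)
  exact ⟨_, h.exists_fr7 hx hy hz hxy (hz0 0) (hz0 1) (hz0 2)⟩

theorem exists_fr3_of [FiniteDimensional ℝ T] (h : IsCross c) (hd : 1 < Module.finrank ℝ T) : ∃ e : Fin 3 → T, Fr3 c e := by
  obtain ⟨x, hx, -⟩ := exists_perp (T := T) (k := 0) ![] (by omega)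
  obtain ⟨y, hy, hxy⟩ := exists_perp (T := T) (k := 1) ![x] (by omega)
  exact ⟨_, h.exists_fr3 hx hy (hxy 0)⟩

end IsCross

theorem card_le_of_on [FiniteDimensional ℝ T] {n : ℕ} {e : Fin n → T} (he : ∀ i j, ⟪e i, e j⟫ = if i = j then (1 : ℝ) else 0) :
    n ≤ Module.finrank ℝ T := by
  have h1 : Orthonormal ℝ e := orthonormal_iff_ite.2 he
  have h2 := h1.linearIndependent.fintype_card_le_finrank
  rwa [Fintype.card_fin] at h2

theorem exists_onb_of_on [FiniteDimensional ℝ T] {n : ℕ} {e : Fin n → T} (he : ∀ i j, ⟪e i, e j⟫ = if i = j then (1 : ℝ) else 0)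
    (hn : Module.finrank ℝ T = n) : ∃ B : OrthonormalBasis (Fin n) ℝ T, ∀ i, B i = e i := by
  have h1 : Orthonormal ℝ e := orthonormal_iff_ite.2 he
  have h2 : ⊤ ≤ Submodule.span ℝ (Set.range e) := by
    rw [h1.linearIndependent.span_eq_top_of_card_eq_finrank' (by rw [Fintype.card_fin, hn])]
  exact ⟨OrthonormalBasis.mk h1 h2, fun i => by rw [OrthonormalBasis.coe_mk]⟩

namespace IsCross

variable {c : T →ₗ[ℝ] T →ₗ[ℝ] T} {c' : T' →ₗ[ℝ] T' →ₗ[ℝ] T'}

/-- **Hurwitz**: the dimensions of the vector cross products. -/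
theorem dim [FiniteDimensional ℝ T] (h : IsCross c) : Module.finrank ℝ T = 0 ∨ Module.finrank ℝ T = 1 ∨ Module.finrank ℝ T = 3 ∨
    Module.finrank ℝ T = 7 := by
  by_cases h1 : Module.finrank ℝ T ≤ 1
  · omega
  obtain ⟨e, he⟩ := h.exists_fr3_of (by omega)
  have h3 := card_le_of_on he.on
  by_cases h4 : Module.finrank ℝ T ≤ 3
  · omega
  obtain ⟨f, hf⟩ := h.exists_fr7_of (by omega)
  have h5 := card_le_of_on hf.on
  by_cases h6 : Module.finrank ℝ T ≤ 7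
  · omega
  obtain ⟨u, hu, hu0⟩ := exists_perp f (by omega)
  exact (h.not_eight hf hu hu0).elim

theorem ext_onb {n : ℕ} (B : OrthonormalBasis (Fin n) ℝ T) (ψ : T →ₗ[ℝ] T') (hB : ∀ i j, ψ (c (B i) (B j)) = c' (ψ (B i)) (ψ (B j))) (x y : T) :
    ψ (c x y) = c' (ψ x) (ψ y) := by
  have h1 : c.compr₂ ψ = c'.compl₁₂ ψ ψ := by
    refine LinearMap.ext_basis B.toBasis B.toBasis fun i j => ?_
    rw [B.coe_toBasis]
    exact hB i j
  exact LinearMap.congr_fun (LinearMap.congr_fun h1 x) y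

/-- **Uniqueness of the vector cross products.** -/
theorem unique [FiniteDimensional ℝ T] [FiniteDimensional ℝ T'] (h : IsCross c) (h' : IsCross c')
    (hd : Module.finrank ℝ T = Module.finrank ℝ T') : ∃ ψ : T ≃ₗᵢ[ℝ] T', ∀ x y, ψ (c x y) = c' (ψ x) (ψ y) := by
  -- it suffices to find adapted bases
  have key : ∀ {n : ℕ} (e : Fin n → T) (e' : Fin n → T'), (∀ i j, ⟪e i, e j⟫ = if i = j then (1 : ℝ) else 0) →
      (∀ i j, ⟪e' i, e' j⟫ = if i = j then (1 : ℝ) else 0) → Module.finrank ℝ T = n →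
      (∀ ψ : T →ₗ[ℝ] T', (∀ i, ψ (e i) = e' i) → ∀ i j, ψ (c (e i) (e j)) = c' (e' i) (e' j)) →
      ∃ ψ : T ≃ₗᵢ[ℝ] T', ∀ x y, ψ (c x y) = c' (ψ x) (ψ y) := by
    intro n e e' he he' hn hk
    obtain ⟨B, hB⟩ := exists_onb_of_on he hn
    obtain ⟨B', hB'⟩ := exists_onb_of_on he' (by rw [← hd, hn])
    have h1 : ∀ i, B.equiv B' (Equiv.refl _) (e i) = e' i := fun i => by
      rw [← hB, OrthonormalBasis.equiv_apply_basis, Equiv.refl_apply, hB']
    refine ⟨B.equiv B' (Equiv.refl _), fun x y => ?_⟩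
    refine ext_onb B (B.equiv B' (Equiv.refl _)).toLinearEquiv.toLinearMap (fun i j => ?_) x y
    have h2 := hk (B.equiv B' (Equiv.refl _)).toLinearEquiv.toLinearMap h1 i j
    rw [hB, hB]
    exact h2.trans (by rw [← h1, ← h1]; rfl)
  rcases h.dim with h1 | h1 | h1 | h1
  · exact key (n := 0) ![] ![] (fun i => i.elim0) (fun i => i.elim0) h1 (fun _ _ i => i.elim0)
  · obtain ⟨x, hx, -⟩ := exists_perp (T := T) (k := 0) ![] (by omega)
    obtain ⟨x', hx', -⟩ := exists_perp (T := T') (k := 0) ![] (by omega)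
    refine key (n := 1) ![x] ![x'] (fun i j => ?_) (fun i j => ?_) h1 (fun ψ hψ i j => ?_)
    · fin_cases i; fin_cases j; simpa using hx
    · fin_cases i; fin_cases j; simpa using hx'
    · fin_cases i; fin_cases j
      change ψ (c x x) = c' x' x'
      rw [h.self, h'.self, map_zero]
  · obtain ⟨e, he⟩ := h.exists_fr3_of (by omega)
    obtain ⟨e', he'⟩ := h'.exists_fr3_of (by omega)
    refine key e e' he.on he'.on h1 (fun ψ hψ i j => ?_)
    obtain ⟨a1, a2, a3, a4, a5⟩ := h.line (by rw [he.on]; simp) (by rw [he.on]; simp) (by rw [he.on]; simp) he.l1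
    obtain ⟨b1, b2, b3, b4, b5⟩ := h'.line (by rw [he'.on]; simp) (by rw [he'.on]; simp) (by rw [he'.on]; simp) he'.l1
    fin_cases i <;> fin_cases j <;> simp [h.self, h'.self, he.l1, he'.l1, a1, a2, a3, a4, a5, b1, b2, b3, b4, b5, hψ]
  · obtain ⟨e, he⟩ := h.exists_fr7_of (by omega)
    obtain ⟨e', he'⟩ := h'.exists_fr7_of (by omega)
    refine key e e' he.on he'.on h1 (fun ψ hψ i j => ?_)
    obtain ⟨a1, a2, a3, a4, a5⟩ := h.line (by rw [he.on]; simp) (by rw [he.on]; simp) (by rw [he.on]; simp) he.l1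
    obtain ⟨b1, b2, b3, b4, b5⟩ := h'.line (by rw [he'.on]; simp) (by rw [he'.on]; simp) (by rw [he'.on]; simp) he'.l1
    obtain ⟨c1, c2, c3, c4, c5⟩ := h.line (by rw [he.on]; simp) (by rw [he.on]; simp) (by rw [he.on]; simp) he.l2
    obtain ⟨d1, d2, d3, d4, d5⟩ := h'.line (by rw [he'.on]; simp) (by rw [he'.on]; simp) (by rw [he'.on]; simp) he'.l2
    obtain ⟨f1, f2, f3, f4, f5⟩ := h.line (by rw [he.on]; simp) (by rw [he.on]; simp) (by rw [he.on]; simp) he.l3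
    obtain ⟨g1, g2, g3, g4, g5⟩ := h'.line (by rw [he'.on]; simp) (by rw [he'.on]; simp) (by rw [he'.on]; simp) he'.l3
    obtain ⟨i1, i2, i3, i4, i5⟩ := h.line (by rw [he.on]; simp) (by rw [he.on]; simp) (by rw [he.on]; simp) he.l4
    obtain ⟨j1, j2, j3, j4, j5⟩ := h'.line (by rw [he'.on]; simp) (by rw [he'.on]; simp) (by rw [he'.on]; simp) he'.l4
    obtain ⟨k1, k2, k3, k4, k5⟩ := h.line (by rw [he.on]; simp) (by rw [he.on]; simp) (by rw [he.on]; simp) he.l5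
    obtain ⟨l1, l2, l3, l4, l5⟩ := h'.line (by rw [he'.on]; simp) (by rw [he'.on]; simp) (by rw [he'.on]; simp) he'.l5
    obtain ⟨m1, m2, m3, m4, m5⟩ := h.line (by rw [he.on]; simp) (by rw [he.on]; simp) (by rw [he.on]; simp) he.l6
    obtain ⟨n1, n2, n3, n4, n5⟩ := h'.line (by rw [he'.on]; simp) (by rw [he'.on]; simp) (by rw [he'.on]; simp) he'.l6
    obtain ⟨p1, p2, p3, p4, p5⟩ := h.line (by rw [he.on]; simp) (by rw [he.on]; simp) (by rw [he.on]; simp) he.l7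
    obtain ⟨q1, q2, q3, q4, q5⟩ := h'.line (by rw [he'.on]; simp) (by rw [he'.on]; simp) (by rw [he'.on]; simp) he'.l7
    have u1 := he.l1
    have u2 := he.l2
    have u3 := he.l3
    have u4 := he.l4
    have u5 := he.l5
    have u6 := he.l6
    have u7 := he.l7
    have v1 := he'.l1
    have v2 := he'.l2
    have v3 := he'.l3
    have v4 := he'.l4
    have v5 := he'.l5
    have v6 := he'.l6
    have v7 := he'.l7
    fin_cases i <;> fin_cases j <;> simp [h.self, h'.self, hψ, *]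

end IsCross

end Pool.Agent.Helper25.AE
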