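import Pool.Agent.Helper25.AE.Mult

/-!
# Project MP_0f6f3f_an, layer AE (algebraic end): the final theorem, modulo the edges of type `BC_2`

`ae_fin`: two simple real Lie algebras of real rank at least two with the same Cartan integers and the same multiplicities `dim g_(al i)`, `dim g_(2 al i)` are isomorphic; the facts on the edges of type `BC_2` are hypotheses.
-/

set_option autoImplicit false

namespace Pool.Agent.Helper25.AE

open Pool.Agent.Helper96.SA Pool.Agent.Helper96.TO Pool.Agent.Helper69.SLN Pool.Agent.Helper77.TZ2 Pool.Agent.Helper77.LA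
  Pool.Agent.Helper77.AE Pool.Agent.Helper77.ST Pool.Agent.Helper95.AE Pool.Agent.Helper68.AE

variable {L L' : Type} [LieRing L] [LieAlgebra ℝ L] [LieRing L'] [LieAlgebra ℝ L'] {N N' : ℕ} {θ : L ≃ₗ⁅ℝ⁆ L} {θ' : L' ≃ₗ⁅ℝ⁆ L'}
  {b : Module.Basis (Fin N) ℝ L} {b' : Module.Basis (Fin N') ℝ L'} {A : Submodule ℝ L} {A' : Submodule ℝ L'}
  {τ : Module.Dual ℝ A ≃ₗ[ℝ] A} {τ' : Module.Dual ℝ A' ≃ₗ[ℝ] A'} {ι : Type} {al : ι → Module.Dual ℝ A} {al' : ι → Module.Dual ℝ A'}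

/-- The dimensions of an edge of type `BC_2`. -/
def BCDim (θ : L ≃ₗ⁅ℝ⁆ L) (b : Module.Basis (Fin N) ℝ L) (A : Submodule ℝ L) (τ : Module.Dual ℝ A ≃ₗ[ℝ] A) : Prop :=
  ∀ (α β : Module.Dual ℝ A) (ν : ℝ), Two θ b A τ α β ν → α ∈ rootsL A → β ∈ rootsL A → β + β ∈ rootsL A →
    2 ≤ Module.finrank ℝ (rsp A α) ∧ 2 ≤ Module.finrank ℝ (rsp A β)

/-- The uniqueness of the edges of type `BC_2`. -/
def BCEdge (θ : L ≃ₗ⁅ℝ⁆ L) (θ' : L' ≃ₗ⁅ℝ⁆ L') (b : Module.Basis (Fin N) ℝ L) (b' : Module.Basis (Fin N') ℝ L') (A : Submodule ℝ L)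
    (A' : Submodule ℝ L') (τ : Module.Dual ℝ A ≃ₗ[ℝ] A) (τ' : Module.Dual ℝ A' ≃ₗ[ℝ] A') : Prop :=
  ∀ (α β : Module.Dual ℝ A) (ν : ℝ) (α' β' : Module.Dual ℝ A') (ν' : ℝ), Two θ b A τ α β ν → Two θ' b' A' τ' α' β' ν' →
    α ∈ rootsL A → β ∈ rootsL A → β + β ∈ rootsL A → α' ∈ rootsL A' → β' ∈ rootsL A' → β' + β' ∈ rootsL A' →
    Module.finrank ℝ (rsp A α) = Module.finrank ℝ (rsp A' α') → Module.finrank ℝ (rsp A β) = Module.finrank ℝ (rsp A' β') →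
    Module.finrank ℝ (rsp A (β + β)) = Module.finrank ℝ (rsp A' (β' + β')) →
    ∃ F G : L →ₗ[ℝ] L', IsoOn θ θ' ν ν' β β' F ∧ IsoOn θ θ' ν ν' α α' G ∧ TC θ θ' A ν ν' β α F G ∧ TC θ θ' A ν ν' β β F F

theorem finrank_zero_of {φ : Module.Dual ℝ A} (h0 : φ ≠ 0) (h : φ ∉ rootsL A) : Module.finrank ℝ (rsp A φ) = 0 := by
  have : Subsingleton (rsp A φ) := ⟨fun x y => Subtype.ext (by
    rw [Wv.eq_zero x.2 h h0, Wv.eq_zero y.2 h h0])⟩
  exact Module.finrank_zero_of_subsingleton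

theorem two_ne {φ : Module.Dual ℝ A} (h : φ ∈ rootsL A) : φ + φ ≠ 0 := by
  rw [← two_smul ℝ]
  exact smul_ne_zero two_ne_zero h.1

theorem two_root_iff (b : Module.Basis (Fin N) ℝ L) (b' : Module.Basis (Fin N') ℝ L') {φ : Module.Dual ℝ A} {φ' : Module.Dual ℝ A'}
    (h : φ ∈ rootsL A) (h' : φ' ∈ rootsL A')
    (hd : Module.finrank ℝ (rsp A (φ + φ)) = Module.finrank ℝ (rsp A' (φ' + φ'))) : φ + φ ∈ rootsL A ↔ φ' + φ' ∈ rootsL A' := by
  constructor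
  · intro h1
    by_contra h2
    have h3 := finrank_pos_of_root b h1
    rw [hd, finrank_zero_of (two_ne h') h2] at h3
    exact lt_irrefl _ h3
  · intro h1
    by_contra h2
    have h3 := finrank_pos_of_root b' h1
    rw [← hd, finrank_zero_of (two_ne h) h2] at h3
    exact lt_irrefl _ h3

/-- The long root of a pair of type `B_2`, `BC_2` has no double. -/
theorem two_long {α β : Module.Dual ℝ A} {ν : ℝ} (c : Two θ b A τ α β ν) : α + α ∉ rootsL A := by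
  have h1 := c.nr (m := 2) (n := 0) (by decide)
  intro h2
  apply h1
  convert h2 using 1
  push_cast
  module

/-- (M3). -/
theorem SD.m3 (s : SD θ b A τ al) (hD : BCDim θ b A τ) (i j : ι) (hij : i ≠ j) (h0 : al j (τ (al i)) ≠ 0) (h2 : al j + al j ∈ rootsL A) :
    2 ≤ Module.finrank ℝ (rsp A (al i)) ∧ 2 ≤ Module.finrank ℝ (rsp A (al j)) := by
  by_cases hA2 : A2E A τ (al i) (al j)
  · exact absurd h2 ((hA2.symm s.hτ s.hA).not_two s.hτ s.h s.hA)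
  rcases s.multi hij h0 hA2 with ⟨ν, hi⟩ | ⟨ν, hi⟩ | hg | hg
  · exact hD _ _ ν (two_of_cartan s.h s.hA s.hτ (s.hS.root i) (s.hS.root j) hi) (s.hS.root i) (s.hS.root j) h2
  · exact absurd h2 (two_long (two_of_cartan s.h s.hA s.hτ (s.hS.root j) (s.hS.root i) hi))
  · exact absurd h2 hg.aa
  · exact absurd h2 hg.b2

/-- (M2). -/
theorem SD.m2 (s : SD θ b A τ al) (i j : ι) (hij : i ≠ j) (h0 : al j (τ (al i)) ≠ 0) (h1 : ¬ A2E A τ (al i) (al j))
    (_di : 2 ≤ Module.finrank ℝ (rsp A (al i))) (dj : 2 ≤ Module.finrank ℝ (rsp A (al j))) (h2 : al i + al i ∉ rootsL A) :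
    Module.finrank ℝ (rsp A (al i + al j)) < 2 * Module.finrank ℝ (rsp A (al j)) := by
  rcases s.multi hij h0 h1 with ⟨ν, hi⟩ | ⟨ν, hi⟩ | hg | hg
  · have c := two_of_cartan s.h s.hA s.hτ (s.hS.root i) (s.hS.root j) hi
    rw [c.finrank_U (s.hS.root i)]
    omega
  · have c := two_of_cartan s.h s.hA s.hτ (s.hS.root j) (s.hS.root i) hi
    rw [add_comm, c.finrank_U (s.hS.root j)]
    have h3 := b2_dims c h2 (s.hS.root j) (s.hS.root i)
    omega
  · rw [add_comm]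
    exact hg.m2.1
  · exact hg.m2.2

/-- (M1), at the long node. -/
theorem PD.me_two (p : PD θ θ' b b' A A' τ τ' al al') (hd2 : ∀ i, Module.finrank ℝ (rsp A (al i + al i)) = Module.finrank ℝ (rsp A' (al' i + al' i)))
    (hE : BCEdge θ θ' b b' A A' τ τ') {i j : ι} {ν : ℝ} (hi : IP2 τ (al i) (al j) ν) : ME θ θ' τ τ' (al i) (al j) (al' i) (al' j) := by
  have h3 := two_root_iff b b' (p.s.hS.root j) (p.s'.hS.root j) (hd2 j)
  by_cases hB : al j + al j ∈ rootsL A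
  · have hB' := h3.1 hB
    have hi' := p.ip2 hi
    have c := two_of_cartan p.s.h p.s.hA p.s.hτ (p.s.hS.root i) (p.s.hS.root j) hi
    have c' := two_of_cartan p.s'.h p.s'.hA p.s'.hτ (p.s'.hS.root i) (p.s'.hS.root j) hi'
    obtain ⟨F, G, hF, hG, hT, hT2⟩ := hE _ _ _ _ _ _ c c' (p.s.hS.root i) (p.s.hS.root j) hB (p.s'.hS.root i) (p.s'.hS.root j) hB'
      (p.hd i) (p.hd j) (hd2 j)
    have hF' : IsoN θ θ' τ τ' (al j) (al' j) F := hF.scale (c := 1) (by rw [hi.bb, one_mul]) (by rw [one_mul])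
    have hG' : IsoN θ θ' τ τ' (al i) (al' i) G := hG.scale (c := 2) hi.aa hi'.aa
    have hT' : TCN θ θ' τ τ' (al j) (al i) (al' i) F G := hT.scale (c := 2) hi.aa hi'.aa
    have h0 : al i (τ (al j)) ≠ 0 := by
      rw [hi.ab]
      have := hi.pos
      linarith
    exact ⟨G, F, hG', hF', p.tc_symm h0 hT', hT', p.tc_self (two_long c) (two_long c') hG',
      hT2.scale (c := 1) (by rw [hi.bb, one_mul]) (by rw [one_mul])⟩
  · exact p.me_b2 hi hB (fun h => hB (h3.2 h))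

/-- **The final theorem**, modulo `BC_2`. -/
theorem ae_fin [Fintype ι] [Nontrivial ι] [LieAlgebra.IsSimple ℝ L] [LieAlgebra.IsSimple ℝ L'] (s : SD θ b A τ al) (s' : SD θ' b' A' τ' al')
    (hC : ∀ i j, al j (τ (al i)) * al' i (τ' (al' i)) = al' j (τ' (al' i)) * al i (τ (al i)))
    (hd : ∀ i, Module.finrank ℝ (rsp A (al i)) = Module.finrank ℝ (rsp A' (al' i)))
    (hd2 : ∀ i, Module.finrank ℝ (rsp A (al i + al i)) = Module.finrank ℝ (rsp A' (al' i + al' i)))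
    (hD : BCDim θ b A τ) (hD' : BCDim θ' b' A' τ') (hE : BCEdge θ θ' b b' A A' τ τ') :
    ∃ e : L ≃ₗ⁅ℝ⁆ L', ∀ x, e (θ x) = θ' (e x) := by
  have p : PD θ θ' b b' A A' τ τ' al al' := ⟨s, s', hC, hd⟩
  refine glue p (fun i j hij h0 h1 _ _ => ?_) (fun i j hij h0 h1 di dj h2 => s'.m2 i j hij h0 h1 di dj h2)
    (fun i j hij h0 h2 => s.m3 hD i j hij h0 h2) (fun i j hij h0 h2 => s'.m3 hD' i j hij h0 h2)
  rcases s.multi hij h0 h1 with ⟨ν, hi⟩ | ⟨ν, hi⟩ | hg | hg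
  · exact p.me_two hd2 hE hi
  · exact (p.me_two hd2 hE hi).symm
  · exact p.me_g2 hij hg
  · exact (p.me_g2 hij.symm hg).symm

end Pool.Agent.Helper25.AE
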