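import Pool.Agent.Helper25.AE.SD

/-!
# Project MP_0f6f3f_an, layer AE (algebraic end): the gluing theorem

`glue`: two simple real Lie algebras of real rank at least two with the same Cartan integers and the same multiplicities of the simple restricted roots are isomorphic, if this holds for the multiple edges with both multiplicities
at least two (hypotheses `hM1`, `hM2`, `hM3`).
-/

set_option autoImplicit false

namespace Pool.Agent.Helper25.AE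

open Pool.Agent.Helper96.SA Pool.Agent.Helper96.TO Pool.Agent.Helper69.SLN Pool.Agent.Helper77.TZ2 Pool.Agent.Helper77.LA
  Pool.Agent.Helper77.AE Pool.Agent.Helper77.ST Pool.Agent.Helper95.AE

variable {L L' : Type} [LieRing L] [LieAlgebra ℝ L] [LieRing L'] [LieAlgebra ℝ L'] {N N' : ℕ} {θ : L ≃ₗ⁅ℝ⁆ L} {θ' : L' ≃ₗ⁅ℝ⁆ L'}
  {b : Module.Basis (Fin N) ℝ L} {b' : Module.Basis (Fin N') ℝ L'} {A : Submodule ℝ L} {A' : Submodule ℝ L'}
  {τ : Module.Dual ℝ A ≃ₗ[ℝ] A} {τ' : Module.Dual ℝ A' ≃ₗ[ℝ] A'} {ι : Type} {al : ι → Module.Dual ℝ A} {al' : ι → Module.Dual ℝ A'}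

/-- Two Lie algebras with the same data. -/
structure PD (θ : L ≃ₗ⁅ℝ⁆ L) (θ' : L' ≃ₗ⁅ℝ⁆ L') (b : Module.Basis (Fin N) ℝ L) (b' : Module.Basis (Fin N') ℝ L') (A : Submodule ℝ L)
    (A' : Submodule ℝ L') (τ : Module.Dual ℝ A ≃ₗ[ℝ] A) (τ' : Module.Dual ℝ A' ≃ₗ[ℝ] A') (al : ι → Module.Dual ℝ A)
    (al' : ι → Module.Dual ℝ A') : Prop where
  s : SD θ b A τ al
  s' : SD θ' b' A' τ' al'
  hC : ∀ i j, al j (τ (al i)) * al' i (τ' (al' i)) = al' j (τ' (al' i)) * al i (τ (al i))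
  hd : ∀ i, Module.finrank ℝ (rsp A (al i)) = Module.finrank ℝ (rsp A' (al' i))

/-- The isometries at a node. -/
abbrev IsoN (θ : L ≃ₗ⁅ℝ⁆ L) (θ' : L' ≃ₗ⁅ℝ⁆ L') (τ : Module.Dual ℝ A ≃ₗ[ℝ] A) (τ' : Module.Dual ℝ A' ≃ₗ[ℝ] A') (φ : Module.Dual ℝ A)
    (φ' : Module.Dual ℝ A') (F : L →ₗ[ℝ] L') : Prop := IsoOn θ θ' (φ (τ φ)) (φ' (τ' φ')) φ φ' F

/-- The compatibility at an edge. -/
abbrev TCN (θ : L ≃ₗ⁅ℝ⁆ L) (θ' : L' ≃ₗ⁅ℝ⁆ L') (τ : Module.Dual ℝ A ≃ₗ[ℝ] A) (τ' : Module.Dual ℝ A' ≃ₗ[ℝ] A') (φ ψ : Module.Dual ℝ A)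
    (ψ' : Module.Dual ℝ A') (F G : L →ₗ[ℝ] L') : Prop := TC θ θ' A (ψ (τ ψ)) (ψ' (τ' ψ')) φ ψ F G

/-- Compatible isometries for an edge. -/
def ME (θ : L ≃ₗ⁅ℝ⁆ L) (θ' : L' ≃ₗ⁅ℝ⁆ L') (τ : Module.Dual ℝ A ≃ₗ[ℝ] A) (τ' : Module.Dual ℝ A' ≃ₗ[ℝ] A') (α β : Module.Dual ℝ A)
    (α' β' : Module.Dual ℝ A') : Prop :=
  ∃ F G : L →ₗ[ℝ] L', IsoN θ θ' τ τ' α α' F ∧ IsoN θ θ' τ τ' β β' G ∧ TCN θ θ' τ τ' α β β' F G ∧ TCN θ θ' τ τ' β α α' G F ∧
    TCN θ θ' τ τ' α α α' F F ∧ TCN θ θ' τ τ' β β β' G G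

theorem A2E.ne {α β : Module.Dual ℝ A} (he : A2E A τ α β) : α ≠ β := fun h => he.d0 (sub_eq_zero.2 h)

theorem finrank_pos_of_root (b : Module.Basis (Fin N) ℝ L) {φ : Module.Dual ℝ A} (hφ : φ ∈ rootsL A) : 0 < Module.finrank ℝ (rsp A φ) := by
  have hL : Module.Finite ℝ L := Module.Finite.of_basis b
  obtain ⟨-, x, hx0, hx⟩ := hφ
  have : Nontrivial (rsp A φ) := ⟨⟨⟨x, hx⟩, 0, fun h1 => hx0 (congrArg Subtype.val h1)⟩⟩
  exact Module.finrank_pos

namespace SD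

theorem tri (s : SD θ b A τ al) {i j k : ι} (hij : i ≠ j) (hjk : j ≠ k) (hik : i ≠ k) (h1 : al j (τ (al i)) ≠ 0) (h2 : al k (τ (al j)) ≠ 0) :
    al k (τ (al i)) = 0 := by
  by_contra h3
  exact (s.bnr_ne i k).2 h3 (s.dia.tri hij hjk hik ((s.bnr_ne i j).2 h1) ((s.bnr_ne j k).2 h2))

theorem comm (s : SD θ b A τ al) {i j : ι} (hij : i ≠ j) (h0 : al j (τ (al i)) = 0) {z v : L} (hz : Wv A (al j) z) (hv : Wv A (al i) v) :
    ⁅v, z⁆ = 0 ∧ ⁅v, θ z⁆ = 0 := by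
  have d1 := s.hS.dif i j hij
  refine ⟨comm_of_orth s.hτ s.h s.hA d1.1 d1.2 h0 hv hz, ?_⟩
  have h1 := hv.lie (hz.theta s.hA)
  rw [← sub_eq_add_neg] at h1
  exact h1.eq_zero d1.2 d1.1

theorem adj_symm (s : SD θ b A τ al) {i j : ι} (h : al j (τ (al i)) ≠ 0) : al i (τ (al j)) ≠ 0 := by
  rw [← s.symm]
  exact h

theorem a2_adj (s : SD θ b A τ al) {i j : ι} (h : A2E A τ (al i) (al j)) : al j (τ (al i)) ≠ 0 := by
  have h1 := h.ab
  have h2 := s.pos i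
  intro h3
  rw [h3] at h1
  linarith

theorem a2_ne {i j : ι} (h : A2E A τ (al i) (al j)) : i ≠ j := fun h1 => h.ne (congrArg al h1)

end SD

namespace PD

variable (p : PD θ θ' b b' A A' τ τ' al al')

include p

theorem swap : PD θ' θ b' b A' A τ' τ al' al where
  s := p.s'
  s' := p.s
  hC i j := (p.hC i j).symm
  hd i := (p.hd i).symm

theorem orth {i j : ι} (h : al j (τ (al i)) = 0) : al' j (τ' (al' i)) = 0 := by
  have h1 := p.hC i j
  rw [h, zero_mul] at h1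
  exact (mul_eq_zero.1 h1.symm).resolve_right (p.s.pos i).ne'

theorem adj {i j : ι} (h : al j (τ (al i)) ≠ 0) : al' j (τ' (al' i)) ≠ 0 := fun h1 => h (p.swap.orth h1)

theorem ratio {i j : ι} (h : al j (τ (al i)) ≠ 0) : al i (τ (al i)) * al' j (τ' (al' j)) = al' i (τ' (al' i)) * al j (τ (al j)) := by
  have h1 := p.hC i j
  have h2 := p.hC j i
  rw [← p.s.symm i j, ← p.s'.symm i j] at h2
  have h3 := p.adj h
  apply mul_left_cancel₀ h
  apply mul_left_cancel₀ h3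
  linear_combination (-(al' j (τ' (al' i)) * al j (τ (al j)))) * h1 + (al' j (τ' (al' i)) * al i (τ (al i))) * h2

theorem a2 {i j : ι} (h : A2E A τ (al i) (al j)) : A2E A' τ' (al' i) (al' j) := by
  have hij := SD.a2_ne h
  have h1 := p.hC i j
  have h2 := p.s.pos i
  have h3 := p.ratio (p.s.a2_adj h)
  refine ⟨p.s'.hS.root i, p.s'.hS.root j, (p.s'.hS.dif i j hij).1, (p.s'.hS.dif i j hij).2, ?_, ?_⟩
  · have h4 := h.ab
    apply mul_right_cancel₀ h2.ne'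
    linear_combination (-2) * h1 + al' i (τ' (al' i)) * h4
  · have h4 := h.ba
    rw [h4] at h3
    apply mul_left_cancel₀ h2.ne'
    linarith

theorem tc_free {i j : ι} (hij : i ≠ j) (he : al j (τ (al i)) = 0 ∨ Module.finrank ℝ (rsp A (al i)) ≤ 1 ∨ Module.finrank ℝ (rsp A (al j)) ≤ 1)
    {F G : L →ₗ[ℝ] L'} (hF : IsoN θ θ' τ τ' (al i) (al' i) F) (hG : IsoN θ θ' τ τ' (al j) (al' j) G) :
    TCN θ θ' τ τ' (al i) (al j) (al' j) F G := by
  have d1 := p.s.hS.dif i j hij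
  have d2 := p.s'.hS.dif i j hij
  have he' : al' j (τ' (al' i)) = 0 ∨ Module.finrank ℝ (rsp A' (al' i)) ≤ 1 ∨ Module.finrank ℝ (rsp A' (al' j)) ≤ 1 := by
    rw [← p.hd, ← p.hd]
    exact he.imp p.orth id
  exact tc_scalar (s := al j (τ (al i))) (s' := al' j (τ' (al' i))) (p.s'.pos i).ne' (p.hC i j).symm hF hG
    (fun x y v w hx hy hv _ => tn_one p.s.h p.s.hA p.s.hτ d1.1 d1.2 he hx hy hv)
    (fun x y v w hx hy hv _ => tn_one p.s'.h p.s'.hA p.s'.hτ d2.1 d2.2 he' hx hy hv)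

theorem tc_symm {i j : ι} (h : al j (τ (al i)) ≠ 0) {F G : L →ₗ[ℝ] L'} (hT : TCN θ θ' τ τ' (al i) (al j) (al' j) F G) :
    TCN θ θ' τ τ' (al j) (al i) (al' i) G F := TC.symm (p.s.pos j).ne' (p.ratio h) hT

theorem tc_self {i : ι} (h : al i + al i ∉ rootsL A) (h' : al' i + al' i ∉ rootsL A') {F : L →ₗ[ℝ] L'} (hF : IsoN θ θ' τ τ' (al i) (al' i) F) :
    TCN θ θ' τ τ' (al i) (al i) (al' i) F F := by
  refine AE.tc_self ?_ h ?_ h' hF.mem
  · rw [← two_smul ℝ]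
    exact smul_ne_zero two_ne_zero (p.s.hS.root i).1
  · rw [← two_smul ℝ]
    exact smul_ne_zero two_ne_zero (p.s'.hS.root i).1

/-- The extension step. -/
theorem ext {i j k : ι} (hij : i ≠ j) (hik : i ≠ k) (hjk : A2E A τ (al j) (al k)) (h0 : al j (τ (al i)) ≠ 0)
    (hdim : Module.finrank ℝ (rsp A' (al' j + al' i)) < 2 * Module.finrank ℝ (rsp A' (al' i))) {F G : L →ₗ[ℝ] L'}
    (hF : IsoN θ θ' τ τ' (al j) (al' j) F) (hG : IsoN θ θ' τ τ' (al i) (al' i) G) (hT : TCN θ θ' τ τ' (al i) (al j) (al' j) G F) :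
    ∃ H : L →ₗ[ℝ] L', IsoN θ θ' τ τ' (al k) (al' k) H ∧ TCN θ θ' τ τ' (al j) (al k) (al' k) F H := by
  have h1 := p.s.tri hij (SD.a2_ne hjk) hik h0 (p.s.a2_adj hjk)
  have d1 := p.s.hS.dif j i hij.symm
  have d2 := p.s'.hS.dif j i hij.symm
  refine prop_L p.s.h p.s'.h p.s.hA p.s'.hA p.s.hτ p.s'.hτ hjk (p.a2 hjk) (fun z v hz hv => p.s.comm hik h1 hz hv)
    (fun z v hz hv => p.s'.comm hik (p.orth h1) hz hv) d1.1 d1.2 d2.1 d2.2 ?_ hdim hF hG hT
  exact lt_of_le_of_ne (p.s'.ob j i hij.symm) (p.s'.adj_symm (p.adj h0))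

theorem hdim_a2 {i j : ι} (h : A2E A τ (al i) (al j)) :
    Module.finrank ℝ (rsp A' (al' j + al' i)) < 2 * Module.finrank ℝ (rsp A' (al' i)) := by
  have h1 := p.a2 h
  have h2 := h1.finrank_ab p.s'.hτ p.s'.h p.s'.hA
  have h3 := finrank_pos_of_root b' (p.s'.hS.root i)
  rw [add_comm, ← h2]
  omega

/-- The choice at a node. -/
theorem choice (j : ι) : ∃ G : L →ₗ[ℝ] L', IsoN θ θ' τ τ' (al j) (al' j) G ∧ ∀ k, A2E A τ (al j) (al k) →
    ∃ H : L →ₗ[ℝ] L', IsoN θ θ' τ τ' (al k) (al' k) H ∧ TCN θ θ' τ τ' (al j) (al k) (al' k) G H := by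
  by_cases h0 : ∃ k, A2E A τ (al j) (al k)
  · obtain ⟨k, hk⟩ := h0
    obtain ⟨G, H, hG, hH, hT⟩ := a2_edge p.s.h p.s'.h p.s.hA p.s'.hA p.s.hτ p.s'.hτ hk (p.a2 hk) (p.hd j)
    refine ⟨G, hG, fun l hl => ?_⟩
    by_cases hlk : l = k
    · subst hlk
      exact ⟨H, hH, hT⟩
    · exact p.ext (i := k) (j := j) (k := l) (SD.a2_ne hk).symm (Ne.symm hlk) hl (p.s.adj_symm (p.s.a2_adj hk))
        (p.hdim_a2 (hk.symm p.s.hτ p.s.hA)) hG hH (p.tc_symm (p.s.a2_adj hk) hT)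
  · push Not at h0
    obtain ⟨G, hG⟩ := exists_isoOn p.s.h p.s'.h (p.s.pos j) (p.s'.pos j) (p.hd j)
    exact ⟨G, hG, fun k hk => absurd hk (h0 k)⟩

end PD

/-- Good families on a set of nodes. -/
structure Good (θ : L ≃ₗ⁅ℝ⁆ L) (θ' : L' ≃ₗ⁅ℝ⁆ L') (τ : Module.Dual ℝ A ≃ₗ[ℝ] A) (τ' : Module.Dual ℝ A' ≃ₗ[ℝ] A') (al : ι → Module.Dual ℝ A)
    (al' : ι → Module.Dual ℝ A') (S : Finset ι) (F : ι → L →ₗ[ℝ] L') : Prop where
  iso : ∀ i ∈ S, IsoN θ θ' τ τ' (al i) (al' i) (F i)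
  tc : ∀ i ∈ S, ∀ j ∈ S, TCN θ θ' τ τ' (al i) (al j) (al' j) (F i) (F j)
  ex : ∀ i ∈ S, ∀ j, j ∉ S → A2E A τ (al i) (al j) → ∃ G : L →ₗ[ℝ] L', IsoN θ θ' τ τ' (al j) (al' j) G ∧
    TCN θ θ' τ τ' (al i) (al j) (al' j) (F i) G

namespace PD

variable (p : PD θ θ' b b' A A' τ τ' al al')

include p

/-- The start at a node. -/
theorem start_one {i : ι} (h : al i + al i ∉ rootsL A) (h' : al' i + al' i ∉ rootsL A') : ∃ F, Good θ θ' τ τ' al al' {i} F := by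
  obtain ⟨G, hG, hG2⟩ := p.choice i
  refine ⟨fun _ => G, ⟨fun k hk => ?_, fun k hk l hl => ?_, fun k hk l _ hkl => ?_⟩⟩
  · rw [Finset.mem_singleton.1 hk]
    exact hG
  · rw [Finset.mem_singleton.1 hk, Finset.mem_singleton.1 hl]
    exact p.tc_self h h' hG
  · rw [Finset.mem_singleton.1 hk] at hkl ⊢
    exact hG2 l hkl

/-- The start at a multiple edge. -/
theorem start_two [DecidableEq ι] {i j : ι} (hij : i ≠ j) (h0 : al j (τ (al i)) ≠ 0) (h1 : ME θ θ' τ τ' (al i) (al j) (al' i) (al' j))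
    (h2 : al' j + al' j ∉ rootsL A' → Module.finrank ℝ (rsp A' (al' j + al' i)) < 2 * Module.finrank ℝ (rsp A' (al' i)))
    (h3 : al' i + al' i ∉ rootsL A' → Module.finrank ℝ (rsp A' (al' i + al' j)) < 2 * Module.finrank ℝ (rsp A' (al' j))) : ∃ F, Good θ θ' τ τ' al al' {i, j} F := by
  obtain ⟨F, G, hF, hG, t1, t2, t3, t4⟩ := h1
  have e1 : ∀ k, k = j → (fun k => if k = i then F else G) k = G := fun k hk => by
    rw [hk]
    exact if_neg hij.symm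
  have e0 : (fun k => if k = i then F else G) i = F := if_pos rfl
  have e1 : (fun k => if k = i then F else G) j = G := if_neg hij.symm
  refine ⟨fun k => if k = i then F else G, ⟨fun k hk => ?_, fun k hk l hl => ?_, fun k hk l hl hkl => ?_⟩⟩
  · rcases Finset.mem_insert.1 hk with rfl | hk
    · rw [if_pos rfl]
      exact hF
    · rw [Finset.mem_singleton.1 hk, if_neg hij.symm]
      exact hG
  · rcases Finset.mem_insert.1 hk with rfl | hk
    · rcases Finset.mem_insert.1 hl with rfl | hl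
      · rw [if_pos rfl]
        exact t3
      · rw [Finset.mem_singleton.1 hl, if_pos rfl, if_neg hij.symm]
        exact t1
    · rw [Finset.mem_singleton.1 hk, if_neg hij.symm]
      rcases Finset.mem_insert.1 hl with rfl | hl
      · rw [if_pos rfl]
        exact t2
      · rw [Finset.mem_singleton.1 hl, if_neg hij.symm]
        exact t4
  · have hli : l ≠ i := fun h => hl (by rw [h]; exact Finset.mem_insert_self _ _)
    have hlj : l ≠ j := fun h => hl (by rw [h]; exact Finset.mem_insert_of_mem (Finset.mem_singleton_self _))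
    rcases Finset.mem_insert.1 hk with rfl | hk
    · rw [if_pos rfl]
      exact p.ext (i := j) hij.symm hlj.symm hkl (p.s.adj_symm h0) (h3 ((p.a2 hkl).not_two p.s'.hτ p.s'.h p.s'.hA)) hF hG t2
    · rw [Finset.mem_singleton.1 hk] at hkl ⊢
      rw [if_neg hij.symm]
      exact p.ext (i := i) hij hli.symm hkl h0 (h2 ((p.a2 hkl).not_two p.s'.hτ p.s'.h p.s'.hA)) hG hF t1

/-- The step. -/
theorem step [DecidableEq ι] {S : Finset ι} {F : ι → L →ₗ[ℝ] L'} (hS : Good θ θ' τ τ' al al' S F) {i j : ι} (hi : i ∈ S) (hj : j ∉ S)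
    (hu : ∀ k ∈ S, al j (τ (al k)) ≠ 0 → k = i)
    (hc : A2E A τ (al i) (al j) ∨ (Module.finrank ℝ (rsp A (al i)) ≤ 1 ∨ Module.finrank ℝ (rsp A (al j)) ≤ 1))
    (h2 : al j + al j ∉ rootsL A) (h2' : al' j + al' j ∉ rootsL A') : ∃ F, Good θ θ' τ τ' al al' (insert j S) F := by
  have hne : ∀ k ∈ S, k ≠ j := fun k hk h => hj (h ▸ hk)
  -- the new map
  obtain ⟨G, hG, hT, hX⟩ : ∃ G : L →ₗ[ℝ] L', IsoN θ θ' τ τ' (al j) (al' j) G ∧ TCN θ θ' τ τ' (al i) (al j) (al' j) (F i) G ∧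
      ∀ k, k ∉ S → k ≠ j → A2E A τ (al j) (al k) → ∃ H : L →ₗ[ℝ] L', IsoN θ θ' τ τ' (al k) (al' k) H ∧
        TCN θ θ' τ τ' (al j) (al k) (al' k) G H := by
    rcases hc with hc | hc
    · obtain ⟨G, hG, hT⟩ := hS.ex i hi j hj hc
      refine ⟨G, hG, hT, fun k hk hkj hjk => ?_⟩
      have hik : i ≠ k := fun h => hk (by rw [← h]; exact hi)
      exact p.ext (i := i) (hne i hi) hik hjk (p.s.a2_adj hc) (p.hdim_a2 hc) hG (hS.iso i hi) hT
    · obtain ⟨G, hG, hG2⟩ := p.choice j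
      exact ⟨G, hG, p.tc_free (hne i hi) (Or.inr hc) (hS.iso i hi) hG, fun k _ _ hjk => hG2 k hjk⟩
  have e1 : ∀ k ∈ S, Function.update F j G k = F k := fun k hk => Function.update_of_ne (hne k hk) _ _
  have e2 : Function.update F j G j = G := Function.update_self _ _ _
  -- the new compatibilities
  have hTk : ∀ k ∈ S, TCN θ θ' τ τ' (al k) (al j) (al' j) (F k) G ∧ TCN θ θ' τ τ' (al j) (al k) (al' k) G (F k) := by
    intro k hk
    by_cases h0 : al j (τ (al k)) = 0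
    · refine ⟨p.tc_free (hne k hk) (Or.inl h0) (hS.iso k hk) hG, p.tc_free (hne k hk).symm (Or.inl ?_) hG (hS.iso k hk)⟩
      rw [← p.s.symm]
      exact h0
    · have h1 := hu k hk h0
      rw [h1] at h0 ⊢
      exact ⟨hT, p.tc_symm h0 hT⟩
  refine ⟨Function.update F j G, ⟨fun k hk => ?_, fun k hk l hl => ?_, fun k hk l hl hkl => ?_⟩⟩
  · rcases Finset.mem_insert.1 hk with hkj | hk'
    · rw [hkj, e2]
      exact hG
    · rw [e1 k hk']
      exact hS.iso k hk'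
  · rcases Finset.mem_insert.1 hk with hkj | hk'
    · rw [hkj, e2]
      rcases Finset.mem_insert.1 hl with hlj | hl'
      · rw [hlj, e2]
        exact p.tc_self h2 h2' hG
      · rw [e1 l hl']
        exact (hTk l hl').2
    · rw [e1 k hk']
      rcases Finset.mem_insert.1 hl with hlj | hl'
      · rw [hlj, e2]
        exact (hTk k hk').1
      · rw [e1 l hl']
        exact hS.tc k hk' l hl'
  · have hlj : l ≠ j := fun h => hl (by rw [h]; exact Finset.mem_insert_self _ _)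
    have hlS : l ∉ S := fun h => hl (Finset.mem_insert_of_mem h)
    rcases Finset.mem_insert.1 hk with hkj | hk'
    · rw [hkj] at hkl ⊢
      rw [e2]
      exact hX l hlS hlj hkl
    · rw [e1 k hk']
      exact hS.ex k hk' l hlS hkl

end PD

/-- **The gluing theorem.** -/
theorem glue [Fintype ι] [Nontrivial ι] [LieAlgebra.IsSimple ℝ L] [LieAlgebra.IsSimple ℝ L'] (p : PD θ θ' b b' A A' τ τ' al al')
    (hM1 : ∀ i j, i ≠ j → al j (τ (al i)) ≠ 0 → ¬ A2E A τ (al i) (al j) → 2 ≤ Module.finrank ℝ (rsp A (al i)) →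
      2 ≤ Module.finrank ℝ (rsp A (al j)) → ME θ θ' τ τ' (al i) (al j) (al' i) (al' j))
    (hM2 : ∀ i j, i ≠ j → al' j (τ' (al' i)) ≠ 0 → ¬ A2E A' τ' (al' i) (al' j) → 2 ≤ Module.finrank ℝ (rsp A' (al' i)) →
      2 ≤ Module.finrank ℝ (rsp A' (al' j)) → al' i + al' i ∉ rootsL A' →
      Module.finrank ℝ (rsp A' (al' i + al' j)) < 2 * Module.finrank ℝ (rsp A' (al' j)))
    (hM3 : ∀ i j, i ≠ j → al j (τ (al i)) ≠ 0 → al j + al j ∈ rootsL A → 2 ≤ Module.finrank ℝ (rsp A (al i)) ∧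
      2 ≤ Module.finrank ℝ (rsp A (al j)))
    (hM3' : ∀ i j, i ≠ j → al' j (τ' (al' i)) ≠ 0 → al' j + al' j ∈ rootsL A' → 2 ≤ Module.finrank ℝ (rsp A' (al' i)) ∧
      2 ≤ Module.finrank ℝ (rsp A' (al' j))) :
    ∃ e : L ≃ₗ⁅ℝ⁆ L', ∀ x, e (θ x) = θ' (e x) := by
  classical
  suffices H : ∃ F, Good θ θ' τ τ' al al' Finset.univ F by
    obtain ⟨F, hF⟩ := H
    obtain ⟨e, -, he⟩ := iso_tensor p.s.h p.s'.h p.s.hA p.s'.hA p.s.hτ p.s'.hτ p.s.hS p.s'.hS (F := F)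
      (fun i => hF.iso i (Finset.mem_univ i)) (fun i j => hF.tc i (Finset.mem_univ i) j (Finset.mem_univ j))
    exact ⟨e, he⟩
  have hA2 : ∀ i j, i ≠ j → al j (τ (al i)) ≠ 0 → A2E A' τ' (al' i) (al' j) → A2E A τ (al i) (al j) := fun i j _ _ h => p.swap.a2 h
  -- no double of a simple root at an edge which is not thick and multiple
  have hno : ∀ i j, i ≠ j → al j (τ (al i)) ≠ 0 →
      (A2E A τ (al i) (al j) ∨ (Module.finrank ℝ (rsp A (al i)) ≤ 1 ∨ Module.finrank ℝ (rsp A (al j)) ≤ 1)) →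
      al j + al j ∉ rootsL A ∧ al' j + al' j ∉ rootsL A' := by
    intro i j hij h0 hc
    rcases hc with hc | hc
    · exact ⟨(hc.symm p.s.hτ p.s.hA).not_two p.s.hτ p.s.h p.s.hA,
        ((p.a2 hc).symm p.s'.hτ p.s'.hA).not_two p.s'.hτ p.s'.h p.s'.hA⟩
    · refine ⟨fun h1 => ?_, fun h1 => ?_⟩
      · have := hM3 i j hij h0 h1
        omega
      · have := hM3' i j hij (p.adj h0) h1
        rw [← p.hd, ← p.hd] at this
        omega
  by_cases hth : ∃ i j, i ≠ j ∧ al j (τ (al i)) ≠ 0 ∧ ¬ A2E A τ (al i) (al j) ∧ 2 ≤ Module.finrank ℝ (rsp A (al i)) ∧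
      2 ≤ Module.finrank ℝ (rsp A (al j))
  · -- start at the thick multiple edge
    obtain ⟨i0, j0, h1, h2, h3, h4, h5⟩ := hth
    have h4' := h4
    have h5' := h5
    rw [p.hd] at h4' h5'
    have n1 : ¬ A2E A' τ' (al' i0) (al' j0) := fun h => h3 (p.swap.a2 h)
    have n2 : ¬ A2E A' τ' (al' j0) (al' i0) := fun h => n1 (h.symm p.s'.hτ p.s'.hA)
    have hst := p.start_two h1 h2 (hM1 i0 j0 h1 h2 h3 h4 h5) (hM2 j0 i0 h1.symm (p.adj (p.s.adj_symm h2)) n2 h5' h4')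
      (hM2 i0 j0 h1 (p.adj h2) n1 h4' h5')
    have hd := p.s.mult h1 h2 h3
    have key := grow (fun i j => al j (τ (al i)) ≠ 0)
      (fun S => Dia.IA (bf τ) (nr τ al) i0 j0 S ∧ ∃ F, Good θ θ' τ τ' al al' S F) (S0 := {i0, j0}) ⟨p.s.dia.IA_pair h1, hst⟩
      (Finset.insert_nonempty _ _) (fun S hne hun => p.s.conn S hne hun) (fun S i j hS hi hj hij => by
        obtain ⟨hI, F, hF⟩ := hS
        obtain ⟨q1, q2, q3⟩ := p.s.dia.uniqA hd hI hi hj ((p.s.bnr_ne i j).2 hij)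
        have hne : i ≠ j := fun h => hj (h ▸ hi)
        have hc : A2E A τ (al i) (al j) := by
          by_contra h6
          exact q3 (p.s.mult hne hij h6)
        obtain ⟨n3, n4⟩ := hno i j hne hij (Or.inl hc)
        exact ⟨q1, p.step hF hi hj (fun k hk hkj => q2 k hk ((p.s.bnr_ne k j).2 hkj)) (Or.inl hc) n3 n4⟩)
    exact key.2
  · push Not at hth
    have hc : ∀ i j, i ≠ j → al j (τ (al i)) ≠ 0 →
        (A2E A τ (al i) (al j) ∨ (Module.finrank ℝ (rsp A (al i)) ≤ 1 ∨ Module.finrank ℝ (rsp A (al j)) ≤ 1)) := by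
      intro i j hij h0
      by_cases h1 : A2E A τ (al i) (al j)
      · exact Or.inl h1
      · right
        by_cases h2 : 2 ≤ Module.finrank ℝ (rsp A (al i))
        · have := hth i j hij h0 h1 h2
          omega
        · omega
    obtain ⟨i0, k0, hik⟩ := exists_pair_ne ι
    obtain ⟨i1, hi1, j1, hj1, hadj⟩ := p.s.conn {i0} (Finset.singleton_nonempty i0) (fun h => by
      have : k0 ∈ ({i0} : Finset ι) := by
        rw [h]
        exact Finset.mem_univ k0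
      exact hik (Finset.mem_singleton.1 this).symm)
    rw [Finset.mem_singleton] at hi1
    subst hi1
    have hj1' : j1 ≠ i1 := fun h => hj1 (Finset.mem_singleton.2 h)
    have hadj' := p.s.adj_symm hadj
    obtain ⟨n1, n2⟩ := hno j1 i1 hj1' hadj' (hc j1 i1 hj1' hadj')
    have key := grow (fun i j => al j (τ (al i)) ≠ 0)
      (fun S => Dia.IB (bf τ) (nr τ al) S ∧ ∃ F, Good θ θ' τ τ' al al' S F) (S0 := {i1}) ⟨p.s.dia.IB_single i1, p.start_one n1 n2⟩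
      (Finset.singleton_nonempty _) (fun S hne hun => p.s.conn S hne hun) (fun S i j hS hi hj hij => by
        obtain ⟨hI, F, hF⟩ := hS
        obtain ⟨q1, q2⟩ := p.s.dia.uniqB hI hi hj ((p.s.bnr_ne i j).2 hij)
        have hne : i ≠ j := fun h => hj (h ▸ hi)
        obtain ⟨n3, n4⟩ := hno i j hne hij (hc i j hne hij)
        exact ⟨q1, p.step hF hi hj (fun k hk hkj => q2 k hk ((p.s.bnr_ne k j).2 hkj)) (hc i j hne hij) n3 n4⟩)
    exact key.2

end Pool.Agent.Helper25.AE
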