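import Pool.Agent.Helper25.AE.End
import Pool.Agent.Helper77.AE.Ten
import Pool.Agent.Helper77.ST.EOnb

/-!
# Project MP_0f6f3f_an, layer AE (algebraic end), block AE-E: diagrams whose edges have an end of multiplicity one

`iso_edges`: two simple Lie algebras with generating simple systems `al`, `al'` of the restricted roots, the same Cartan integers, the same multiplicities of the simple roots, `2 (al i)` not a restricted root, and such that
every edge of the diagram has an end of multiplicity one, are isomorphic. This covers all split algebras and `so(p, q)`.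
-/

set_option autoImplicit false

namespace Pool.Agent.Helper25.AE

open Pool.Agent.Helper96.SA Pool.Agent.Helper96.TO Pool.Agent.Helper69.SLN Pool.Agent.Helper77.TZ2 Pool.Agent.Helper77.LA
  Pool.Agent.Helper77.AE Pool.Agent.Helper77.ST

variable {L L' : Type} [LieRing L] [LieAlgebra ℝ L] [LieRing L'] [LieAlgebra ℝ L'] {N N' : ℕ} {θ : L ≃ₗ⁅ℝ⁆ L} {θ' : L' ≃ₗ⁅ℝ⁆ L'}
  {b : Module.Basis (Fin N) ℝ L} {b' : Module.Basis (Fin N') ℝ L'} {A : Submodule ℝ L} {A' : Submodule ℝ L'} {ι : Type}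
  {al : ι → Module.Dual ℝ A} {al' : ι → Module.Dual ℝ A'} {τ : Module.Dual ℝ A ≃ₗ[ℝ] A} {τ' : Module.Dual ℝ A' ≃ₗ[ℝ] A'}

/-- A linear map which is an isometry of `U` onto `U'`. -/
theorem exists_isom (h : CartanBasis θ b) (h' : CartanBasis θ' b') {ν ν' : ℝ} (hν : 0 < ν) (hν' : 0 < ν') (U : Submodule ℝ L)
    (U' : Submodule ℝ L') (hd : Module.finrank ℝ U = Module.finrank ℝ U') : ∃ F : L →ₗ[ℝ] L', (∀ x, F x ∈ U') ∧
      (∀ y ∈ U', ∃ x ∈ U, F x = y) ∧ ∀ x ∈ U, ∀ y ∈ U, ip θ' ν' (F x) (F y) = ip θ ν x y := by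
  classical
  obtain ⟨w, hw, ho, hsp⟩ := exists_onb h hν U
  obtain ⟨w0', hw0', ho0', hsp0'⟩ := exists_onb h' hν' U'
  obtain ⟨w', hw', ho', hsp'⟩ : ∃ w' : Fin (Module.finrank ℝ U) → L', (∀ i, w' i ∈ U') ∧
      (∀ i j, ip θ' ν' (w' i) (w' j) = if i = j then 1 else 0) ∧ ∀ u ∈ U', u ∈ Submodule.span ℝ (Set.range w') := by
    rw [hd]
    exact ⟨w0', hw0', ho0', hsp0'⟩
  -- the form as a linear map
  obtain ⟨g, hg⟩ : ∃ g : L → L →ₗ[ℝ] ℝ, ∀ x y, g y x = ip θ ν x y :=
    ⟨fun y => -(ν • (killingForm ℝ L).flip (θ y)), fun x y => rfl⟩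
  obtain ⟨g', hg'⟩ : ∃ g' : L' → L' →ₗ[ℝ] ℝ, ∀ x y, g' y x = ip θ' ν' x y :=
    ⟨fun y => -(ν' • (killingForm ℝ L').flip (θ' y)), fun x y => rfl⟩
  have symm : ∀ x y, ip θ ν x y = ip θ ν y x := fun x y => by
    rw [ip, ip, kf_theta_symm h]
  have symm' : ∀ x y, ip θ' ν' x y = ip θ' ν' y x := fun x y => by
    rw [ip, ip, kf_theta_symm h']
  obtain ⟨F, hF⟩ : ∃ F : L →ₗ[ℝ] L', ∀ x, F x = ∑ k, ip θ ν x (w k) • w' k := by
    refine ⟨∑ k, (g (w k)).smulRight (w' k), fun x => ?_⟩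
    rw [LinearMap.sum_apply]
    refine Finset.sum_congr rfl fun k _ => ?_
    rw [LinearMap.smulRight_apply, hg]
  have hsum : ∀ x ∈ U, ∃ c : Fin (Module.finrank ℝ U) → ℝ, x = ∑ k, c k • w k := by
    intro x hx
    obtain ⟨c, hc⟩ := (Submodule.mem_span_range_iff_exists_fun ℝ).1 (hsp x hx)
    exact ⟨c, hc.symm⟩
  have hco : ∀ c : Fin (Module.finrank ℝ U) → ℝ, ∀ j, ip θ ν (∑ k, c k • w k) (w j) = c j := by
    intro c j
    have h1 : ∀ k, g (w j) (c k • w k) = if k = j then c k else 0 := fun k => by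
      rw [map_smul, hg, ho, smul_eq_mul, mul_ite, mul_one, mul_zero]
    rw [← hg, map_sum, Finset.sum_congr rfl fun k _ => h1 k, Finset.sum_ite_eq', if_pos (Finset.mem_univ j)]
  have hco' : ∀ c : Fin (Module.finrank ℝ U) → ℝ, ∀ j, ip θ' ν' (∑ k, c k • w' k) (w' j) = c j := by
    intro c j
    have h1 : ∀ k, g' (w' j) (c k • w' k) = if k = j then c k else 0 := fun k => by
      rw [map_smul, hg', ho', smul_eq_mul, mul_ite, mul_one, mul_zero]
    rw [← hg', map_sum, Finset.sum_congr rfl fun k _ => h1 k, Finset.sum_ite_eq', if_pos (Finset.mem_univ j)]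
  refine ⟨F, fun x => ?_, fun y hy => ?_, fun x hx y hy => ?_⟩
  · rw [hF]
    exact Submodule.sum_mem _ fun k _ => Submodule.smul_mem _ _ (hw' k)
  · obtain ⟨c, hc⟩ := (Submodule.mem_span_range_iff_exists_fun ℝ).1 (hsp' y hy)
    refine ⟨∑ k, c k • w k, Submodule.sum_mem _ fun k _ => Submodule.smul_mem _ _ (hw k), ?_⟩
    rw [hF, ← hc]
    exact Finset.sum_congr rfl fun k _ => by rw [hco]
  · obtain ⟨c, rfl⟩ := hsum x hx
    obtain ⟨d, rfl⟩ := hsum y hy
    rw [hF, hF]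
    simp only [hco]
    have e1 : ip θ' ν' (∑ k, c k • w' k) (∑ k, d k • w' k) = ∑ k, d k * c k := by
      rw [symm', ← hg', map_sum]
      refine Finset.sum_congr rfl fun k _ => ?_
      rw [map_smul, hg', symm', hco', smul_eq_mul]
    have e2 : ip θ ν (∑ k, c k • w k) (∑ k, d k • w k) = ∑ k, d k * c k := by
      rw [symm, ← hg, map_sum]
      refine Finset.sum_congr rfl fun k _ => ?_
      rw [map_smul, hg, symm, hco, smul_eq_mul]
    rw [e1, e2]

theorem one_of_finrank {φ : Module.Dual ℝ A} [Module.Finite ℝ L] (h1 : Module.finrank ℝ (rsp A φ) ≤ 1) :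
    ∀ y z : L, Wv A φ y → Wv A φ z → y ≠ 0 → ∃ c : ℝ, z = c • y := by
  intro y z hy hz hy0
  obtain ⟨v, hv⟩ := finrank_le_one_iff.1 h1
  obtain ⟨c, hc⟩ := hv ⟨y, hy⟩
  obtain ⟨d, hd⟩ := hv ⟨z, hz⟩
  have hc' : c • (v : L) = y := congrArg Subtype.val hc
  have hd' : d • (v : L) = z := congrArg Subtype.val hd
  have hc0 : c ≠ 0 := by
    rintro rfl
    rw [zero_smul] at hc'
    exact hy0 hc'.symm
  refine ⟨d / c, ?_⟩
  rw [← hc', ← hd', smul_smul, div_mul_cancel₀ _ hc0]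

/-- Orthogonal weights whose difference is not a weight: the root spaces commute. -/
theorem comm_of_orth (hτ : ∀ (φ : Module.Dual ℝ A) (a : A), killingForm ℝ L (τ φ : L) (a : L) = φ a) (h : CartanBasis θ b)
    (hA : MaxFlat θ A) {φ ψ : Module.Dual ℝ A} (h0 : φ - ψ ≠ 0) (h1 : φ - ψ ∉ rootsL A) (h2 : ψ (τ φ) = 0) {x v : L} (hx : Wv A φ x)
    (hv : Wv A ψ v) : ⁅x, v⁆ = 0 := by
  have e1 : ⁅x, θ v⁆ = 0 := by
    have h3 := hx.lie (hv.theta hA)
    rw [← sub_eq_add_neg] at h3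
    exact h3.eq_zero h1 h0
  have e1' : ⁅θ x, v⁆ = 0 := by
    have h3 := congrArg θ e1
    rwa [LieEquiv.map_lie, h.invol, map_zero] at h3
  have e2 : ⁅θ x, ⁅x, v⁆⁆ = 0 := by
    rw [leibniz_lie, e1', lie_zero, add_zero, ← lie_skew (θ x) x, lie_theta_self hτ h hA hx, neg_lie, smul_lie, hv (τ φ), h2, zero_smul,
      smul_zero, neg_zero]
  by_contra hne
  have h3 := pos h hne
  rw [LieEquiv.map_lie, ← kf_inv, ← lie_skew, e2, neg_zero, map_zero, LinearMap.zero_apply, neg_zero] at h3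
  exact lt_irrefl _ h3

/-- **Diagrams whose edges have an end of multiplicity one.** -/
theorem iso_edges [Nonempty ι] [LieAlgebra.IsSimple ℝ L] [LieAlgebra.IsSimple ℝ L'] (h : CartanBasis θ b) (h' : CartanBasis θ' b')
    (hA : MaxFlat θ A) (hA' : MaxFlat θ' A') (hτ : ∀ (φ : Module.Dual ℝ A) (a : A), killingForm ℝ L (τ φ : L) (a : L) = φ a)
    (hτ' : ∀ (φ : Module.Dual ℝ A') (a : A'), killingForm ℝ L' (τ' φ : L') (a : L') = φ a) (hS : Smp A al) (hS' : Smp A' al')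
    (h2 : ∀ i, al i + al i ∉ rootsL A) (h2' : ∀ i, al' i + al' i ∉ rootsL A')
    (hd : ∀ i, Module.finrank ℝ (rsp A (al i)) = Module.finrank ℝ (rsp A' (al' i)))
    (hC : ∀ i j, al j (τ (al i)) * al' i (τ' (al' i)) = al' j (τ' (al' i)) * al i (τ (al i)))
    (he : ∀ i j, i ≠ j → al j (τ (al i)) = 0 ∨ Module.finrank ℝ (rsp A (al i)) ≤ 1 ∨ Module.finrank ℝ (rsp A (al j)) ≤ 1) :
    ∃ e : L ≃ₗ⁅ℝ⁆ L', (∀ i x, Wv A (al i) x → Wv A' (al' i) (e x)) ∧ ∀ x, e (θ x) = θ' (e x) := by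
  have hL : Module.Finite ℝ L := Module.Finite.of_basis b
  have hL' : Module.Finite ℝ L' := Module.Finite.of_basis b'
  have hν : ∀ i, 0 < al i (τ (al i)) := fun i => tau_pos hτ h hA (hS.root i).1
  have hν' : ∀ i, 0 < al' i (τ' (al' i)) := fun i => tau_pos hτ' h' hA' (hS'.root i).1
  have hex : ∀ i, ∃ F : L →ₗ[ℝ] L', (∀ x, F x ∈ rsp A' (al' i)) ∧ (∀ y ∈ rsp A' (al' i), ∃ x ∈ rsp A (al i), F x = y) ∧
      ∀ x ∈ rsp A (al i), ∀ y ∈ rsp A (al i), ip θ' (al' i (τ' (al' i))) (F x) (F y) = ip θ (al i (τ (al i))) x y :=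
    fun i => exists_isom h h' (hν i) (hν' i) _ _ (hd i)
  choose F hF1 hF2 hF3 using hex
  have hF3' : ∀ i x y, Wv A (al i) x → Wv A (al i) y → al' i (τ' (al' i)) * killingForm ℝ L' (F i x) (θ' (F i y)) =
      al i (τ (al i)) * killingForm ℝ L x (θ y) := by
    intro i x y hx hy
    have h3 := hF3 i x hx y hy
    rw [ip, ip, neg_inj] at h3
    exact h3
  -- the action is scalar
  have key : ∀ i j x y v, i ≠ j → Wv A (al i) x → Wv A (al i) y → Wv A (al j) v →
      ⁅⁅x, θ y⁆, v⁆ = (killingForm ℝ L x (θ y) * al j (τ (al i))) • v := by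
    intro i j x y v hij hx hy hv
    rcases he i j hij with h3 | h3 | h3
    · rw [h3, mul_zero, zero_smul]
      have e1 : ⁅x, v⁆ = 0 := comm_of_orth hτ h hA (hS.dif i j hij).1 (hS.dif i j hij).2 h3 hx hv
      have e2 : ⁅θ y, v⁆ = 0 := by
        have h4 := (hy.theta hA).lie hv
        have h5 := hS.dif j i (Ne.symm hij)
        rw [neg_add_eq_sub] at h4
        exact h4.eq_zero h5.2 h5.1
      rw [lie_lie, e1, e2, lie_zero, lie_zero, sub_zero]
    · exact edge_one hτ h hA (one_of_finrank h3) hx hy hv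
    · exact edge_one' hτ h hA (one_of_finrank h3) hv hx hy
  have hC0 : ∀ i j, al j (τ (al i)) = 0 → al' j (τ' (al' i)) = 0 := by
    intro i j h3
    have h4 := hC i j
    rw [h3, zero_mul] at h4
    exact (mul_eq_zero.1 h4.symm).resolve_right (hν i).ne'
  have key' : ∀ i j x y v, i ≠ j → Wv A' (al' i) x → Wv A' (al' i) y → Wv A' (al' j) v →
      ⁅⁅x, θ' y⁆, v⁆ = (killingForm ℝ L' x (θ' y) * al' j (τ' (al' i))) • v := by
    intro i j x y v hij hx hy hv
    rcases he i j hij with h3 | h3 | h3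
    · have h3 := hC0 i j h3
      rw [h3, mul_zero, zero_smul]
      have e1 : ⁅x, v⁆ = 0 := comm_of_orth hτ' h' hA' (hS'.dif i j hij).1 (hS'.dif i j hij).2 h3 hx hv
      have e2 : ⁅θ' y, v⁆ = 0 := by
        have h4 := (hy.theta hA').lie hv
        have h5 := hS'.dif j i (Ne.symm hij)
        rw [neg_add_eq_sub] at h4
        exact h4.eq_zero h5.2 h5.1
      rw [lie_lie, e1, e2, lie_zero, lie_zero, sub_zero]
    · rw [hd] at h3
      exact edge_one hτ' h' hA' (one_of_finrank h3) hx hy hv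
    · rw [hd] at h3
      exact edge_one' hτ' h' hA' (one_of_finrank h3) hv hx hy
  obtain ⟨e, he1, he2⟩ := ten_iso h h' hA hA' hS hS' F (fun i x _ => hF1 i x) (fun i y hy => hF2 i y hy) (fun i x hx h0 => by
    by_contra hne
    have h3 := hF3' i x x hx hx
    rw [h0, map_zero, LinearMap.zero_apply, mul_zero] at h3
    have h4 := pos h hne
    rcases mul_eq_zero.1 h3.symm with h5 | h5
    · exact (hν i).ne' h5
    · rw [h5, neg_zero] at h4
      exact lt_irrefl _ h4) (by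
    intro i j x y v hx hy hv
    by_cases hij : i = j
    · subst hij
      have hn : al i + al i ≠ 0 := by
        rw [← two_smul ℝ]
        exact smul_ne_zero two_ne_zero (hS.root i).1
      have hn' : al' i + al' i ≠ 0 := by
        rw [← two_smul ℝ]
        exact smul_ne_zero two_ne_zero (hS'.root i).1
      rw [triple hτ h hA hn (h2 i) hx hy hv, triple hτ' h' hA' hn' (h2' i) (hF1 i x) (hF1 i y) (hF1 i v)]
      simp only [map_smul, map_sub, map_add, smul_sub, smul_add, smul_smul]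
      rw [hF3' i x y hx hy, hF3' i y v hy hv, hF3' i x v hx hv]
    · rw [key i j x y v hij hx hy hv, key' i j _ _ _ hij (hF1 i x) (hF1 i y) (hF1 j v), map_smul]
      congr 1
      have h3 := hF3' i x y hx hy
      have h4 := hC i j
      have h5 := (hν' i).ne'
      apply mul_left_cancel₀ h5
      calc al' i (τ' (al' i)) * (killingForm ℝ L x (θ y) * al j (τ (al i)))
          = killingForm ℝ L x (θ y) * (al j (τ (al i)) * al' i (τ' (al' i))) := by ring
        _ = (al i (τ (al i)) * killingForm ℝ L x (θ y)) * al' j (τ' (al' i)) := by rw [h4]; ring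
        _ = al' i (τ' (al' i)) * (killingForm ℝ L' (F i x) (θ' (F i y)) * al' j (τ' (al' i))) := by rw [← h3]; ring)
  exact ⟨e, fun i x hx => by rw [he1 i x hx]; exact hF1 i x, he2⟩

end Pool.Agent.Helper25.AE
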