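import Pool.Agent.Helper25.AE.Iso

/-!
# Project MP_0f6f3f_an, layer AE (algebraic end), block AE-E: isomorphisms from the tensors of the simple root spaces

`TC`: the maps `F i` preserve the tensors `κ([x, v], θ [y, w])`, `x, y` of weight `al i`, `v, w` of weight `al j` (`i = j` allowed: this is the condition at a node with a multiple). `iso_tensor`: isometries of the simple
root spaces with `TC` extend to an isomorphism. `tc_one`: `TC` is automatic for orthogonal simple roots and for edges with an end of multiplicity one. `tc_self`: `TC` for `i = j` is automatic if `2 al i` is no root.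
-/

set_option autoImplicit false

namespace Pool.Agent.Helper25.AE

open Pool.Agent.Helper96.SA Pool.Agent.Helper96.TO Pool.Agent.Helper69.SLN Pool.Agent.Helper77.TZ2 Pool.Agent.Helper77.LA
  Pool.Agent.Helper77.AE Pool.Agent.Helper77.ST

variable {L L' : Type} [LieRing L] [LieAlgebra ℝ L] [LieRing L'] [LieAlgebra ℝ L'] {N N' : ℕ} {θ : L ≃ₗ⁅ℝ⁆ L} {θ' : L' ≃ₗ⁅ℝ⁆ L'}
  {b : Module.Basis (Fin N) ℝ L} {b' : Module.Basis (Fin N') ℝ L'} {A : Submodule ℝ L} {A' : Submodule ℝ L'} {ι : Type}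
  {al : ι → Module.Dual ℝ A} {al' : ι → Module.Dual ℝ A'} {τ : Module.Dual ℝ A ≃ₗ[ℝ] A} {τ' : Module.Dual ℝ A' ≃ₗ[ℝ] A'}

/-- The tensor of a pair of root spaces. -/
noncomputable def tn (θ : L ≃ₗ⁅ℝ⁆ L) (x v y w : L) : ℝ := killingForm ℝ L ⁅x, v⁆ (θ ⁅y, w⁆)

theorem tn_lie (θ : L ≃ₗ⁅ℝ⁆ L) (x v y w : L) : killingForm ℝ L ⁅⁅x, v⁆, θ y⁆ (θ w) = tn θ x v y w := by
  rw [tn, kf_inv, LieEquiv.map_lie]

theorem tn_off {x y v w : L} (h1 : ⁅θ y, v⁆ = 0) : killingForm ℝ L ⁅⁅x, θ y⁆, v⁆ (θ w) = tn θ x v y w := by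
  rw [← tn_lie, lie_lie, h1, lie_zero, zero_sub, lie_skew]

/-- The triple product of a root space, in general. -/
theorem triple_gen (hτ : ∀ (φ : Module.Dual ℝ A) (a : A), killingForm ℝ L (τ φ : L) (a : L) = φ a) (h : CartanBasis θ b) (hA : MaxFlat θ A)
    {α : Module.Dual ℝ A} {x y v : L} (hx : Wv A α x) (hy : Wv A α y) (hv : Wv A α v) :
    (2 : ℝ) • ⁅⁅x, θ y⁆, v⁆ = (2 * α (τ α)) • (killingForm ℝ L x (θ y) • v + killingForm ℝ L y (θ v) • x - killingForm ℝ L x (θ v) • y) +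
      (⁅⁅x, y⁆, θ v⁆ + ⁅⁅x, v⁆, θ y⁆ - ⁅⁅y, v⁆, θ x⁆) := by
  have sw : ∀ x y z : L, ⁅⁅x, θ y⁆, z⁆ = ⁅⁅z, θ y⁆, x⁆ + ⁅⁅x, z⁆, θ y⁆ := by
    intro x y z
    have a1 : ⁅⁅z, θ y⁆, x⁆ = ⁅x, ⁅θ y, z⁆⁆ := by rw [← lie_skew, ← lie_neg, lie_skew]
    rw [a1, lie_lie, ← lie_skew ⁅x, z⁆ (θ y), sub_eq_add_neg]
  have e1 := act_add hτ h hA hx hy hv
  have e2 := act_add hτ h hA hv hx hy
  have e3 := act_add hτ h hA hy hv hx
  have s1 := sw y x v
  have s2 := sw x v y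
  have s3 := sw v y x
  have k1 := kf_theta_symm h v x
  have k2 : ⁅⁅v, x⁆, θ y⁆ = -⁅⁅x, v⁆, θ y⁆ := by rw [← lie_skew v x, neg_lie]
  rw [k1] at e2
  rw [k2] at s3
  have e4 : (2 : ℝ) • ⁅⁅x, θ y⁆, v⁆ = (⁅⁅x, θ y⁆, v⁆ + ⁅⁅y, θ x⁆, v⁆) - (⁅⁅v, θ x⁆, y⁆ + ⁅⁅x, θ v⁆, y⁆) + (⁅⁅y, θ v⁆, x⁆ + ⁅⁅v, θ y⁆, x⁆) +
      (⁅⁅x, y⁆, θ v⁆ + ⁅⁅x, v⁆, θ y⁆ - ⁅⁅y, v⁆, θ x⁆) := by
    rw [s1, s2, s3]
    module
  rw [e4, e1, e2, e3]
  module

/-- The form in terms of the tensors, at a node. -/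
theorem tn_node (hτ : ∀ (φ : Module.Dual ℝ A) (a : A), killingForm ℝ L (τ φ : L) (a : L) = φ a) (h : CartanBasis θ b) (hA : MaxFlat θ A)
    {α : Module.Dual ℝ A} {x y v w : L} (hx : Wv A α x) (hy : Wv A α y) (hv : Wv A α v) :
    2 * killingForm ℝ L ⁅⁅x, θ y⁆, v⁆ (θ w) = 2 * α (τ α) * (killingForm ℝ L x (θ y) * killingForm ℝ L v (θ w) +
      killingForm ℝ L y (θ v) * killingForm ℝ L x (θ w) - killingForm ℝ L x (θ v) * killingForm ℝ L y (θ w)) +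
      (tn θ x y v w + tn θ x v y w - tn θ y v x w) := by
  have h1 := congrArg (fun z => killingForm ℝ L z (θ w)) (triple_gen hτ h hA hx hy hv)
  simp only [map_smul, map_add, map_sub, LinearMap.add_apply, LinearMap.sub_apply, LinearMap.smul_apply, smul_eq_mul, tn_lie] at h1
  linarith

/-- The maps `F i` preserve the tensors. -/
def TC (θ : L ≃ₗ⁅ℝ⁆ L) (θ' : L' ≃ₗ⁅ℝ⁆ L') (A : Submodule ℝ L) (ν ν' : ℝ) (φ ψ : Module.Dual ℝ A) (F G : L →ₗ[ℝ] L') : Prop :=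
  ∀ x y v w, Wv A φ x → Wv A φ y → Wv A ψ v → Wv A ψ w → ν' * tn θ' (F x) (G v) (F y) (G w) = ν * tn θ x v y w

/-- The map `F` is an isometry of the root space of `φ` onto the root space of `φ'`. -/
structure IsoOn (θ : L ≃ₗ⁅ℝ⁆ L) (θ' : L' ≃ₗ⁅ℝ⁆ L') (ν ν' : ℝ) (φ : Module.Dual ℝ A) (φ' : Module.Dual ℝ A') (F : L →ₗ[ℝ] L') : Prop where
  mem : ∀ x, Wv A φ x → Wv A' φ' (F x)
  onto : ∀ y, Wv A' φ' y → ∃ x, Wv A φ x ∧ F x = y
  iso : ∀ x y, Wv A φ x → Wv A φ y → ν' * killingForm ℝ L' (F x) (θ' (F y)) = ν * killingForm ℝ L x (θ y)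

theorem IsoOn.inj (h : CartanBasis θ b) {ν ν' : ℝ} (hν : ν ≠ 0) {φ : Module.Dual ℝ A} {φ' : Module.Dual ℝ A'} {F : L →ₗ[ℝ] L'}
    (hF : IsoOn θ θ' ν ν' φ φ' F) : ∀ x, Wv A φ x → F x = 0 → x = 0 := by
  intro x hx h0
  by_contra hne
  have h3 := hF.iso x x hx hx
  rw [h0, map_zero, LinearMap.zero_apply, mul_zero] at h3
  have h4 := pos h hne
  rcases mul_eq_zero.1 h3.symm with h5 | h5
  · exact hν h5
  · rw [h5, neg_zero] at h4
    exact lt_irrefl _ h4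

theorem exists_isoOn (h : CartanBasis θ b) (h' : CartanBasis θ' b') {ν ν' : ℝ} (hν : 0 < ν) (hν' : 0 < ν') {φ : Module.Dual ℝ A}
    {φ' : Module.Dual ℝ A'} (hd : Module.finrank ℝ (rsp A φ) = Module.finrank ℝ (rsp A' φ')) : ∃ F : L →ₗ[ℝ] L', IsoOn θ θ' ν ν' φ φ' F := by
  obtain ⟨F, h1, h2, h3⟩ := exists_isom h h' hν hν' (rsp A φ) (rsp A' φ') hd
  refine ⟨F, fun x _ => h1 x, h2, fun x y hx hy => ?_⟩
  have h4 := h3 x hx y hy
  rw [ip, ip, neg_inj] at h4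
  exact h4

/-- A vector of a root space is determined by its scalar products. -/
theorem eq_of_kf (h' : CartanBasis θ' b') {φ' : Module.Dual ℝ A'} {x y : L'} (hx : Wv A' φ' x) (hy : Wv A' φ' y)
    (hw : ∀ w, Wv A' φ' w → killingForm ℝ L' x (θ' w) = killingForm ℝ L' y (θ' w)) : x = y := by
  by_contra hne
  have h1 : x - y ≠ 0 := sub_ne_zero.2 hne
  have h2 : Wv A' φ' (x - y) := fun a => by rw [_root_.lie_sub, hx a, hy a, smul_sub]
  have h3 := hw _ h2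
  have h4 := pos h' h1
  rw [map_sub (killingForm ℝ L'), LinearMap.sub_apply, h3, sub_self, neg_zero] at h4
  exact lt_irrefl _ h4

/-- The tensors of the operators `[x, θ y]`. -/
theorem tensor_of_TC (h : CartanBasis θ b) (h' : CartanBasis θ' b')
    (hA : MaxFlat θ A) (hA' : MaxFlat θ' A') (hτ : ∀ (φ : Module.Dual ℝ A) (a : A), killingForm ℝ L (τ φ : L) (a : L) = φ a)
    (hτ' : ∀ (φ : Module.Dual ℝ A') (a : A'), killingForm ℝ L' (τ' φ : L') (a : L') = φ a) (hS : Smp A al) (hS' : Smp A' al')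
    {F : ι → L →ₗ[ℝ] L'} (hF : ∀ i, IsoOn θ θ' (al i (τ (al i))) (al' i (τ' (al' i))) (al i) (al' i) (F i))
    (hT : ∀ i j, TC θ θ' A (al j (τ (al j))) (al' j (τ' (al' j))) (al i) (al j) (F i) (F j)) (i j : ι) {x y v : L} (hx : Wv A (al i) x)
    (hy : Wv A (al i) y) (hv : Wv A (al j) v) : F j ⁅⁅x, θ y⁆, v⁆ = ⁅⁅F i x, θ' (F i y)⁆, F j v⁆ := by
  have hν' : 0 < al' j (τ' (al' j)) := tau_pos hτ' h' hA' (hS'.root j).1
  have w0 : Wv A (al j) ⁅⁅x, θ y⁆, v⁆ := by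
    have e1 := (hx.lie (hy.theta hA)).lie hv
    rwa [add_neg_cancel, zero_add] at e1
  have w1 : Wv A' (al' j) ⁅⁅F i x, θ' (F i y)⁆, F j v⁆ := by
    have e1 := (((hF i).mem x hx).lie (((hF i).mem y hy).theta hA')).lie ((hF j).mem v hv)
    rwa [add_neg_cancel, zero_add] at e1
  refine eq_of_kf h' ((hF j).mem _ w0) w1 fun w hw => ?_
  obtain ⟨w, hw', rfl⟩ := (hF j).onto w hw
  apply mul_left_cancel₀ hν'.ne'
  rw [(hF j).iso _ _ w0 hw']
  by_cases hij : i = j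
  · subst hij
    have e1 := tn_node hτ h hA hx hy hv (w := w)
    have e2 := tn_node hτ' h' hA' ((hF i).mem x hx) ((hF i).mem y hy) ((hF i).mem v hv) (w := F i w)
    have t1 := hT i i x v y w hx hv hy hw'
    have t2 := hT i i x y v w hx hy hv hw'
    have t3 := hT i i y x v w hy hx hv hw'
    have f1 := (hF i).iso x y hx hy
    have f2 := (hF i).iso v w hv hw'
    have f3 := (hF i).iso y v hy hv
    have f4 := (hF i).iso x w hx hw'
    have f5 := (hF i).iso x v hx hv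
    have f6 := (hF i).iso y w hy hw'
    generalize al i (τ (al i)) = ν at *
    generalize al' i (τ' (al' i)) = ν' at *
    have g1 : ν' * (2 * killingForm ℝ L' ⁅⁅F i x, θ' (F i y)⁆, F i v⁆ (θ' (F i w))) = ν * (2 * killingForm ℝ L ⁅⁅x, θ y⁆, v⁆ (θ w)) := by
      rw [e1, e2]
      have r1 : ν' * (2 * ν' * (killingForm ℝ L' (F i x) (θ' (F i y)) * killingForm ℝ L' (F i v) (θ' (F i w)) +
          killingForm ℝ L' (F i y) (θ' (F i v)) * killingForm ℝ L' (F i x) (θ' (F i w)) -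
          killingForm ℝ L' (F i x) (θ' (F i v)) * killingForm ℝ L' (F i y) (θ' (F i w))) +
          (tn θ' (F i x) (F i y) (F i v) (F i w) + tn θ' (F i x) (F i v) (F i y) (F i w) - tn θ' (F i y) (F i v) (F i x) (F i w))) =
          2 * ((ν' * killingForm ℝ L' (F i x) (θ' (F i y))) * (ν' * killingForm ℝ L' (F i v) (θ' (F i w))) +
          (ν' * killingForm ℝ L' (F i y) (θ' (F i v))) * (ν' * killingForm ℝ L' (F i x) (θ' (F i w))) -
          (ν' * killingForm ℝ L' (F i x) (θ' (F i v))) * (ν' * killingForm ℝ L' (F i y) (θ' (F i w)))) +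
          (ν' * tn θ' (F i x) (F i y) (F i v) (F i w) + ν' * tn θ' (F i x) (F i v) (F i y) (F i w) - ν' * tn θ' (F i y) (F i v) (F i x) (F i w)) := by
        ring
      rw [r1, f1, f2, f3, f4, f5, f6, t1, t2, t3]
      ring
    linarith
  · have e1 : ⁅θ y, v⁆ = 0 := by
      have h4 := (hy.theta hA).lie hv
      have h5 := hS.dif j i (Ne.symm hij)
      rw [neg_add_eq_sub] at h4
      exact h4.eq_zero h5.2 h5.1
    have e2 : ⁅θ' (F i y), F j v⁆ = 0 := by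
      have h4 := (((hF i).mem y hy).theta hA').lie ((hF j).mem v hv)
      have h5 := hS'.dif j i (Ne.symm hij)
      rw [neg_add_eq_sub] at h4
      exact h4.eq_zero h5.2 h5.1
    rw [tn_off e1, tn_off e2]
    exact (hT i j x y v w hx hy hv hw').symm

/-- **Isomorphisms from the tensors of the simple root spaces.** -/
theorem iso_tensor [Nonempty ι] [LieAlgebra.IsSimple ℝ L] [LieAlgebra.IsSimple ℝ L'] (h : CartanBasis θ b) (h' : CartanBasis θ' b')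
    (hA : MaxFlat θ A) (hA' : MaxFlat θ' A') (hτ : ∀ (φ : Module.Dual ℝ A) (a : A), killingForm ℝ L (τ φ : L) (a : L) = φ a)
    (hτ' : ∀ (φ : Module.Dual ℝ A') (a : A'), killingForm ℝ L' (τ' φ : L') (a : L') = φ a) (hS : Smp A al) (hS' : Smp A' al')
    {F : ι → L →ₗ[ℝ] L'} (hF : ∀ i, IsoOn θ θ' (al i (τ (al i))) (al' i (τ' (al' i))) (al i) (al' i) (F i))
    (hT : ∀ i j, TC θ θ' A (al j (τ (al j))) (al' j (τ' (al' j))) (al i) (al j) (F i) (F j)) :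
    ∃ e : L ≃ₗ⁅ℝ⁆ L', (∀ i x, Wv A (al i) x → e x = F i x) ∧ ∀ x, e (θ x) = θ' (e x) :=
  ten_iso h h' hA hA' hS hS' F (fun i x => (hF i).mem x) (fun i => (hF i).onto)
    (fun i => (hF i).inj h (tau_pos hτ h hA (hS.root i).1).ne') fun i j _ _ _ hx hy hv => tensor_of_TC h h' hA hA' hτ hτ' hS hS' hF hT i j hx hy hv

/-- `TC` is symmetric. -/
theorem TC.symm {ν ν' μ μ' : ℝ} {φ ψ : Module.Dual ℝ A} {F G : L →ₗ[ℝ] L'} (hν : ν ≠ 0) (hr : μ * ν' = μ' * ν)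
    (hT : TC θ θ' A ν ν' φ ψ F G) : TC θ θ' A μ μ' ψ φ G F := by
  intro x y v w hx hy hv hw
  have h1 := hT v w x y hv hw hx hy
  have s : ∀ x v y w : L, tn θ v x w y = tn θ x v y w := fun x v y w => by
    rw [tn, tn, ← lie_skew v x, ← lie_skew w y]
    simp only [map_neg, LinearMap.neg_apply, neg_neg]
  have s' : ∀ x v y w : L', tn θ' v x w y = tn θ' x v y w := fun x v y w => by
    rw [tn, tn, ← lie_skew v x, ← lie_skew w y]
    simp only [map_neg, LinearMap.neg_apply, neg_neg]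
  rw [s, s'] at h1
  apply mul_left_cancel₀ hν
  calc ν * (μ' * tn θ' (G x) (F v) (G y) (F w)) = (μ' * ν) * tn θ' (G x) (F v) (G y) (F w) := by ring
    _ = μ * (ν' * tn θ' (G x) (F v) (G y) (F w)) := by rw [← hr]; ring
    _ = ν * (μ * tn θ x v y w) := by rw [h1]; ring

/-- `TC` at a node without multiple is automatic. -/
theorem tc_self {φ : Module.Dual ℝ A} {φ' : Module.Dual ℝ A'} {ν ν' : ℝ} (h0 : φ + φ ≠ 0) (h2 : φ + φ ∉ rootsL A) (h0' : φ' + φ' ≠ 0)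
    (h2' : φ' + φ' ∉ rootsL A') {F : L →ₗ[ℝ] L'} (hF : ∀ x, Wv A φ x → Wv A' φ' (F x)) : TC θ θ' A ν ν' φ φ F F := by
  intro x y v w hx _ hv _
  rw [tn, tn, (hx.lie hv).eq_zero h2 h0, ((hF x hx).lie (hF v hv)).eq_zero h2' h0']
  simp

/-- The tensor of an edge with scalar action. -/
theorem tc_scalar {φ ψ : Module.Dual ℝ A} {φ' ψ' : Module.Dual ℝ A'} {ν ν' μ μ' s s' : ℝ} (hν' : ν' ≠ 0) (hs : s' * ν = s * ν') {F G : L →ₗ[ℝ] L'}
    (hF : IsoOn θ θ' ν ν' φ φ' F) (hG : IsoOn θ θ' μ μ' ψ ψ' G)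
    (h1 : ∀ x y v w, Wv A φ x → Wv A φ y → Wv A ψ v → Wv A ψ w → tn θ x v y w = s * killingForm ℝ L x (θ y) * killingForm ℝ L v (θ w))
    (h2 : ∀ x y v w, Wv A' φ' x → Wv A' φ' y → Wv A' ψ' v → Wv A' ψ' w →
      tn θ' x v y w = s' * killingForm ℝ L' x (θ' y) * killingForm ℝ L' v (θ' w)) : TC θ θ' A μ μ' φ ψ F G := by
  intro x y v w hx hy hv hw
  rw [h1 x y v w hx hy hv hw, h2 _ _ _ _ (hF.mem x hx) (hF.mem y hy) (hG.mem v hv) (hG.mem w hw)]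
  have e1 := hF.iso x y hx hy
  have e2 := hG.iso v w hv hw
  apply mul_left_cancel₀ hν'
  calc ν' * (μ' * (s' * killingForm ℝ L' (F x) (θ' (F y)) * killingForm ℝ L' (G v) (θ' (G w))))
      = s' * (ν' * killingForm ℝ L' (F x) (θ' (F y))) * (μ' * killingForm ℝ L' (G v) (θ' (G w))) := by ring
    _ = s' * ν * killingForm ℝ L x (θ y) * (μ * killingForm ℝ L v (θ w)) := by rw [e1, e2]; ring
    _ = ν' * (μ * (s * killingForm ℝ L x (θ y) * killingForm ℝ L v (θ w))) := by rw [hs]; ring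

theorem neg_mem_rootsL (hA : MaxFlat θ A) {φ : Module.Dual ℝ A} (hφ : φ ∈ rootsL A) : -φ ∈ rootsL A := by
  obtain ⟨h0, x, hx0, hx⟩ := hφ
  exact ⟨neg_ne_zero.2 h0, θ x, fun h1 => hx0 (θ.injective (h1.trans (map_zero θ).symm)), Wv.theta hA hx⟩

/-- The tensor of an edge with an end of multiplicity one, or of two orthogonal simple roots. -/
theorem tn_one (h : CartanBasis θ b) (hA : MaxFlat θ A) (hτ : ∀ (φ : Module.Dual ℝ A) (a : A), killingForm ℝ L (τ φ : L) (a : L) = φ a)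
    {φ ψ : Module.Dual ℝ A} (h0 : φ - ψ ≠ 0) (h1 : φ - ψ ∉ rootsL A)
    (he : ψ (τ φ) = 0 ∨ Module.finrank ℝ (rsp A φ) ≤ 1 ∨ Module.finrank ℝ (rsp A ψ) ≤ 1) {x y v w : L} (hx : Wv A φ x) (hy : Wv A φ y)
    (hv : Wv A ψ v) : tn θ x v y w = ψ (τ φ) * killingForm ℝ L x (θ y) * killingForm ℝ L v (θ w) := by
  have hL : Module.Finite ℝ L := Module.Finite.of_basis b
  have e1 : ⁅θ y, v⁆ = 0 := by
    have h4 := (hy.theta hA).lie hv
    rw [neg_add_eq_sub] at h4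
    refine h4.eq_zero (fun h5 => h1 ?_) (fun h5 => h0 ?_)
    · have h6 := neg_mem_rootsL hA h5
      rwa [neg_sub] at h6
    · rw [← neg_sub, h5, neg_zero]
  rw [← tn_off e1]
  rcases he with h3 | h3 | h3
  · rw [h3, zero_mul, zero_mul]
    have e2 : ⁅x, v⁆ = 0 := comm_of_orth hτ h hA h0 h1 h3 hx hv
    rw [lie_lie, e1, e2, lie_zero, lie_zero, sub_zero, map_zero, LinearMap.zero_apply]
  · rw [edge_one hτ h hA (one_of_finrank h3) hx hy hv, map_smul, LinearMap.smul_apply, smul_eq_mul]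
    ring
  · rw [edge_one' hτ h hA (one_of_finrank h3) hv hx hy, map_smul, LinearMap.smul_apply, smul_eq_mul]
    ring

end Pool.Agent.Helper25.AE
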