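import Pool.Agent.Helper25.AE.Glue
import Pool.Agent.Helper95.AE.EdB
import Pool.Agent.Helper68.AE.G2N

/-!
# Project MP_0f6f3f_an, layer AE (algebraic end): multiple edges

`two_of_cartan`: the data `Two` (types `B_2`, `BC_2`) from the scalar products of the two roots. `SD.multi`: the classification of the multiple edges.
-/

set_option autoImplicit false

namespace Pool.Agent.Helper25.AE

open Pool.Agent.Helper96.SA Pool.Agent.Helper96.TO Pool.Agent.Helper69.SLN Pool.Agent.Helper77.TZ2 Pool.Agent.Helper77.LA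
  Pool.Agent.Helper77.AE Pool.Agent.Helper77.ST Pool.Agent.Helper95.AE Pool.Agent.Helper68.AE

variable {L L' : Type} [LieRing L] [LieAlgebra ℝ L] [LieRing L'] [LieAlgebra ℝ L'] {N N' : ℕ} {θ : L ≃ₗ⁅ℝ⁆ L} {θ' : L' ≃ₗ⁅ℝ⁆ L'}
  {b : Module.Basis (Fin N) ℝ L} {b' : Module.Basis (Fin N') ℝ L'} {A : Submodule ℝ L} {A' : Submodule ℝ L'}
  {τ : Module.Dual ℝ A ≃ₗ[ℝ] A} {τ' : Module.Dual ℝ A' ≃ₗ[ℝ] A'} {ι : Type} {al : ι → Module.Dual ℝ A} {al' : ι → Module.Dual ℝ A'}

/-- Integral vectors of the lattice of `B_2` with integral Cartan numbers. -/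
theorem lattice {p q k l : ℤ} (h0 : p ≠ 0 ∨ q ≠ 0) (h1 : 2 * q = k * (p * p + q * q)) (h2 : 2 * (p - q) = l * (p * p + q * q)) :
    -2 ≤ p ∧ p ≤ 2 ∧ -2 ≤ q ∧ q ≤ 2 := by
  have hN : 0 < p * p + q * q := by
    rcases h0 with h0 | h0
    · have : 0 < p * p := mul_self_pos.2 h0
      nlinarith [mul_self_nonneg q]
    · have : 0 < q * q := mul_self_pos.2 h0
      nlinarith [mul_self_nonneg p]
  have key : p * p + q * q ≤ 4 := by
    by_cases hq : q = 0
    · subst hq
      have h3 : 2 * p = l * (p * p) := by linarith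
      have hp : p ≠ 0 := by
        rcases h0 with h0 | h0
        · exact h0
        · exact absurd rfl h0
      have h4 : l * p = 2 := by
        apply mul_right_cancel₀ hp
        linarith
      have h5 : p ∣ 2 := ⟨l, by linarith⟩
      have h6 := Int.le_of_dvd (by norm_num) h5
      have h7 : -p ∣ 2 := by rwa [neg_dvd]
      have h8 := Int.le_of_dvd (by norm_num) h7
      nlinarith
    · have hk : k ≠ 0 := by
        rintro rfl
        rw [zero_mul] at h1
        omega
      rcases lt_or_gt_of_ne hk with hk1 | hk1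
      · have h3 : k ≤ -1 := by omega
        have h4 : p * p + q * q ≤ -(2 * q) := by nlinarith
        have h5 : -2 ≤ q := by nlinarith [mul_self_nonneg p]
        nlinarith
      · have h3 : 1 ≤ k := by omega
        have h4 : p * p + q * q ≤ 2 * q := by nlinarith
        have h5 : q ≤ 2 := by nlinarith [mul_self_nonneg p]
        nlinarith
  refine ⟨?_, ?_, ?_, ?_⟩ <;> nlinarith [mul_self_nonneg p, mul_self_nonneg q]

/-- **The data of `B_2`, `BC_2` from the scalar products.** -/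
theorem two_of_cartan (h : CartanBasis θ b) (hA : MaxFlat θ A) (hτ : ∀ (φ : Module.Dual ℝ A) (a : A), killingForm ℝ L (τ φ : L) (a : L) = φ a)
    {α β : Module.Dual ℝ A} {ν : ℝ} (ra : α ∈ rootsL A) (rb : β ∈ rootsL A) (hi : IP2 τ α β ν) : Two θ b A τ α β ν where
  h := h
  hA := hA
  hτ := hτ
  ind s t hst := by
    have h1 : (s • α + t • β) (τ α) = 0 := by rw [hst]; rfl
    have h2 : (s • α + t • β) (τ β) = 0 := by rw [hst]; rfl
    rw [LinearMap.add_apply, LinearMap.smul_apply, LinearMap.smul_apply, hi.aa, hi.ba, smul_eq_mul, smul_eq_mul] at h1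
    rw [LinearMap.add_apply, LinearMap.smul_apply, LinearMap.smul_apply, hi.ab, hi.bb, smul_eq_mul, smul_eq_mul] at h2
    have hν := hi.pos
    have h3 : s * ν = 0 := by linarith
    have h4 : s = 0 := (mul_eq_zero.1 h3).resolve_right hν.ne'
    rw [h4] at h2
    have h5 : t * ν = 0 := by linarith
    exact ⟨h4, (mul_eq_zero.1 h5).resolve_right hν.ne'⟩
  hi := hi
  hn m n hB := by
    intro hr
    obtain ⟨k, hk, -⟩ := refl h hA hτ rb hr
    obtain ⟨l, hl, -⟩ := refl h hA hτ ra hr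
    have hν := hi.pos
    simp only [map_add, map_smul, LinearMap.add_apply, LinearMap.smul_apply, smul_eq_mul, hi.aa, hi.ab, hi.ba, hi.bb] at hk hl
    have h1 : 2 * (n - m) = k * (m * m + (n - m) * (n - m)) := by
      have : (2 * ((n : ℝ) - m)) * ν = (k * (m * m + (n - m) * (n - m))) * ν := by linarith
      exact_mod_cast mul_right_cancel₀ hν.ne' this
    have h2 : 2 * (m - (n - m)) = l * (m * m + (n - m) * (n - m)) := by
      have : (2 * ((m : ℝ) - (n - m))) * ν = (l * (m * m + (n - m) * (n - m))) * ν := by linarith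
      exact_mod_cast mul_right_cancel₀ hν.ne' this
    have h0 : m ≠ 0 ∨ n - m ≠ 0 := by
      by_contra h3
      push Not at h3
      apply hr.1
      rw [h3.1, show n = 0 by omega]
      simp
    obtain ⟨q, hq⟩ : ∃ q : ℤ, q = n - m := ⟨_, rfl⟩
    rw [← hq] at h0 h1 h2
    obtain ⟨b1, b2, b3, b4⟩ := lattice h0 h1 h2
    have e1 := hB (0, 1) (by decide)
    have e2 := hB (1, 0) (by decide)
    have e3 := hB (1, 1) (by decide)
    have e4 := hB (1, 2) (by decide)
    have e5 := hB (0, 2) (by decide)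
    have e6 := hB (2, 2) (by decide)
    simp only [Nat.cast_zero, Nat.cast_one, Nat.cast_ofNat] at e1 e2 e3 e4 e5 e6
    have hn : n = q + m := by omega
    subst hn
    clear hq hB hk hl hr
    interval_cases m <;> interval_cases q <;> omega

theorem TC.scale {ν ν' : ℝ} {φ ψ : Module.Dual ℝ A} {F G : L →ₗ[ℝ] L'} (hT : TC θ θ' A ν ν' φ ψ F G) {μ μ' c : ℝ} (h1 : μ = c * ν)
    (h2 : μ' = c * ν') : TC θ θ' A μ μ' φ ψ F G := by
  intro x y v w hx hy hv hw
  rw [h1, h2, mul_assoc, mul_assoc, hT x y v w hx hy hv hw]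

theorem ME.symm {α β : Module.Dual ℝ A} {α' β' : Module.Dual ℝ A'} (h : ME θ θ' τ τ' α β α' β') : ME θ θ' τ τ' β α β' α' := by
  obtain ⟨F, G, h1, h2, h3, h4, h5, h6⟩ := h
  exact ⟨G, F, h2, h1, h4, h3, h6, h5⟩

/-- The classification of the multiple edges. -/
theorem SD.multi (s : SD θ b A τ al) {i j : ι} (hij : i ≠ j) (h0 : al j (τ (al i)) ≠ 0) (h1 : ¬ A2E A τ (al i) (al j)) :
    (∃ ν, IP2 τ (al i) (al j) ν) ∨ (∃ ν, IP2 τ (al j) (al i) ν) ∨ G2E θ b A τ (al j) (al i) ∨ G2E θ b A τ (al i) (al j) := by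
  obtain ⟨m, hm, -⟩ := refl s.h s.hA s.hτ (s.hS.root j) (s.hS.root i)
  obtain ⟨n, hn, -⟩ := refl s.h s.hA s.hτ (s.hS.root i) (s.hS.root j)
  have hi := s.pos i
  have hj := s.pos j
  have hs := s.symm i j
  have ho := s.ob i j hij
  obtain ⟨c, hc⟩ : ∃ c : ℝ, c = al j (τ (al i)) := ⟨_, rfl⟩
  have hc' : c = al i (τ (al j)) := by rw [hc, hs]
  -- Cauchy-Schwarz
  have hcs : c * c < al i (τ (al i)) * al j (τ (al j)) := by
    have h2 : (al j (τ (al j))) • al i + (-c) • al j ≠ 0 := by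
      intro h3
      have h5 : LinearIndependent ℝ ![al i, al j] := by
        have h6 : Function.Injective ![i, j] := by
          intro a b hab
          fin_cases a <;> fin_cases b <;> simp_all
        have h7 := s.li.comp ![i, j] h6
        have h8 : al ∘ ![i, j] = ![al i, al j] := by
          funext k
          fin_cases k <;> rfl
        rwa [h8] at h7
      have h4 := LinearIndependent.pair_iff.1 h5 (al j (τ (al j))) (-c) h3
      exact hj.ne' h4.1
    have h3 := tau_pos s.hτ s.h s.hA h2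
    simp only [map_add, map_smul, LinearMap.add_apply, LinearMap.smul_apply, smul_eq_mul, ← hc, ← hc'] at h3
    by_contra h4
    rw [not_lt] at h4
    nlinarith
  rw [← hc'] at hn
  rw [← hc] at h0 ho hm
  have hc0 : c < 0 := lt_of_le_of_ne ho h0
  have hm0 : (m : ℝ) < 0 := by
    by_contra h2
    rw [not_lt] at h2
    nlinarith
  have hn0 : (n : ℝ) < 0 := by
    by_contra h2
    rw [not_lt] at h2
    nlinarith
  have hm1 : m ≤ -1 := by
    have : m < 0 := by exact_mod_cast hm0
    omega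
  have hn1 : n ≤ -1 := by
    have : n < 0 := by exact_mod_cast hn0
    omega
  have hmn : 4 * (c * c) = (m * n : ℤ) * (al i (τ (al i)) * al j (τ (al j))) := by
    push_cast
    linear_combination 2 * c * hn + n * al j (τ (al j)) * hm
  have hp : 0 < al i (τ (al i)) * al j (τ (al j)) := mul_pos hi hj
  have h4 : m * n < 4 := by
    by_contra h5
    rw [not_lt] at h5
    have h6 : (4 : ℝ) ≤ ((m * n : ℤ) : ℝ) := by exact_mod_cast h5
    nlinarith
  have hne : ¬ (m = -1 ∧ n = -1) := by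
    rintro ⟨rfl, rfl⟩
    apply h1
    refine ⟨s.hS.root i, s.hS.root j, (s.hS.dif i j hij).1, (s.hS.dif i j hij).2, ?_, ?_⟩
    · rw [← hc, hm]
      push_cast
      ring
    · push_cast at hm hn
      linarith
  have hm3 : -3 ≤ m := by nlinarith
  have hn3 : -3 ≤ n := by nlinarith
  have hd := s.hS.dif i j hij
  have hd' := s.hS.dif j i hij.symm
  have hcases : (m = -1 ∧ n = -2) ∨ (m = -2 ∧ n = -1) ∨ (m = -1 ∧ n = -3) ∨ (m = -3 ∧ n = -1) := by
    interval_cases m <;> interval_cases n <;> simp_all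
  rcases hcases with ⟨rfl, rfl⟩ | ⟨rfl, rfl⟩ | ⟨rfl, rfl⟩ | ⟨rfl, rfl⟩ <;> push_cast at hm hn
  · left
    exact ⟨al j (τ (al j)), hj, rfl, by rw [← hc']; linarith, by rw [← hc]; linarith, by linarith⟩
  · right; left
    exact ⟨al i (τ (al i)), hi, rfl, by rw [← hc]; linarith, by rw [← hc']; linarith, by linarith⟩
  · right; right; left
    exact G2E.of_cartan s.h s.hA s.hτ (s.hS.root j) (s.hS.root i) hd.2 (by rw [← hc']; linarith) (by rw [← hc]; linarith)
  · right; right; right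
    exact G2E.of_cartan s.h s.hA s.hτ (s.hS.root i) (s.hS.root j) hd'.2 (by rw [← hc]; linarith) (by rw [← hc']; linarith)

namespace PD

variable (p : PD θ θ' b b' A A' τ τ' al al')

include p

theorem ip2 {i j : ι} {ν : ℝ} (hi : IP2 τ (al i) (al j) ν) : IP2 τ' (al' i) (al' j) (al' j (τ' (al' j))) := by
  have h1 := p.hC i j
  have h2 := p.hC j i
  have hν := hi.pos
  have hs := p.s'.symm i j
  rw [hi.ba, hi.aa] at h1
  rw [hi.ab, hi.bb, ← hs] at h2
  have h3 : al' j (τ' (al' i)) = -al' j (τ' (al' j)) := by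
    have h4 : al' j (τ' (al' i)) * ν = -al' j (τ' (al' j)) * ν := by linarith
    exact mul_right_cancel₀ hν.ne' h4
  refine ⟨p.s'.pos j, rfl, by rw [← hs, h3], h3, ?_⟩
  rw [h3] at h1
  have h4 : al' i (τ' (al' i)) * ν = 2 * al' j (τ' (al' j)) * ν := by linarith
  exact mul_right_cancel₀ hν.ne' h4

theorem g2e {i j : ι} (hij : i ≠ j) (hg : G2E θ b A τ (al j) (al i)) : G2E θ' b' A' τ' (al' j) (al' i) := by
  have h1 := p.hC i j
  have h2 := p.hC j i
  have hν := p.s.pos j
  have hs := p.s.symm i j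
  have hs' := p.s'.symm i j
  have h3 := hg.ba
  have h4 := hg.bb
  refine G2E.of_cartan p.s'.h p.s'.hA p.s'.hτ (p.s'.hS.root j) (p.s'.hS.root i) (p.s'.hS.dif i j hij).2 ?_ ?_
  · apply mul_right_cancel₀ hν.ne'
    linear_combination (-2) * h2 + al' j (τ' (al' j)) * h3
  · rw [hs, h4] at h1
    have h5 : (3 * al j (τ (al j))) ≠ 0 := by positivity
    apply mul_right_cancel₀ h5
    linear_combination (-2) * h1 + al' i (τ' (al' i)) * h3

/-- Edges of type `B_2`. -/
theorem me_b2 {i j : ι} {ν : ℝ} (hi : IP2 τ (al i) (al j) ν) (hB : al j + al j ∉ rootsL A) (hB' : al' j + al' j ∉ rootsL A') :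
    ME θ θ' τ τ' (al i) (al j) (al' i) (al' j) := by
  have hi' := p.ip2 hi
  have c := two_of_cartan p.s.h p.s.hA p.s.hτ (p.s.hS.root i) (p.s.hS.root j) hi
  have c' := two_of_cartan p.s'.h p.s'.hA p.s'.hτ (p.s'.hS.root i) (p.s'.hS.root j) hi'
  have hA : al i + al i ∉ rootsL A := by
    have h1 := c.nr (m := 2) (n := 0) (by decide)
    intro h2
    apply h1
    convert h2 using 1
    push_cast
    module
  have hA' : al' i + al' i ∉ rootsL A' := by
    have h1 := c'.nr (m := 2) (n := 0) (by decide)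
    intro h2
    apply h1
    convert h2 using 1
    push_cast
    module
  obtain ⟨F, G, hF, hG, hT⟩ := b2_edge c c' hB hB' (p.s.hS.root i) (p.s.hS.root j) (p.s'.hS.root i) (p.hd i) (p.hd j)
  have hF' : IsoN θ θ' τ τ' (al j) (al' j) F := hF.scale (c := 1) (by rw [hi.bb, one_mul]) (by rw [one_mul])
  have hG' : IsoN θ θ' τ τ' (al i) (al' i) G := hG.scale (c := 2) hi.aa hi'.aa
  have hT' : TCN θ θ' τ τ' (al j) (al i) (al' i) F G := hT.scale (c := 2) hi.aa hi'.aa
  have h0 : al i (τ (al j)) ≠ 0 := by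
    rw [hi.ab]
    have := hi.pos
    linarith
  exact ⟨G, F, hG', hF', p.tc_symm h0 hT', hT', p.tc_self hA hA' hG', p.tc_self hB hB' hF'⟩

/-- Edges of type `G_2`. -/
theorem me_g2 {i j : ι} (hij : i ≠ j) (hg : G2E θ b A τ (al j) (al i)) : ME θ θ' τ τ' (al i) (al j) (al' i) (al' j) := by
  obtain ⟨F, G, h1, h2, h3, h4, h5, h6⟩ := g2_tc4 hg (p.g2e hij hg) (p.hd j)
  exact ⟨G, F, h2, h1, h4, h3, h6, h5⟩

end PD

end Pool.Agent.Helper25.AE
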